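import Mathlib

/-! Waring's problem with shifts, part A: mean squares over the shift. -/

set_option autoImplicit false

open Finset MeasureTheory Complex

namespace Pool.Agent.U518.WS

/-- the additive character -/
noncomputable def ee (x : ℝ) : ℂ := Complex.exp (((2 * Real.pi * x : ℝ) : ℂ) * I)

theorem norm_ee (x : ℝ) : ‖ee x‖ = 1 := by
  unfold ee
  exact Complex.norm_exp_ofReal_mul_I _

theorem ee_add (x y : ℝ) : ee (x + y) = ee x * ee y := by
  unfold ee
  rw [← Complex.exp_add]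
  congr 1
  push_cast
  ring

theorem ee_zero : ee 0 = 1 := by
  unfold ee
  simp

theorem ee_neg (x : ℝ) : ee (-x) = (starRingEnd ℂ) (ee x) := by
  unfold ee
  rw [← Complex.exp_conj]
  congr 1
  rw [map_mul, conj_ofReal, conj_I]
  push_cast
  ring

theorem ee_sub (x y : ℝ) : ee (x - y) = ee x * (starRingEnd ℂ) (ee y) := by
  rw [sub_eq_add_neg, ee_add, ee_neg]

theorem ee_sum {ι : Type*} (s : Finset ι) (f : ι → ℝ) : ee (∑ i ∈ s, f i) = ∏ i ∈ s, ee (f i) := by
  classical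
  induction s using Finset.induction_on with
  | empty => simp [ee_zero]
  | insert a s ha ih => rw [sum_insert ha, prod_insert ha, ee_add, ih]

theorem continuous_ee : Continuous ee := by
  unfold ee
  fun_prop

theorem hasDerivAt_ee (x : ℝ) : HasDerivAt ee (((2 * Real.pi : ℝ) : ℂ) * I * ee x) x := by
  unfold ee
  have h1 : HasDerivAt (fun x : ℝ => (((2 * Real.pi * x : ℝ) : ℂ) * I)) (((2 * Real.pi : ℝ) : ℂ) * I) x := by
    have h2 : HasDerivAt (fun x : ℝ => 2 * Real.pi * x) (2 * Real.pi) x := by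
      simpa using (hasDerivAt_id x).const_mul (2 * Real.pi)
    exact (h2.ofReal_comp).mul_const I
  have h3 := h1.cexp
  convert h3 using 1
  ring

/-- **First derivative test.** -/
theorem osc (a b β lam : ℝ) (hab : a ≤ b) (hβ : β ≠ 0) (hlam : 0 < lam) (g g' g'' : ℝ → ℝ)
    (h1 : ∀ x, HasDerivAt g (g' x) x) (h2 : ∀ x, HasDerivAt g' (g'' x) x)
    (hc' : Continuous g') (hc : Continuous g'') (hpos : ∀ x ∈ Set.Icc a b, lam ≤ g' x)
    (hmono : ∀ x ∈ Set.Icc a b, 0 ≤ g'' x) :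
    ‖∫ x in a..b, ee (β * g x)‖ ≤ 1 / (Real.pi * |β| * lam) := by
  have hpi := Real.pi_pos
  have hβ' : 0 < |β| := abs_pos.2 hβ
  have hu : Set.uIcc a b = Set.Icc a b := Set.uIcc_of_le hab
  have hp : ∀ x ∈ Set.uIcc a b, 0 < g' x := fun x hx => by
    rw [hu] at hx
    exact lt_of_lt_of_le hlam (hpos x hx)
  -- the real function 1/g'
  have hinv : ∀ x ∈ Set.uIcc a b, HasDerivAt (fun x => (g' x)⁻¹) (-(g'' x) / (g' x) ^ 2) x := fun x hx =>
    (h2 x).inv (hp x hx).ne'
  set c : ℂ := (((2 * Real.pi * β : ℝ) : ℂ) * I)⁻¹ with hcdef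
  have hcne : (((2 * Real.pi * β : ℝ) : ℂ) * I) ≠ 0 := by
    apply mul_ne_zero _ I_ne_zero
    rw [ofReal_ne_zero]
    positivity
  have hcn : ‖c‖ = 1 / (2 * Real.pi * |β|) := by
    rw [hcdef, norm_inv, norm_mul, norm_I, mul_one, norm_real, Real.norm_eq_abs, abs_mul,
      abs_of_pos (by positivity : (0 : ℝ) < 2 * Real.pi), one_div]
  -- u and v
  have hu1 : ∀ x ∈ Set.uIcc a b, HasDerivAt (fun x => c * (((g' x)⁻¹ : ℝ) : ℂ))
      (c * ((-(g'' x) / (g' x) ^ 2 : ℝ) : ℂ)) x := fun x hx =>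
    ((hinv x hx).ofReal_comp).const_mul c
  have hv1 : ∀ x ∈ Set.uIcc a b, HasDerivAt (fun x => ee (β * g x))
      (((2 * Real.pi * β : ℝ) : ℂ) * I * (g' x : ℂ) * ee (β * g x)) x := fun x _ => by
    have h3 : HasDerivAt (fun x => β * g x) (β * g' x) x := (h1 x).const_mul β
    have h4 := (hasDerivAt_ee (β * g x)).scomp x h3
    refine h4.congr_deriv ?_
    rw [Complex.real_smul]
    push_cast
    ring
  have hcg : Continuous g := continuous_iff_continuousAt.2 fun x => (h1 x).continuousAt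
  have hcu' : ContinuousOn (fun x => c * ((-(g'' x) / (g' x) ^ 2 : ℝ) : ℂ)) (Set.uIcc a b) := by
    apply ContinuousOn.mul continuousOn_const
    apply Complex.continuous_ofReal.comp_continuousOn
    exact ContinuousOn.div hc.neg.continuousOn (hc'.pow 2).continuousOn fun x hx => (pow_pos (hp x hx) 2).ne'
  have hcv' : Continuous (fun x => ((2 * Real.pi * β : ℝ) : ℂ) * I * (g' x : ℂ) * ee (β * g x)) := by
    apply Continuous.mul
    · exact continuous_const.mul (Complex.continuous_ofReal.comp hc')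
    · exact continuous_ee.comp (continuous_const.mul hcg)
  have hparts := intervalIntegral.integral_mul_deriv_eq_deriv_mul hu1 hv1 hcu'.intervalIntegrable
    (hcv'.intervalIntegrable a b)
  have hlhs : ∫ x in a..b, (c * (((g' x)⁻¹ : ℝ) : ℂ)) *
      (((2 * Real.pi * β : ℝ) : ℂ) * I * (g' x : ℂ) * ee (β * g x)) = ∫ x in a..b, ee (β * g x) := by
    apply intervalIntegral.integral_congr
    intro x hx
    have h3 : (g' x : ℂ) ≠ 0 := ofReal_ne_zero.2 (hp x hx).ne'
    show (c * (((g' x)⁻¹ : ℝ) : ℂ)) * (((2 * Real.pi * β : ℝ) : ℂ) * I * (g' x : ℂ) * ee (β * g x)) = _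
    rw [ofReal_inv]
    calc _ = (c * (((2 * Real.pi * β : ℝ) : ℂ) * I)) * ((g' x : ℂ)⁻¹ * (g' x : ℂ)) * ee (β * g x) := by ring
      _ = _ := by rw [hcdef, inv_mul_cancel₀ hcne, inv_mul_cancel₀ h3, one_mul, one_mul]
  rw [← hlhs, hparts]
  have hpa : 0 < g' a := hp a (by rw [hu]; exact Set.left_mem_Icc.2 hab)
  have hpb : 0 < g' b := hp b (by rw [hu]; exact Set.right_mem_Icc.2 hab)
  have hb1 : ‖c * (((g' b)⁻¹ : ℝ) : ℂ) * ee (β * g b)‖ = ‖c‖ * (g' b)⁻¹ := by
    rw [norm_mul, norm_mul, norm_ee, mul_one, norm_real, Real.norm_eq_abs, abs_of_pos (inv_pos.2 hpb)]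
  have ha1 : ‖c * (((g' a)⁻¹ : ℝ) : ℂ) * ee (β * g a)‖ = ‖c‖ * (g' a)⁻¹ := by
    rw [norm_mul, norm_mul, norm_ee, mul_one, norm_real, Real.norm_eq_abs, abs_of_pos (inv_pos.2 hpa)]
  have hint : ‖∫ x in a..b, c * ((-(g'' x) / (g' x) ^ 2 : ℝ) : ℂ) * ee (β * g x)‖ ≤
      ‖c‖ * ((g' a)⁻¹ - (g' b)⁻¹) := by
    have h3 : ‖∫ x in a..b, c * ((-(g'' x) / (g' x) ^ 2 : ℝ) : ℂ) * ee (β * g x)‖ ≤
        ∫ x in a..b, ‖c‖ * (-(-(g'' x) / (g' x) ^ 2)) := by
      refine intervalIntegral.norm_integral_le_of_norm_le hab ?_ ?_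
      · refine Filter.Eventually.of_forall fun x hx => ?_
        have hx' : x ∈ Set.Icc a b := ⟨hx.1.le, hx.2⟩
        rw [norm_mul, norm_mul, norm_ee, mul_one, norm_real, Real.norm_eq_abs]
        apply le_of_eq
        congr 1
        rw [abs_of_nonpos]
        have := hmono x hx'
        rw [neg_div]
        have h4 : 0 ≤ g'' x / g' x ^ 2 := by positivity
        linarith
      · apply ContinuousOn.intervalIntegrable
        apply ContinuousOn.mul continuousOn_const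
        apply ContinuousOn.neg
        exact ContinuousOn.div hc.neg.continuousOn (hc'.pow 2).continuousOn fun x hx => (pow_pos (hp x hx) 2).ne'
    refine h3.trans (le_of_eq ?_)
    rw [intervalIntegral.integral_const_mul]
    congr 1
    rw [intervalIntegral.integral_neg]
    rw [intervalIntegral.integral_eq_sub_of_hasDerivAt hinv
      (ContinuousOn.intervalIntegrable (ContinuousOn.div hc.neg.continuousOn (hc'.pow 2).continuousOn
        fun x hx => (pow_pos (hp x hx) 2).ne'))]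
    ring
  have hfin : ‖c * (((g' b)⁻¹ : ℝ) : ℂ) * ee (β * g b) - c * (((g' a)⁻¹ : ℝ) : ℂ) * ee (β * g a) -
      ∫ x in a..b, c * ((-(g'' x) / (g' x) ^ 2 : ℝ) : ℂ) * ee (β * g x)‖ ≤
      ‖c‖ * (g' b)⁻¹ + ‖c‖ * (g' a)⁻¹ + ‖c‖ * ((g' a)⁻¹ - (g' b)⁻¹) := by
    refine (norm_sub_le _ _).trans (add_le_add ((norm_sub_le _ _).trans ?_) hint)
    rw [hb1, ha1]
  refine hfin.trans ?_
  have h5 : ‖c‖ * (g' b)⁻¹ + ‖c‖ * (g' a)⁻¹ + ‖c‖ * ((g' a)⁻¹ - (g' b)⁻¹) = 2 * ‖c‖ * (g' a)⁻¹ := by ring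
  rw [h5, hcn]
  have h6 : (g' a)⁻¹ ≤ lam⁻¹ := inv_anti₀ hlam (hpos a (Set.left_mem_Icc.2 hab))
  calc 2 * (1 / (2 * Real.pi * |β|)) * (g' a)⁻¹ ≤ 2 * (1 / (2 * Real.pi * |β|)) * lam⁻¹ :=
        mul_le_mul_of_nonneg_left h6 (by positivity)
    _ = 1 / (Real.pi * |β| * lam) := by field_simp

/-- the square of an exponential sum -/
theorem sq_identity (F : ℕ → ℂ) (hF : ∀ n, ‖F n‖ = 1) (N : ℕ) :
    ‖∑ n ∈ range N, F n‖ ^ 2 =
      2 * (∑ h ∈ range N, ∑ n ∈ range (N - h), F (n + h) * (starRingEnd ℂ) (F n)).re - N := by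
  have hA : ∀ N : ℕ, ‖∑ n ∈ range N, F n‖ ^ 2 =
      2 * (∑ n ∈ range N, ∑ m ∈ range (n + 1), F n * (starRingEnd ℂ) (F m)).re - N := by
    intro N
    induction N with
    | zero => simp
    | succ N ih =>
      rw [sum_range_succ, sum_range_succ, Complex.add_re, sum_range_succ (fun m => F N * (starRingEnd ℂ) (F m))]
      have h1 : ‖∑ n ∈ range N, F n + F N‖ ^ 2 =
          ‖∑ n ∈ range N, F n‖ ^ 2 + ‖F N‖ ^ 2 + 2 * (F N * (starRingEnd ℂ) (∑ n ∈ range N, F n)).re := by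
        rw [← Complex.normSq_eq_norm_sq, ← Complex.normSq_eq_norm_sq, ← Complex.normSq_eq_norm_sq,
          add_comm (∑ n ∈ range N, F n) (F N), Complex.normSq_add]
        ring
      have h2 : (F N * (starRingEnd ℂ) (F N)).re = 1 := by
        rw [Complex.mul_conj, Complex.normSq_eq_norm_sq, hF]
        simp
      rw [h1, ih, hF, Complex.add_re, h2, map_sum, mul_sum]
      push_cast
      ring
  have hB : ∀ N : ℕ, ∑ n ∈ range N, ∑ m ∈ range (n + 1), F n * (starRingEnd ℂ) (F m) =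
      ∑ h ∈ range N, ∑ n ∈ range (N - h), F (n + h) * (starRingEnd ℂ) (F n) := by
    intro N
    induction N with
    | zero => simp
    | succ N ih =>
      rw [sum_range_succ, ih,
        sum_range_succ (fun h => ∑ n ∈ range (N + 1 - h), F (n + h) * (starRingEnd ℂ) (F n))]
      have h1 : ∑ h ∈ range N, ∑ n ∈ range (N + 1 - h), F (n + h) * (starRingEnd ℂ) (F n) =
          ∑ h ∈ range N, ∑ n ∈ range (N - h), F (n + h) * (starRingEnd ℂ) (F n) +
            ∑ h ∈ range N, F N * (starRingEnd ℂ) (F (N - h)) := by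
        rw [← sum_add_distrib]
        apply sum_congr rfl
        intro h hh
        rw [mem_range] at hh
        rw [show N + 1 - h = N - h + 1 by omega, sum_range_succ, show N - h + h = N by omega]
      rw [h1]
      have h2 : ∑ m ∈ range (N + 1), F N * (starRingEnd ℂ) (F m) =
          ∑ h ∈ range N, F N * (starRingEnd ℂ) (F (N - h)) + F N * (starRingEnd ℂ) (F 0) := by
        rw [← sum_range_reflect (fun m => F N * (starRingEnd ℂ) (F m)) (N + 1), sum_range_succ]
        have e1 : N + 1 - 1 - N = 0 := by omega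
        rw [e1]
        rfl
      rw [h2]
      have h3 : ∑ n ∈ range (N + 1 - N), F (n + N) * (starRingEnd ℂ) (F n) = F N * (starRingEnd ℂ) (F 0) := by
        rw [show N + 1 - N = 1 by omega, sum_range_one, zero_add]
      rw [h3]
      ring
  rw [hA, hB]

end Pool.Agent.U518.WS
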