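import Mathlib
import Pool.Agent.U518.WS.A

/-! Waring's problem with shifts, part B: the mean square over the shift of the exponential sum. -/

set_option autoImplicit false

open Finset MeasureTheory Complex

namespace Pool.Agent.U518.WS

/-- the phase `(y + h) ^ k - y ^ k` -/
noncomputable def gh (k : ℕ) (h y : ℝ) : ℝ := (y + h) ^ k - y ^ k

theorem gh_deriv (k : ℕ) (h y : ℝ) :
    HasDerivAt (gh k h) ((k : ℝ) * ((y + h) ^ (k - 1) - y ^ (k - 1))) y := by
  unfold gh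
  have h1 : HasDerivAt (fun y : ℝ => (y + h) ^ k) ((k : ℝ) * (y + h) ^ (k - 1) * 1) y :=
    ((hasDerivAt_id y).add_const h).pow k
  have h2 : HasDerivAt (fun y : ℝ => y ^ k) ((k : ℝ) * y ^ (k - 1) * 1) y := (hasDerivAt_id y).pow k
  refine (h1.sub h2).congr_deriv ?_
  ring

theorem gh_deriv2 (k : ℕ) (h y : ℝ) :
    HasDerivAt (fun y => (k : ℝ) * ((y + h) ^ (k - 1) - y ^ (k - 1)))
      ((k : ℝ) * (((k - 1 : ℕ) : ℝ) * ((y + h) ^ (k - 1 - 1) - y ^ (k - 1 - 1)))) y :=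
  (gh_deriv (k - 1) h y).const_mul (k : ℝ)

theorem pow_sub_ge (n : ℕ) (y h : ℝ) (hy : 0 ≤ y) (hh : 0 ≤ h) : h * y ^ n ≤ (y + h) ^ (n + 1) - y ^ (n + 1) := by
  have h1 : y ^ n ≤ (y + h) ^ n := pow_le_pow_left₀ hy (by linarith) n
  have h2 : (y + h) * y ^ n ≤ (y + h) * (y + h) ^ n := mul_le_mul_of_nonneg_left h1 (by linarith)
  calc h * y ^ n = (y + h) * y ^ n - y * y ^ n := by ring
    _ ≤ (y + h) * (y + h) ^ n - y * y ^ n := by linarith
    _ = _ := by ring

theorem gh_int (k : ℕ) (hk : 2 ≤ k) (P : ℕ) (hP : 1 ≤ P) (β : ℝ) (hβ : β ≠ 0) (h : ℕ) (hh : 1 ≤ h) (a b : ℝ)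
    (ha : (P : ℝ) ≤ a) (hab : a ≤ b) :
    ‖∫ y in a..b, ee (β * gh k h y)‖ ≤ 1 / (2 * Real.pi * |β| * (h * (P : ℝ) ^ (k - 2))) := by
  have hP0 : (1 : ℝ) ≤ P := by exact_mod_cast hP
  have hh0 : (1 : ℝ) ≤ h := by exact_mod_cast hh
  have hk2 : (2 : ℝ) ≤ k := by exact_mod_cast hk
  obtain ⟨j, rfl⟩ : ∃ j, k = j + 2 := ⟨k - 2, by omega⟩
  have hlam : (0 : ℝ) < 2 * (h * (P : ℝ) ^ j) := by positivity
  have key := osc a b β (2 * (h * (P : ℝ) ^ j)) hab hβ hlam (gh (j + 2) h)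
    (fun y => ((j + 2 : ℕ) : ℝ) * ((y + h) ^ (j + 2 - 1) - y ^ (j + 2 - 1)))
    (fun y => ((j + 2 : ℕ) : ℝ) * (((j + 2 - 1 : ℕ) : ℝ) * ((y + h) ^ (j + 2 - 1 - 1) - y ^ (j + 2 - 1 - 1))))
    (gh_deriv (j + 2) h) (gh_deriv2 (j + 2) h) (by fun_prop) (by fun_prop) ?_ ?_
  · refine key.trans (le_of_eq ?_)
    rw [show j + 2 - 2 = j by omega]
    ring
  · intro y hy
    have hy0 : (P : ℝ) ≤ y := ha.trans hy.1
    have h1 := pow_sub_ge j y h (by linarith) (by linarith)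
    have h2 : (P : ℝ) ^ j ≤ y ^ j := pow_le_pow_left₀ (by linarith) hy0 j
    have h3 : (h : ℝ) * (P : ℝ) ^ j ≤ (y + h) ^ (j + 1) - y ^ (j + 1) :=
      (mul_le_mul_of_nonneg_left h2 (by linarith)).trans h1
    show 2 * (h * (P : ℝ) ^ j) ≤ ((j + 2 : ℕ) : ℝ) * ((y + h) ^ (j + 1) - y ^ (j + 1))
    have h4 : (0 : ℝ) ≤ (y + h) ^ (j + 1) - y ^ (j + 1) := le_trans (by positivity) h3
    calc 2 * (h * (P : ℝ) ^ j) ≤ 2 * ((y + h) ^ (j + 1) - y ^ (j + 1)) := by linarith
      _ ≤ _ := mul_le_mul_of_nonneg_right hk2 h4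
  · intro y hy
    have hy0 : (P : ℝ) ≤ y := ha.trans hy.1
    have h1 : y ^ j ≤ (y + h) ^ j := pow_le_pow_left₀ (by linarith) (by linarith) j
    show 0 ≤ ((j + 2 : ℕ) : ℝ) * (((j + 1 : ℕ) : ℝ) * ((y + h) ^ j - y ^ j))
    have : 0 ≤ (y + h) ^ j - y ^ j := by linarith
    positivity

/-- the exponential sum -/
noncomputable def FF (k P : ℕ) (β t : ℝ) : ℂ := ∑ n ∈ range (3 * P), ee (β * (((P + 1 + n : ℕ) : ℝ) + t) ^ k)

theorem FF_norm_le (k P : ℕ) (β t : ℝ) : ‖FF k P β t‖ ≤ 3 * P := by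
  unfold FF
  refine (norm_sum_le _ _).trans ?_
  simp [norm_ee]

theorem FF_continuous (k P : ℕ) : Continuous (fun p : ℝ × ℝ => FF k P p.1 p.2) := by
  unfold FF
  apply continuous_finsetSum
  intro n _
  exact continuous_ee.comp (by fun_prop)

theorem harm_le (n : ℕ) : ∑ h ∈ Ico 1 n, (1 : ℝ) / h ≤ 1 + Real.log n := by
  rcases Nat.eq_zero_or_pos n with h0 | h0
  · subst h0; simp
  have h1 := harmonic_le_one_add_log n
  have h2 : ((harmonic n : ℚ) : ℝ) = ∑ i ∈ range n, (1 : ℝ) / ((i + 1 : ℕ) : ℝ) := by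
    unfold harmonic
    push_cast
    exact sum_congr rfl fun i _ => by rw [one_div]
  rw [h2] at h1
  refine le_trans ?_ h1
  rw [Finset.sum_Ico_eq_sum_range]
  calc ∑ k ∈ range (n - 1), (1 : ℝ) / ((1 + k : ℕ) : ℝ) = ∑ k ∈ range (n - 1), (1 : ℝ) / ((k + 1 : ℕ) : ℝ) := by
        exact sum_congr rfl fun k _ => by rw [add_comm]
    _ ≤ _ := sum_le_sum_of_subset_of_nonneg (range_mono (by omega)) fun _ _ _ => by positivity

/-- **The mean square over the shift.** -/
theorem meansq (k : ℕ) (hk : 2 ≤ k) (P : ℕ) (hP : 1 ≤ P) (β : ℝ) (hβ : β ≠ 0) :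
    ∫ t in (0 : ℝ)..1, ‖FF k P β t‖ ^ 2 ≤ 3 * P + (1 + Real.log (3 * P)) / (|β| * (P : ℝ) ^ (k - 2)) := by
  have hP0 : (1 : ℝ) ≤ P := by exact_mod_cast hP
  have hβ' : 0 < |β| := abs_pos.2 hβ
  have hpi := Real.pi_pos
  set S : ℝ → ℂ := fun t => ∑ h ∈ range (3 * P), ∑ n ∈ range (3 * P - h),
    ee (β * gh k h (((P + 1 + n : ℕ) : ℝ) + t)) with hS
  have hpt : ∀ t : ℝ, ‖FF k P β t‖ ^ 2 = 2 * (S t).re - ((3 * P : ℕ) : ℝ) := by
    intro t
    unfold FF
    rw [sq_identity (fun n => ee (β * (((P + 1 + n : ℕ) : ℝ) + t) ^ k)) (fun n => norm_ee _) (3 * P)]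
    congr 3
    apply sum_congr rfl
    intro h _
    apply sum_congr rfl
    intro n _
    rw [← ee_sub]
    congr 1
    unfold gh
    push_cast
    ring
  have hcont : ∀ h n : ℕ, Continuous fun t : ℝ => ee (β * gh k h (((P + 1 + n : ℕ) : ℝ) + t)) := by
    intro h n
    apply continuous_ee.comp
    unfold gh
    fun_prop
  have hScont : Continuous S := by
    rw [hS]
    apply continuous_finsetSum
    intro h _
    apply continuous_finsetSum
    intro n _
    exact hcont h n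
  have hre : ∫ t in (0 : ℝ)..1, ‖FF k P β t‖ ^ 2 = 2 * (∫ t in (0 : ℝ)..1, S t).re - ((3 * P : ℕ) : ℝ) := by
    have h1 : ∫ t in (0 : ℝ)..1, ‖FF k P β t‖ ^ 2 = ∫ t in (0 : ℝ)..1, (2 * (S t).re - ((3 * P : ℕ) : ℝ)) :=
      intervalIntegral.integral_congr fun t _ => hpt t
    have h2 : (∫ t in (0 : ℝ)..1, Complex.reCLM (S t)) = Complex.reCLM (∫ t in (0 : ℝ)..1, S t) :=
      Complex.reCLM.intervalIntegral_comp_comm (hScont.intervalIntegrable 0 1)
    have hcre : Continuous (fun t : ℝ => 2 * (S t).re) := (Complex.continuous_re.comp hScont).const_mul 2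
    have hi1 : IntervalIntegrable (fun t : ℝ => 2 * (S t).re) volume 0 1 := hcre.intervalIntegrable 0 1
    have hi2 : IntervalIntegrable (fun _ : ℝ => ((3 * P : ℕ) : ℝ)) volume 0 1 :=
      continuous_const.intervalIntegrable 0 1
    rw [h1, intervalIntegral.integral_sub hi1 hi2, intervalIntegral.integral_const_mul,
      intervalIntegral.integral_const]
    have h3 : ∫ t in (0 : ℝ)..1, (S t).re = (∫ t in (0 : ℝ)..1, S t).re := h2
    rw [h3]
    simp
  have hsum : ∫ t in (0 : ℝ)..1, S t = ∑ h ∈ range (3 * P),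
      ∫ y in ((P + 1 : ℕ) : ℝ)..((P + 1 + (3 * P - h) : ℕ) : ℝ), ee (β * gh k h y) := by
    rw [hS]
    rw [intervalIntegral.integral_finsetSum (fun h _ => (continuous_finsetSum _ fun n _ => hcont h n).intervalIntegrable 0 1)]
    apply sum_congr rfl
    intro h _
    rw [intervalIntegral.integral_finsetSum (fun n _ => (hcont h n).intervalIntegrable 0 1)]
    have hc2 : Continuous fun y : ℝ => ee (β * gh k h y) := by
      apply continuous_ee.comp
      unfold gh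
      fun_prop
    have h1 := intervalIntegral.sum_integral_adjacent_intervals (μ := volume) (f := fun y : ℝ => ee (β * gh k h y))
      (a := fun n : ℕ => ((P + 1 + n : ℕ) : ℝ)) (n := 3 * P - h) (fun n _ => hc2.intervalIntegrable _ _)
    rw [show ((P + 1 : ℕ) : ℝ) = ((P + 1 + 0 : ℕ) : ℝ) by rw [add_zero], ← h1]
    apply sum_congr rfl
    intro n _
    rw [intervalIntegral.integral_comp_add_left (fun y => ee (β * gh k h y)) ((P + 1 + n : ℕ) : ℝ)]
    congr 1
    · rw [add_zero]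
    · push_cast; ring
  have hbound : (∫ t in (0 : ℝ)..1, S t).re ≤ 3 * P + (1 + Real.log (3 * P)) / (2 * Real.pi * |β| * (P : ℝ) ^ (k - 2)) := by
    rw [hsum, Complex.re_sum]
    have h3P : 0 < 3 * P := by omega
    rw [Finset.range_eq_Ico, Finset.sum_eq_sum_Ico_succ_bot h3P]
    apply add_le_add
    · refine (Complex.re_le_norm _).trans ?_
      have h1 : ∀ y : ℝ, ee (β * gh k ((0 : ℕ) : ℝ) y) = 1 := by
        intro y
        unfold gh
        rw [Nat.cast_zero, add_zero, sub_self, mul_zero, ee_zero]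
      have h2 : ∫ y in ((P + 1 : ℕ) : ℝ)..((P + 1 + (3 * P - 0) : ℕ) : ℝ), ee (β * gh k ((0 : ℕ) : ℝ) y) =
          ((3 * P : ℕ) : ℂ) := by
        rw [intervalIntegral.integral_congr (g := fun _ => (1 : ℂ)) fun y _ => h1 y,
          intervalIntegral.integral_const]
        rw [Nat.sub_zero]
        push_cast
        rw [Complex.real_smul]
        push_cast
        ring
      rw [h2, Complex.norm_natCast]
      push_cast
      exact le_rfl
    · calc ∑ h ∈ Ico (0 + 1) (3 * P), (∫ y in ((P + 1 : ℕ) : ℝ)..((P + 1 + (3 * P - h) : ℕ) : ℝ),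
            ee (β * gh k h y)).re ≤ ∑ h ∈ Ico (0 + 1) (3 * P), 1 / (2 * Real.pi * |β| * (P : ℝ) ^ (k - 2)) * (1 / (h : ℝ)) := by
            apply sum_le_sum
            intro h hh
            rw [mem_Ico] at hh
            refine (Complex.re_le_norm _).trans ((gh_int k hk P hP β hβ h (by omega) _ _ ?_ ?_).trans (le_of_eq ?_))
            · push_cast; linarith
            · exact_mod_cast (by omega : P + 1 ≤ P + 1 + (3 * P - h))
            · have : (0 : ℝ) < h := by exact_mod_cast (by omega : 0 < h)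
              field_simp
        _ = 1 / (2 * Real.pi * |β| * (P : ℝ) ^ (k - 2)) * ∑ h ∈ Ico (0 + 1) (3 * P), (1 / (h : ℝ)) := by
            rw [mul_sum]
        _ ≤ 1 / (2 * Real.pi * |β| * (P : ℝ) ^ (k - 2)) * (1 + Real.log (3 * P)) := by
            apply mul_le_mul_of_nonneg_left _ (by positivity)
            have := harm_le (3 * P)
            push_cast at this
            exact this
        _ = _ := by ring
  rw [hre]
  have hL : 0 ≤ 1 + Real.log (3 * P) := by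
    have : 0 ≤ Real.log (3 * (P : ℝ)) := Real.log_nonneg (by linarith)
    linarith
  have h9 : (1 + Real.log (3 * P)) / (2 * Real.pi * |β| * (P : ℝ) ^ (k - 2)) ≤
      (1 + Real.log (3 * P)) / (2 * (|β| * (P : ℝ) ^ (k - 2))) := by
    apply div_le_div_of_nonneg_left hL (by positivity)
    have h10 : (1 : ℝ) ≤ Real.pi := by linarith [Real.pi_gt_three]
    have h11 : 0 ≤ |β| * (P : ℝ) ^ (k - 2) := by positivity
    nlinarith
  have h12 : 2 * ((1 + Real.log (3 * P)) / (2 * (|β| * (P : ℝ) ^ (k - 2)))) =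
      (1 + Real.log (3 * P)) / (|β| * (P : ℝ) ^ (k - 2)) := by
    field_simp
  push_cast
  linarith

end Pool.Agent.U518.WS
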