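import Mathlib
import Pool.Agent.U518.WS.B

/-! Waring's problem with shifts, part C: the average over the shifts of the minor arcs. -/

set_option autoImplicit false

open Finset MeasureTheory Complex

namespace Pool.Agent.U518.WS

/-- Lebesgue measure on `(0, 1]` -/
noncomputable abbrev m1 : Measure ℝ := volume.restrict (Set.Ioc 0 1)

instance : IsProbabilityMeasure m1 := ⟨by simp [m1]⟩

/-- the product measure -/
noncomputable abbrev ms (s : ℕ) : Measure (Fin s → ℝ) := Measure.pi fun _ => m1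

theorem FF_cont_t (k P : ℕ) (β : ℝ) : Continuous (FF k P β) := by
  have h := FF_continuous k P
  exact h.comp (Continuous.prodMk continuous_const continuous_id)

theorem mean_le_sqrt (k : ℕ) (P : ℕ) (β B : ℝ) (hB : 0 < B)
    (h : ∫ t in (0 : ℝ)..1, ‖FF k P β t‖ ^ 2 ≤ B) : ∫ t, ‖FF k P β t‖ ∂m1 ≤ Real.sqrt B := by
  have hsq : 0 < Real.sqrt B := Real.sqrt_pos.2 hB
  have h1 : ∫ t, ‖FF k P β t‖ ∂m1 = ∫ t in (0 : ℝ)..1, ‖FF k P β t‖ := by
    rw [intervalIntegral.integral_of_le zero_le_one]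
  rw [h1]
  have hc : Continuous fun t => ‖FF k P β t‖ := (FF_cont_t k P β).norm
  have hc2 : Continuous fun t => ‖FF k P β t‖ ^ 2 := hc.pow 2
  have h2 : ∫ t in (0 : ℝ)..1, ‖FF k P β t‖ ≤
      ∫ t in (0 : ℝ)..1, (Real.sqrt B / 2 + (1 / (2 * Real.sqrt B)) * ‖FF k P β t‖ ^ 2) := by
    apply intervalIntegral.integral_mono_on zero_le_one (hc.intervalIntegrable 0 1)
    · exact (continuous_const.add (continuous_const.mul hc2)).intervalIntegrable 0 1
    · intro t _
      have h3 : 0 ≤ (‖FF k P β t‖ - Real.sqrt B) ^ 2 := sq_nonneg _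
      have h4 : ‖FF k P β t‖ * (2 * Real.sqrt B) ≤ Real.sqrt B ^ 2 + ‖FF k P β t‖ ^ 2 := by nlinarith
      have h5 : Real.sqrt B / 2 + (1 / (2 * Real.sqrt B)) * ‖FF k P β t‖ ^ 2 =
          (Real.sqrt B ^ 2 + ‖FF k P β t‖ ^ 2) / (2 * Real.sqrt B) := by
        field_simp
      rw [h5, le_div_iff₀ (by positivity)]
      exact h4
  refine h2.trans ?_
  have hi1 : IntervalIntegrable (fun _ : ℝ => Real.sqrt B / 2) volume 0 1 :=
    continuous_const.intervalIntegrable 0 1
  have hi2 : IntervalIntegrable (fun t : ℝ => (1 / (2 * Real.sqrt B)) * ‖FF k P β t‖ ^ 2) volume 0 1 :=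
    (continuous_const.mul hc2).intervalIntegrable 0 1
  rw [intervalIntegral.integral_add hi1 hi2, intervalIntegral.integral_const_mul, intervalIntegral.integral_const]
  have h6 : (1 / (2 * Real.sqrt B)) * ∫ t in (0 : ℝ)..1, ‖FF k P β t‖ ^ 2 ≤ (1 / (2 * Real.sqrt B)) * B :=
    mul_le_mul_of_nonneg_left h (by positivity)
  have h7 : (1 / (2 * Real.sqrt B)) * B = Real.sqrt B / 2 := by
    rw [div_mul_eq_mul_div, one_mul, div_eq_div_iff (by positivity) (by norm_num)]
    nlinarith [Real.mul_self_sqrt hB.le]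
  rw [h7] at h6
  simp only [sub_zero, smul_eq_mul, one_mul]
  linarith

/-- the mean of the modulus for one frequency -/
theorem mean_le (k : ℕ) (hk : 2 ≤ k) (P : ℕ) (hP : 1 ≤ P) (β : ℝ) (hβ : β ≠ 0) :
    ∫ t, ‖FF k P β t‖ ∂m1 ≤
      Real.sqrt (3 * P + (1 + Real.log (3 * P)) / (|β| * (P : ℝ) ^ (k - 2))) := by
  have hP0 : (1 : ℝ) ≤ P := by exact_mod_cast hP
  have hβ' : 0 < |β| := abs_pos.2 hβ
  have hL : 0 ≤ Real.log (3 * (P : ℝ)) := Real.log_nonneg (by linarith)
  apply mean_le_sqrt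
  · positivity
  · exact meansq k hk P hP β hβ

/-- the average of the product over the shifts -/
theorem lint_prod (s k P : ℕ) (β w : ℝ) (hw : 0 ≤ w) :
    ∫⁻ θ, ENNReal.ofReal (w * ∏ i, ‖FF k P β (θ i)‖) ∂(ms s) =
      ENNReal.ofReal (w * (∫ t, ‖FF k P β t‖ ∂m1) ^ s) := by
  have hc : Continuous fun θ : Fin s → ℝ => w * ∏ i, ‖FF k P β (θ i)‖ := by
    apply continuous_const.mul
    apply continuous_finsetProd
    intro i _
    exact ((FF_cont_t k P β).norm).comp (continuous_apply i)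
  have hint : Integrable (fun θ : Fin s → ℝ => w * ∏ i, ‖FF k P β (θ i)‖) (ms s) := by
    apply Integrable.of_bound hc.aestronglyMeasurable (w * (3 * P) ^ s)
    refine Filter.Eventually.of_forall fun θ => ?_
    rw [Real.norm_eq_abs, abs_of_nonneg (by positivity)]
    apply mul_le_mul_of_nonneg_left _ hw
    calc ∏ i, ‖FF k P β (θ i)‖ ≤ ∏ _i : Fin s, (3 * (P : ℝ)) :=
          prod_le_prod (fun i _ => norm_nonneg _) fun i _ => FF_norm_le k P β (θ i)
      _ = (3 * P) ^ s := by simp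
  rw [← ofReal_integral_eq_lintegral_ofReal hint (Filter.Eventually.of_forall fun θ => by positivity)]
  congr 1
  rw [integral_const_mul]
  congr 1
  have h := integral_fintype_prod_eq_pow (ι := Fin s) (μ := m1) (fun t : ℝ => ‖FF k P β t‖)
  rw [Fintype.card_fin] at h
  exact h

/-- the integral over the minor arcs -/
noncomputable def XX (s k P : ℕ) (ρ T : ℝ) (θ : Fin s → ℝ) : ENNReal :=
  ∫⁻ β in {β : ℝ | T ≤ |β|}, ENNReal.ofReal (Real.exp (-Real.pi * (ρ * β) ^ 2) * ∏ i, ‖FF k P β (θ i)‖)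

theorem meas_T (T : ℝ) : MeasurableSet {β : ℝ | T ≤ |β|} :=
  measurableSet_le measurable_const continuous_abs.measurable

theorem cont_XX (s k P : ℕ) (ρ : ℝ) : Continuous fun p : (Fin s → ℝ) × ℝ =>
    ENNReal.ofReal (Real.exp (-Real.pi * (ρ * p.2) ^ 2) * ∏ i, ‖FF k P p.2 (p.1 i)‖) := by
  apply ENNReal.continuous_ofReal.comp
  apply Continuous.mul
  · fun_prop
  · apply continuous_finsetProd
    intro i _
    have h1 : Continuous fun p : (Fin s → ℝ) × ℝ => (p.2, p.1 i) :=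
      continuous_snd.prodMk ((continuous_apply i).comp continuous_fst)
    exact ((FF_continuous k P).comp h1).norm

theorem XX_measurable (s k P : ℕ) (ρ T : ℝ) : Measurable (XX s k P ρ T) :=
  (cont_XX s k P ρ).measurable.lintegral_prod_right'

theorem XX_mean (s k P : ℕ) (ρ T : ℝ) : ∫⁻ θ, XX s k P ρ T θ ∂(ms s) =
    ∫⁻ β in {β : ℝ | T ≤ |β|},
      ENNReal.ofReal (Real.exp (-Real.pi * (ρ * β) ^ 2) * (∫ t, ‖FF k P β t‖ ∂m1) ^ s) := by
  unfold XX
  rw [lintegral_lintegral_swap (cont_XX s k P ρ).measurable.aemeasurable]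
  apply lintegral_congr
  intro β
  exact lint_prod s k P β _ (Real.exp_pos _).le

end Pool.Agent.U518.WS
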