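import Mathlib
import Pool.Agent.U518.WS.C

/-! Waring's problem with shifts, part D: the minor arcs are small for almost all shifts. -/

set_option autoImplicit false

open Finset MeasureTheory Complex

namespace Pool.Agent.U518.WS

theorem mean_A (k : ℕ) (hk : 2 ≤ k) (P : ℕ) (hP : 1 ≤ P) (β A : ℝ) (hβ : β ≠ 0) (hA : (P : ℝ) ≤ A)
    (h : 1 ≤ A * (|β| * (P : ℝ) ^ (k - 2))) :
    ∫ t, ‖FF k P β t‖ ∂m1 ≤ Real.sqrt ((4 + Real.log (3 * P)) * A) := by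
  have hP0 : (1 : ℝ) ≤ P := by exact_mod_cast hP
  have hβ' : 0 < |β| := abs_pos.2 hβ
  have hL : 0 ≤ Real.log (3 * (P : ℝ)) := Real.log_nonneg (by linarith)
  refine (mean_le k hk P hP β hβ).trans (Real.sqrt_le_sqrt ?_)
  have h1 : (1 + Real.log (3 * P)) / (|β| * (P : ℝ) ^ (k - 2)) ≤ (1 + Real.log (3 * P)) * A := by
    rw [div_le_iff₀ (by positivity)]
    calc 1 + Real.log (3 * P) = (1 + Real.log (3 * P)) * 1 := by ring
      _ ≤ (1 + Real.log (3 * P)) * (A * (|β| * (P : ℝ) ^ (k - 2))) :=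
          mul_le_mul_of_nonneg_left h (by linarith)
      _ = _ := by ring
  nlinarith

theorem pow_split (P : ℝ) (hP : 1 ≤ P) (k : ℕ) (hk : 2 ≤ k) (a b : ℝ) (hab : a + b = 2 - k) :
    P ^ a * (P ^ b * P ^ (k - 2)) = 1 := by
  have h0 : 0 < P := by linarith
  have h1 : P ^ (k - 2) = P ^ ((k : ℝ) - 2) := by
    rw [← Real.rpow_natCast, Nat.cast_sub hk]
    norm_num
  rw [h1, ← Real.rpow_add h0, ← Real.rpow_add h0]
  have : a + (b + ((k : ℝ) - 2)) = 0 := by linarith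
  rw [this, Real.rpow_zero]

/-- the mean of `XX` -/
theorem EXX (s k : ℕ) (hk : 2 ≤ k) (P : ℕ) (hP : 1 ≤ P) (ρ : ℝ) (hρ : 0 < ρ) :
    ∫⁻ θ, XX s k P ρ ((P : ℝ) ^ ((1 : ℝ) / 2 - k)) θ ∂(ms s) ≤
      ENNReal.ofReal (Real.sqrt ((4 + Real.log (3 * P)) * P) ^ s / ρ +
        2 * (P : ℝ) ^ ((1 : ℝ) - k) * Real.sqrt ((4 + Real.log (3 * P)) * (P : ℝ) ^ ((3 : ℝ) / 2)) ^ s) := by
  have hP0 : (1 : ℝ) ≤ P := by exact_mod_cast hP
  have hPp : (0 : ℝ) < P := by linarith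
  have hL : 0 ≤ Real.log (3 * (P : ℝ)) := Real.log_nonneg (by linarith)
  set T : ℝ := (P : ℝ) ^ ((1 : ℝ) / 2 - k) with hT
  set D : ℝ := (P : ℝ) ^ ((1 : ℝ) - k) with hD
  set a1 : ℝ := Real.sqrt ((4 + Real.log (3 * P)) * P) ^ s with ha1
  set a2 : ℝ := Real.sqrt ((4 + Real.log (3 * P)) * (P : ℝ) ^ ((3 : ℝ) / 2)) ^ s with ha2
  have hTp : 0 < T := Real.rpow_pos_of_pos hPp _
  have hDp : 0 < D := Real.rpow_pos_of_pos hPp _
  have ha1' : 0 ≤ a1 := by positivity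
  have ha2' : 0 ≤ a2 := by positivity
  rw [XX_mean]
  have hpt : ∀ β ∈ {β : ℝ | T ≤ |β|},
      ENNReal.ofReal (Real.exp (-Real.pi * (ρ * β) ^ 2) * (∫ t, ‖FF k P β t‖ ∂m1) ^ s) ≤
      ENNReal.ofReal (Real.exp (-(Real.pi * ρ ^ 2) * β ^ 2) * a1) +
        (Set.Icc (-D) D).indicator (fun _ => ENNReal.ofReal a2) β := by
    intro β hβ
    have hβ1 : T ≤ |β| := hβ
    have hβ0 : β ≠ 0 := abs_pos.1 (lt_of_lt_of_le hTp hβ1)
    have hF0 : 0 ≤ ∫ t, ‖FF k P β t‖ ∂m1 := integral_nonneg fun t => norm_nonneg _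
    have hexp : Real.exp (-Real.pi * (ρ * β) ^ 2) = Real.exp (-(Real.pi * ρ ^ 2) * β ^ 2) := by
      congr 1; ring
    rcases le_or_gt D |β| with hc | hc
    · refine le_trans ?_ le_self_add
      apply ENNReal.ofReal_le_ofReal
      rw [hexp]
      apply mul_le_mul_of_nonneg_left _ (Real.exp_pos _).le
      apply pow_le_pow_left₀ hF0
      apply mean_A k hk P hP β P hβ0 le_rfl
      have h1 := pow_split P hP0 k hk 1 (1 - k) (by ring)
      rw [Real.rpow_one] at h1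
      rw [← h1]
      apply mul_le_mul_of_nonneg_left _ hPp.le
      exact mul_le_mul_of_nonneg_right hc (by positivity)
    · refine le_trans ?_ le_add_self
      have hmem : β ∈ Set.Icc (-D) D := by
        rw [Set.mem_Icc]
        exact abs_le.1 hc.le
      rw [Set.indicator_of_mem hmem]
      apply ENNReal.ofReal_le_ofReal
      have h2 : Real.exp (-Real.pi * (ρ * β) ^ 2) ≤ 1 := by
        rw [Real.exp_le_one_iff]
        have := Real.pi_pos
        have h3 : 0 ≤ Real.pi * (ρ * β) ^ 2 := by positivity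
        linarith
      have h4 : (∫ t, ‖FF k P β t‖ ∂m1) ^ s ≤ a2 := by
        apply pow_le_pow_left₀ hF0
        apply mean_A k hk P hP β _ hβ0
        · calc (P : ℝ) = (P : ℝ) ^ (1 : ℝ) := (Real.rpow_one _).symm
            _ ≤ _ := Real.rpow_le_rpow_of_exponent_le hP0 (by norm_num)
        have h1 := pow_split P hP0 k hk (3 / 2) (1 / 2 - k) (by ring)
        rw [← h1]
        apply mul_le_mul_of_nonneg_left _ (by positivity)
        exact mul_le_mul_of_nonneg_right hβ1 (by positivity)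
      calc _ ≤ 1 * (∫ t, ‖FF k P β t‖ ∂m1) ^ s := mul_le_mul_of_nonneg_right h2 (by positivity)
        _ ≤ a2 := by rw [one_mul]; exact h4
  have hm1 : Measurable fun β : ℝ => ENNReal.ofReal (Real.exp (-(Real.pi * ρ ^ 2) * β ^ 2) * a1) := by
    fun_prop
  calc _ ≤ ∫⁻ β in {β : ℝ | T ≤ |β|}, (ENNReal.ofReal (Real.exp (-(Real.pi * ρ ^ 2) * β ^ 2) * a1) +
        (Set.Icc (-D) D).indicator (fun _ => ENNReal.ofReal a2) β) :=
        setLIntegral_mono' (meas_T T) hpt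
    _ ≤ ∫⁻ β, (ENNReal.ofReal (Real.exp (-(Real.pi * ρ ^ 2) * β ^ 2) * a1) +
        (Set.Icc (-D) D).indicator (fun _ => ENNReal.ofReal a2) β) := setLIntegral_le_lintegral _ _
    _ = (∫⁻ β, ENNReal.ofReal (Real.exp (-(Real.pi * ρ ^ 2) * β ^ 2) * a1)) +
        ∫⁻ β, (Set.Icc (-D) D).indicator (fun _ => ENNReal.ofReal a2) β := by
        rw [lintegral_add_left hm1]
    _ = ENNReal.ofReal (a1 / ρ) + ENNReal.ofReal (2 * D * a2) := by
        congr 1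
        · have hb : 0 < Real.pi * ρ ^ 2 := by have := Real.pi_pos; positivity
          rw [← ofReal_integral_eq_lintegral_ofReal ((integrable_exp_neg_mul_sq hb).mul_const a1)
            (Filter.Eventually.of_forall fun β => by positivity)]
          congr 1
          rw [integral_mul_const, integral_gaussian]
          have h5 : Real.pi / (Real.pi * ρ ^ 2) = (1 / ρ) ^ 2 := by
            have := Real.pi_pos
            field_simp
          rw [h5, Real.sqrt_sq (by positivity)]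
          ring
        · rw [lintegral_indicator_const measurableSet_Icc, Real.volume_Icc,
            ← ENNReal.ofReal_mul ha2']
          congr 1
          ring
    _ = _ := by rw [← ENNReal.ofReal_add (by positivity) (by positivity)]

theorem lam_le (s : ℕ) (hs : 1 ≤ s) (η : ℝ) (hη : 0 < η) : ∃ C : ℝ, 0 < C ∧ ∀ P : ℕ, 1 ≤ P →
    Real.sqrt (4 + Real.log (3 * P)) ^ s ≤ C * (P : ℝ) ^ η := by
  have hs0 : (0 : ℝ) < s := by exact_mod_cast hs
  set ε : ℝ := 2 * η / s with hε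
  have hε0 : 0 < ε := by positivity
  refine ⟨Real.sqrt (6 + 1 / ε) ^ s, by positivity, fun P hP => ?_⟩
  have hP0 : (1 : ℝ) ≤ P := by exact_mod_cast hP
  have hPp : (0 : ℝ) < P := by linarith
  have h1 : Real.log (3 * (P : ℝ)) ≤ 2 + (P : ℝ) ^ ε / ε := by
    rw [Real.log_mul (by norm_num) hPp.ne']
    have h2 : Real.log 3 ≤ 2 := by
      have := Real.log_le_sub_one_of_pos (by norm_num : (0 : ℝ) < 3)
      linarith
    have h3 := Real.log_le_rpow_div hPp.le hε0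
    linarith
  have h4 : (1 : ℝ) ≤ (P : ℝ) ^ ε := Real.one_le_rpow hP0 hε0.le
  have h5 : 4 + Real.log (3 * P) ≤ (6 + 1 / ε) * (P : ℝ) ^ ε := by
    have h6 : (6 + 1 / ε) * (P : ℝ) ^ ε = 6 * (P : ℝ) ^ ε + (P : ℝ) ^ ε / ε := by ring
    rw [h6]
    linarith
  calc Real.sqrt (4 + Real.log (3 * P)) ^ s ≤ Real.sqrt ((6 + 1 / ε) * (P : ℝ) ^ ε) ^ s :=
        pow_le_pow_left₀ (Real.sqrt_nonneg _) (Real.sqrt_le_sqrt h5) s
    _ = Real.sqrt (6 + 1 / ε) ^ s * Real.sqrt ((P : ℝ) ^ ε) ^ s := by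
        rw [Real.sqrt_mul (by positivity), mul_pow]
    _ = Real.sqrt (6 + 1 / ε) ^ s * (P : ℝ) ^ η := by
        congr 1
        rw [Real.sqrt_eq_rpow, ← Real.rpow_natCast, ← Real.rpow_mul hPp.le, ← Real.rpow_mul hPp.le]
        congr 1
        rw [hε]
        field_simp

/-- the numerical bound for the mean -/
theorem EXX_le (s k : ℕ) (hk : 2 ≤ k) (hs : 1 ≤ s) (κ η : ℝ) (hη : 0 < η)
    (h1 : κ + s / 2 + 3 * η ≤ s - k) (h2 : 1 + 3 * s / 4 + 3 * η ≤ (s : ℝ)) :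
    ∃ C : ℝ, 0 < C ∧ ∀ P : ℕ, 1 ≤ P →
      ∫⁻ θ, XX s k P ((P : ℝ) ^ (-κ)) ((P : ℝ) ^ ((1 : ℝ) / 2 - k)) θ ∂(ms s) ≤
        ENNReal.ofReal (C * (P : ℝ) ^ ((s : ℝ) - k - 2 * η)) := by
  obtain ⟨C, hC, hCb⟩ := lam_le s hs η hη
  refine ⟨3 * C, by positivity, fun P hP => ?_⟩
  have hP0 : (1 : ℝ) ≤ P := by exact_mod_cast hP
  have hPp : (0 : ℝ) < P := by linarith
  have hL : 0 ≤ Real.log (3 * (P : ℝ)) := Real.log_nonneg (by linarith)
  refine (EXX s k hk P hP _ (Real.rpow_pos_of_pos hPp _)).trans (ENNReal.ofReal_le_ofReal ?_)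
  have hb := hCb P hP
  have e1 : Real.sqrt ((4 + Real.log (3 * P)) * P) ^ s =
      Real.sqrt (4 + Real.log (3 * P)) ^ s * (P : ℝ) ^ ((s : ℝ) / 2) := by
    rw [Real.sqrt_mul (by positivity), mul_pow]
    congr 1
    rw [Real.sqrt_eq_rpow, ← Real.rpow_natCast, ← Real.rpow_mul hPp.le]
    congr 1
    ring
  have e2 : Real.sqrt ((4 + Real.log (3 * P)) * (P : ℝ) ^ ((3 : ℝ) / 2)) ^ s =
      Real.sqrt (4 + Real.log (3 * P)) ^ s * (P : ℝ) ^ (3 * (s : ℝ) / 4) := by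
    rw [Real.sqrt_mul (by positivity), mul_pow]
    congr 1
    rw [Real.sqrt_eq_rpow, ← Real.rpow_natCast, ← Real.rpow_mul hPp.le, ← Real.rpow_mul hPp.le]
    congr 1
    ring
  have t1 : Real.sqrt ((4 + Real.log (3 * P)) * P) ^ s / (P : ℝ) ^ (-κ) ≤
      C * (P : ℝ) ^ ((s : ℝ) - k - 2 * η) := by
    rw [e1, div_le_iff₀ (Real.rpow_pos_of_pos hPp _)]
    calc Real.sqrt (4 + Real.log (3 * P)) ^ s * (P : ℝ) ^ ((s : ℝ) / 2) ≤
          (C * (P : ℝ) ^ η) * (P : ℝ) ^ ((s : ℝ) / 2) := mul_le_mul_of_nonneg_right hb (by positivity)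
      _ = C * (P : ℝ) ^ (η + s / 2) := by rw [mul_assoc, ← Real.rpow_add hPp]
      _ ≤ C * (P : ℝ) ^ ((s : ℝ) - k - 2 * η + (-κ)) := by
          apply mul_le_mul_of_nonneg_left _ hC.le
          exact Real.rpow_le_rpow_of_exponent_le hP0 (by linarith)
      _ = C * (P : ℝ) ^ ((s : ℝ) - k - 2 * η) * (P : ℝ) ^ (-κ) := by
          rw [mul_assoc, ← Real.rpow_add hPp]
  have t2 : 2 * (P : ℝ) ^ ((1 : ℝ) - k) * Real.sqrt ((4 + Real.log (3 * P)) * (P : ℝ) ^ ((3 : ℝ) / 2)) ^ s ≤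
      2 * (C * (P : ℝ) ^ ((s : ℝ) - k - 2 * η)) := by
    rw [e2]
    calc 2 * (P : ℝ) ^ ((1 : ℝ) - k) * (Real.sqrt (4 + Real.log (3 * P)) ^ s * (P : ℝ) ^ (3 * (s : ℝ) / 4)) ≤
          2 * (P : ℝ) ^ ((1 : ℝ) - k) * ((C * (P : ℝ) ^ η) * (P : ℝ) ^ (3 * (s : ℝ) / 4)) := by
          apply mul_le_mul_of_nonneg_left _ (by positivity)
          exact mul_le_mul_of_nonneg_right hb (by positivity)
      _ = 2 * (C * ((P : ℝ) ^ ((1 : ℝ) - k) * ((P : ℝ) ^ η * (P : ℝ) ^ (3 * (s : ℝ) / 4)))) := by ring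
      _ = 2 * (C * (P : ℝ) ^ ((1 : ℝ) - k + (η + 3 * s / 4))) := by
          rw [← Real.rpow_add hPp, ← Real.rpow_add hPp]
      _ ≤ 2 * (C * (P : ℝ) ^ ((s : ℝ) - k - 2 * η)) := by
          apply mul_le_mul_of_nonneg_left _ (by norm_num)
          apply mul_le_mul_of_nonneg_left _ hC.le
          exact Real.rpow_le_rpow_of_exponent_le hP0 (by linarith)
  linarith

/-- **Borel–Cantelli.** -/
theorem ae_small (s k : ℕ) (hk : 2 ≤ k) (hs : 1 ≤ s) (κ η : ℝ) (hη : 0 < η)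
    (h1 : κ + s / 2 + 3 * η ≤ s - k) (h2 : 1 + 3 * s / 4 + 3 * η ≤ (s : ℝ)) :
    ∀ᵐ θ ∂(ms s), ∀ᶠ ν : ℕ in Filter.atTop,
      XX s k (2 ^ ν) (((2 ^ ν : ℕ) : ℝ) ^ (-κ)) (((2 ^ ν : ℕ) : ℝ) ^ ((1 : ℝ) / 2 - k)) θ ≤
        ENNReal.ofReal (((2 ^ ν : ℕ) : ℝ) ^ ((s : ℝ) - k - η)) := by
  obtain ⟨C, hC, hCb⟩ := EXX_le s k hk hs κ η hη h1 h2
  set P : ℕ → ℝ := fun ν => ((2 ^ ν : ℕ) : ℝ) with hPdef
  have hPp : ∀ ν, 0 < P ν := fun ν => by rw [hPdef]; positivity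
  set X : ℕ → (Fin s → ℝ) → ENNReal := fun ν θ =>
    XX s k (2 ^ ν) ((P ν) ^ (-κ)) ((P ν) ^ ((1 : ℝ) / 2 - k)) θ with hX
  set Y : ℕ → (Fin s → ℝ) → ENNReal := fun ν θ =>
    ENNReal.ofReal ((P ν) ^ (-((s : ℝ) - k - η))) * X ν θ with hY
  have hmeas : ∀ ν, Measurable (Y ν) := fun ν => (XX_measurable s k _ _ _).const_mul _
  have hE : ∀ ν, ∫⁻ θ, Y ν θ ∂(ms s) ≤ ENNReal.ofReal (C * ((2 : ℝ) ^ (-η)) ^ ν) := by
    intro ν
    rw [hY]
    simp only
    rw [lintegral_const_mul _ (XX_measurable s k _ _ _)]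
    have h3 := hCb (2 ^ ν) Nat.one_le_two_pow
    calc ENNReal.ofReal ((P ν) ^ (-((s : ℝ) - k - η))) * ∫⁻ θ, X ν θ ∂(ms s) ≤
          ENNReal.ofReal ((P ν) ^ (-((s : ℝ) - k - η))) * ENNReal.ofReal (C * (P ν) ^ ((s : ℝ) - k - 2 * η)) :=
          mul_le_mul_right h3 _
      _ = ENNReal.ofReal (C * ((2 : ℝ) ^ (-η)) ^ ν) := by
          rw [← ENNReal.ofReal_mul (Real.rpow_pos_of_pos (hPp ν) _).le]
          congr 1
          calc _ = C * ((P ν) ^ (-((s : ℝ) - k - η)) * (P ν) ^ ((s : ℝ) - k - 2 * η)) := by ring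
            _ = C * (P ν) ^ (-η) := by
                rw [← Real.rpow_add (hPp ν)]
                congr 2
                ring
            _ = C * ((2 : ℝ) ^ (-η)) ^ ν := by
                rw [hPdef]
                simp only
                push_cast
                rw [← Real.rpow_natCast, ← Real.rpow_natCast, ← Real.rpow_mul (by norm_num),
                  ← Real.rpow_mul (by norm_num)]
                congr 2
                ring
  have hr1 : (2 : ℝ) ^ (-η) < 1 := by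
    rw [Real.rpow_neg (by norm_num)]
    apply inv_lt_one_of_one_lt₀
    exact Real.one_lt_rpow (by norm_num) hη
  have hsum : Summable fun ν : ℕ => C * ((2 : ℝ) ^ (-η)) ^ ν :=
    (summable_geometric_of_lt_one (by positivity) hr1).mul_left C
  have htot : ∫⁻ θ, ∑' ν, Y ν θ ∂(ms s) ≠ ⊤ := by
    rw [lintegral_tsum fun ν => (hmeas ν).aemeasurable]
    have h4 : ∑' ν, ∫⁻ θ, Y ν θ ∂(ms s) ≤ ∑' ν, ENNReal.ofReal (C * ((2 : ℝ) ^ (-η)) ^ ν) :=
      ENNReal.tsum_le_tsum hE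
    refine ne_top_of_le_ne_top ?_ h4
    rw [← ENNReal.ofReal_tsum_of_nonneg (fun ν => by positivity) hsum]
    exact ENNReal.ofReal_ne_top
  have hae : ∀ᵐ θ ∂(ms s), ∑' ν, Y ν θ < ⊤ := ae_lt_top (Measurable.tsum hmeas) htot
  filter_upwards [hae] with θ hθ
  have h5 := ENNReal.tendsto_cofinite_zero_of_tsum_ne_top hθ.ne
  rw [Nat.cofinite_eq_atTop] at h5
  have h6 : ∀ᶠ ν in Filter.atTop, Y ν θ < 1 := h5.eventually_lt_const (by norm_num)
  filter_upwards [h6] with ν hν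
  have h7 : ENNReal.ofReal ((P ν) ^ (-((s : ℝ) - k - η))) * X ν θ ≤ 1 := hν.le
  have h8 : ENNReal.ofReal ((P ν) ^ ((s : ℝ) - k - η)) * ENNReal.ofReal ((P ν) ^ (-((s : ℝ) - k - η))) = 1 := by
    rw [← ENNReal.ofReal_mul (Real.rpow_pos_of_pos (hPp ν) _).le, ← Real.rpow_add (hPp ν)]
    simp
  calc X ν θ = ENNReal.ofReal ((P ν) ^ ((s : ℝ) - k - η)) *
        (ENNReal.ofReal ((P ν) ^ (-((s : ℝ) - k - η))) * X ν θ) := by
        rw [← mul_assoc, h8, one_mul]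
    _ ≤ ENNReal.ofReal ((P ν) ^ ((s : ℝ) - k - η)) * 1 := mul_le_mul_right h7 _
    _ = _ := by rw [mul_one]

end Pool.Agent.U518.WS
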