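import Mathlib
import Pool.Agent.U518.WS.D

/-! Waring's problem with shifts, part E: Fourier inversion with Gaussian kernels. -/

set_option autoImplicit false

open Finset MeasureTheory Complex

namespace Pool.Agent.U518.WS

/-- the Gaussian kernel of width `a` -/
noncomputable def gg (a y : ℝ) : ℝ := (1 / a) * Real.exp (-Real.pi * (y / a) ^ 2)

theorem gg_fourier (a y : ℝ) (ha : 0 < a) :
    ∫ β : ℝ, ((Real.exp (-Real.pi * (a * β) ^ 2) : ℝ) : ℂ) * ee (β * y) = ((gg a y : ℝ) : ℂ) := by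
  have hpi := Real.pi_pos
  have hb : 0 < (((Real.pi * a ^ 2 : ℝ) : ℂ)).re := by
    rw [ofReal_re]; positivity
  have h := fourierIntegral_gaussian hb ((2 * Real.pi * y : ℝ) : ℂ)
  have h1 : ∀ β : ℝ, cexp (I * ((2 * Real.pi * y : ℝ) : ℂ) * β) * cexp (-((Real.pi * a ^ 2 : ℝ) : ℂ) * β ^ 2) =
      ((Real.exp (-Real.pi * (a * β) ^ 2) : ℝ) : ℂ) * ee (β * y) := by
    intro β
    unfold ee
    rw [mul_comm, Complex.ofReal_exp]
    congr 2
    · push_cast; ring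
    · push_cast; ring
  rw [integral_congr_ae (Filter.Eventually.of_forall h1)] at h
  rw [h]
  have h2 : ((Real.pi : ℝ) : ℂ) / ((Real.pi * a ^ 2 : ℝ) : ℂ) = ((((1 / a) ^ 2 : ℝ)) : ℂ) := by
    rw [← Complex.ofReal_div]
    congr 1
    field_simp
  have h3 : (((Real.pi : ℝ) : ℂ) / ((Real.pi * a ^ 2 : ℝ) : ℂ)) ^ (1 / 2 : ℂ) = (((1 / a : ℝ)) : ℂ) := by
    rw [h2]
    have h4 : ((1 / 2 : ℂ)) = (((1 / 2 : ℝ)) : ℂ) := by push_cast; ring
    rw [h4, ← Complex.ofReal_cpow (by positivity), ← Real.sqrt_eq_rpow, Real.sqrt_sq (by positivity)]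
  rw [h3]
  unfold gg
  rw [Complex.ofReal_mul (1 / a) (Real.exp (-Real.pi * (y / a) ^ 2)), Complex.ofReal_exp]
  congr 2
  push_cast
  have ha' : (a : ℂ) ≠ 0 := ofReal_ne_zero.2 ha.ne'
  have hpi' : (Real.pi : ℂ) ≠ 0 := ofReal_ne_zero.2 hpi.ne'
  field_simp
  ring

/-- the sum of the shifted powers -/
noncomputable def YY (s k P : ℕ) (θ : Fin s → ℝ) (n : Fin s → ℕ) : ℝ :=
  ∑ i, (((P + 1 + n i : ℕ) : ℝ) + θ i) ^ k

/-- the box of the variables -/
def BX (s P : ℕ) : Finset (Fin s → ℕ) := Fintype.piFinset fun _ => range (3 * P)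

theorem prod_FF (s k P : ℕ) (β : ℝ) (θ : Fin s → ℝ) :
    ∏ i, FF k P β (θ i) = ∑ n ∈ BX s P, ee (β * YY s k P θ n) := by
  unfold FF BX
  rw [Finset.prod_univ_sum]
  apply sum_congr rfl
  intro n _
  unfold YY
  rw [mul_sum, ee_sum]

theorem gauss_int (a y : ℝ) (ha : 0 < a) :
    Integrable fun β : ℝ => ((Real.exp (-Real.pi * (a * β) ^ 2) : ℝ) : ℂ) * ee (β * y) := by
  have hpi := Real.pi_pos
  have hb : 0 < Real.pi * a ^ 2 := by positivity
  have h1 : Integrable fun β : ℝ => Real.exp (-(Real.pi * a ^ 2) * β ^ 2) := integrable_exp_neg_mul_sq hb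
  refine Integrable.mono' h1 ?_ ?_
  · apply Continuous.aestronglyMeasurable
    apply Continuous.mul
    · fun_prop
    · exact continuous_ee.comp (by fun_prop)
  · refine Filter.Eventually.of_forall fun β => ?_
    rw [norm_mul, norm_ee, mul_one, norm_real, Real.norm_eq_abs, abs_of_pos (Real.exp_pos _)]
    apply le_of_eq
    congr 1
    ring

/-- **The Fourier formula for the smoothed count.** -/
theorem count_fourier (s k P : ℕ) (θ : Fin s → ℝ) (a N : ℝ) (ha : 0 < a) :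
    ((∑ n ∈ BX s P, gg a (YY s k P θ n - N) : ℝ) : ℂ) =
      ∫ β : ℝ, ((Real.exp (-Real.pi * (a * β) ^ 2) : ℝ) : ℂ) * (ee (-(β * N)) * ∏ i, FF k P β (θ i)) := by
  have h1 : ∀ β : ℝ, ((Real.exp (-Real.pi * (a * β) ^ 2) : ℝ) : ℂ) * (ee (-(β * N)) * ∏ i, FF k P β (θ i)) =
      ∑ n ∈ BX s P, ((Real.exp (-Real.pi * (a * β) ^ 2) : ℝ) : ℂ) * ee (β * (YY s k P θ n - N)) := by
    intro β
    rw [prod_FF, mul_sum, mul_sum]
    apply sum_congr rfl
    intro n _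
    rw [← ee_add]
    congr 2
    ring
  rw [integral_congr_ae (Filter.Eventually.of_forall h1),
    integral_finsetSum _ fun n _ => gauss_int a _ ha]
  rw [Complex.ofReal_sum]
  apply sum_congr rfl
  intro n _
  rw [gg_fourier a _ ha]

theorem count_integrable (s k P : ℕ) (θ : Fin s → ℝ) (a N : ℝ) (ha : 0 < a) :
    Integrable fun β : ℝ => ((Real.exp (-Real.pi * (a * β) ^ 2) : ℝ) : ℂ) *
      (ee (-(β * N)) * ∏ i, FF k P β (θ i)) := by
  have h1 : ∀ β : ℝ, ((Real.exp (-Real.pi * (a * β) ^ 2) : ℝ) : ℂ) * (ee (-(β * N)) * ∏ i, FF k P β (θ i)) =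
      ∑ n ∈ BX s P, ((Real.exp (-Real.pi * (a * β) ^ 2) : ℝ) : ℂ) * ee (β * (YY s k P θ n - N)) := by
    intro β
    rw [prod_FF, mul_sum, mul_sum]
    apply sum_congr rfl
    intro n _
    rw [← ee_add]
    congr 2
    ring
  rw [funext h1]
  exact integrable_finsetSum _ fun n _ => gauss_int a _ ha

theorem exp_diff (ρ W β T : ℝ) (hρ : 0 < ρ) (hW : ρ ≤ W) :
    |Real.exp (-Real.pi * (ρ * β) ^ 2) - Real.exp (-Real.pi * (W * β) ^ 2)| ≤
        Real.exp (-Real.pi * (ρ * β) ^ 2) ∧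
      (|β| ≤ T → |Real.exp (-Real.pi * (ρ * β) ^ 2) - Real.exp (-Real.pi * (W * β) ^ 2)| ≤
        Real.pi * W ^ 2 * T ^ 2) := by
  have hpi := Real.pi_pos
  have h1 : (ρ * β) ^ 2 ≤ (W * β) ^ 2 := by
    rw [mul_pow, mul_pow]
    exact mul_le_mul_of_nonneg_right (pow_le_pow_left₀ hρ.le hW 2) (sq_nonneg _)
  have h2 : Real.exp (-Real.pi * (W * β) ^ 2) ≤ Real.exp (-Real.pi * (ρ * β) ^ 2) := by
    apply Real.exp_le_exp.2
    nlinarith
  have h3 : |Real.exp (-Real.pi * (ρ * β) ^ 2) - Real.exp (-Real.pi * (W * β) ^ 2)| =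
      Real.exp (-Real.pi * (ρ * β) ^ 2) - Real.exp (-Real.pi * (W * β) ^ 2) := abs_of_nonneg (by linarith)
  rw [h3]
  refine ⟨by linarith [Real.exp_pos (-Real.pi * (W * β) ^ 2)], fun hβ => ?_⟩
  have h4 : Real.exp (-Real.pi * (ρ * β) ^ 2) ≤ 1 := by
    rw [Real.exp_le_one_iff]
    have : 0 ≤ Real.pi * (ρ * β) ^ 2 := by positivity
    linarith
  have h5 := Real.add_one_le_exp (-Real.pi * (W * β) ^ 2)
  have h6 : β ^ 2 ≤ T ^ 2 := by
    rw [← sq_abs β]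
    exact pow_le_pow_left₀ (abs_nonneg _) hβ 2
  have h7 : Real.pi * (W * β) ^ 2 ≤ Real.pi * W ^ 2 * T ^ 2 := by
    calc Real.pi * (W * β) ^ 2 = Real.pi * W ^ 2 * β ^ 2 := by ring
      _ ≤ _ := mul_le_mul_of_nonneg_left h6 (by positivity)
  linarith

/-- **Comparison of the counts at two scales.** -/
theorem compare (s k P : ℕ) (θ : Fin s → ℝ) (ρ W T N : ℝ) (hρ : 0 < ρ) (hW : ρ ≤ W) (hT : 0 < T) :
    ENNReal.ofReal |∑ n ∈ BX s P, gg ρ (YY s k P θ n - N) - ∑ n ∈ BX s P, gg W (YY s k P θ n - N)| ≤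
      XX s k P ρ T θ + ENNReal.ofReal (2 * Real.pi * W ^ 2 * T ^ 3 * (3 * P) ^ s) := by
  have hWp : 0 < W := by linarith
  have hpi := Real.pi_pos
  have hprod : ∀ β, ∏ i, ‖FF k P β (θ i)‖ ≤ (3 * (P : ℝ)) ^ s := fun β => by
    calc ∏ i, ‖FF k P β (θ i)‖ ≤ ∏ _i : Fin s, (3 * (P : ℝ)) :=
          prod_le_prod (fun i _ => norm_nonneg _) fun i _ => FF_norm_le k P β (θ i)
      _ = (3 * P) ^ s := by simp
  have hprod0 : ∀ β, 0 ≤ ∏ i, ‖FF k P β (θ i)‖ := fun β => prod_nonneg fun i _ => norm_nonneg _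
  set f : ℝ → ℂ := fun β => ((Real.exp (-Real.pi * (ρ * β) ^ 2) : ℝ) : ℂ) *
      (ee (-(β * N)) * ∏ i, FF k P β (θ i)) - ((Real.exp (-Real.pi * (W * β) ^ 2) : ℝ) : ℂ) *
      (ee (-(β * N)) * ∏ i, FF k P β (θ i)) with hf
  have h1 : (((∑ n ∈ BX s P, gg ρ (YY s k P θ n - N) - ∑ n ∈ BX s P, gg W (YY s k P θ n - N) : ℝ)) : ℂ) =
      ∫ β, f β := by
    rw [Complex.ofReal_sub, count_fourier s k P θ ρ N hρ, count_fourier s k P θ W N hWp,
      ← integral_sub (count_integrable s k P θ ρ N hρ) (count_integrable s k P θ W N hWp)]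
  have h2 : |∑ n ∈ BX s P, gg ρ (YY s k P θ n - N) - ∑ n ∈ BX s P, gg W (YY s k P θ n - N)| =
      ‖∫ β, f β‖ := by
    rw [← h1, norm_real, Real.norm_eq_abs]
  rw [h2, ofReal_norm]
  refine (enorm_integral_le_lintegral_enorm f).trans ?_
  have hnf : ∀ β, ‖f β‖ = |Real.exp (-Real.pi * (ρ * β) ^ 2) - Real.exp (-Real.pi * (W * β) ^ 2)| *
      ∏ i, ‖FF k P β (θ i)‖ := by
    intro β
    have : f β = ((Real.exp (-Real.pi * (ρ * β) ^ 2) - Real.exp (-Real.pi * (W * β) ^ 2) : ℝ) : ℂ) *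
        (ee (-(β * N)) * ∏ i, FF k P β (θ i)) := by
      rw [hf]
      simp only
      push_cast
      ring
    rw [this, norm_mul, norm_mul, norm_ee, one_mul, norm_real, Real.norm_eq_abs, norm_prod]
  have hpt : ∀ β, ‖f β‖ₑ ≤ ({β : ℝ | T ≤ |β|}.indicator (fun β => ENNReal.ofReal
      (Real.exp (-Real.pi * (ρ * β) ^ 2) * ∏ i, ‖FF k P β (θ i)‖)) β) +
      (Set.Icc (-T) T).indicator (fun _ => ENNReal.ofReal (Real.pi * W ^ 2 * T ^ 2 * (3 * P) ^ s)) β := by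
    intro β
    rw [← ofReal_norm, hnf]
    obtain ⟨hd1, hd2⟩ := exp_diff ρ W β T hρ hW
    rcases le_or_gt T |β| with hc | hc
    · have hmem : β ∈ {β : ℝ | T ≤ |β|} := hc
      rw [Set.indicator_of_mem hmem]
      refine le_trans ?_ le_self_add
      exact ENNReal.ofReal_le_ofReal (mul_le_mul_of_nonneg_right hd1 (hprod0 β))
    · have hmem : β ∈ Set.Icc (-T) T := abs_le.1 hc.le
      rw [Set.indicator_of_mem hmem]
      refine le_trans ?_ le_add_self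
      exact ENNReal.ofReal_le_ofReal (mul_le_mul (hd2 hc.le) (hprod β) (hprod0 β) (by positivity))
  refine (lintegral_mono hpt).trans ?_
  have hm : Measurable ({β : ℝ | T ≤ |β|}.indicator (fun β => ENNReal.ofReal
      (Real.exp (-Real.pi * (ρ * β) ^ 2) * ∏ i, ‖FF k P β (θ i)‖))) := by
    apply Measurable.indicator _ (meas_T T)
    have := cont_XX s k P ρ
    exact (this.comp (Continuous.prodMk continuous_const continuous_id)).measurable
  rw [lintegral_add_left hm, lintegral_indicator (meas_T T),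
    lintegral_indicator_const measurableSet_Icc, Real.volume_Icc, ← ENNReal.ofReal_mul (by positivity)]
  apply le_of_eq
  congr 2
  ring

theorem XX_anti (s k P : ℕ) (θ : Fin s → ℝ) (ρ₀ ρ T : ℝ) (h0 : 0 ≤ ρ₀) (h : ρ₀ ≤ ρ) :
    XX s k P ρ T θ ≤ XX s k P ρ₀ T θ := by
  unfold XX
  apply lintegral_mono
  intro β
  apply ENNReal.ofReal_le_ofReal
  apply mul_le_mul_of_nonneg_right _ (prod_nonneg fun i _ => norm_nonneg _)
  apply Real.exp_le_exp.2
  have h1 : (ρ₀ * β) ^ 2 ≤ (ρ * β) ^ 2 := by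
    rw [mul_pow, mul_pow]
    exact mul_le_mul_of_nonneg_right (pow_le_pow_left₀ h0 h 2) (sq_nonneg _)
  have hpi := Real.pi_pos
  nlinarith

/-- the comparison in the real numbers -/
theorem compare' (s k P : ℕ) (θ : Fin s → ℝ) (ρ₀ ρ W T N B : ℝ) (h0 : 0 < ρ₀) (h : ρ₀ ≤ ρ) (hW : ρ ≤ W)
    (hT : 0 < T) (hB : 0 ≤ B) (hX : XX s k P ρ₀ T θ ≤ ENNReal.ofReal B) :
    |∑ n ∈ BX s P, gg ρ (YY s k P θ n - N) - ∑ n ∈ BX s P, gg W (YY s k P θ n - N)| ≤
      B + 2 * Real.pi * W ^ 2 * T ^ 3 * (3 * P) ^ s := by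
  have hpi := Real.pi_pos
  have hWp : 0 < W := by linarith
  have hρ : 0 < ρ := by linarith
  have h1 := compare s k P θ ρ W T N hρ hW hT
  have h2 : 0 ≤ 2 * Real.pi * W ^ 2 * T ^ 3 * (3 * (P : ℝ)) ^ s := by positivity
  have h3 := h1.trans (add_le_add ((XX_anti s k P θ ρ₀ ρ T h0.le h).trans hX) le_rfl)
  rw [← ENNReal.ofReal_add hB h2] at h3
  exact (ENNReal.ofReal_le_ofReal_iff (by positivity)).1 h3

end Pool.Agent.U518.WS
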