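import Mathlib
import Pool.Agent.U518.WS.E

/-! Waring's problem with shifts, part F: the smoothed count at a large scale. -/

set_option autoImplicit false

open Finset MeasureTheory

namespace Pool.Agent.U518.WS

theorem pow_sub_le (n : ℕ) (x y : ℝ) (hy : 0 ≤ y) (hxy : y ≤ x) :
    x ^ (n + 1) - y ^ (n + 1) ≤ (n + 1) * x ^ n * (x - y) := by
  induction n with
  | zero => simp
  | succ n ih =>
    have hx : 0 ≤ x := hy.trans hxy
    have h1 : y ^ (n + 1) ≤ x ^ (n + 1) := pow_le_pow_left₀ hy hxy _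
    have h2 : x * (x ^ (n + 1) - y ^ (n + 1)) ≤ x * ((n + 1) * x ^ n * (x - y)) :=
      mul_le_mul_of_nonneg_left ih hx
    have h3 : y ^ (n + 1) * (x - y) ≤ x ^ (n + 1) * (x - y) :=
      mul_le_mul_of_nonneg_right h1 (by linarith)
    push_cast
    calc x ^ (n + 1 + 1) - y ^ (n + 1 + 1) = x * (x ^ (n + 1) - y ^ (n + 1)) + y ^ (n + 1) * (x - y) := by ring
      _ ≤ x * ((n + 1) * x ^ n * (x - y)) + x ^ (n + 1) * (x - y) := add_le_add h2 h3
      _ = _ := by ring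

theorem gg_nonneg (a y : ℝ) (ha : 0 < a) : 0 ≤ gg a y := by
  unfold gg
  positivity

theorem gg_lower (W y : ℝ) (hW : 0 < W) (hy : |y| ≤ W) : Real.exp (-Real.pi) / W ≤ gg W y := by
  unfold gg
  have h1 : (y / W) ^ 2 ≤ 1 := by
    rw [div_pow, div_le_one (by positivity)]
    rw [← sq_abs]
    exact pow_le_pow_left₀ (abs_nonneg _) hy 2
  have h2 : Real.exp (-Real.pi) ≤ Real.exp (-Real.pi * (y / W) ^ 2) := by
    apply Real.exp_le_exp.2
    have := Real.pi_pos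
    nlinarith
  rw [div_eq_mul_one_div, mul_comm]
  exact mul_le_mul_of_nonneg_left h2 (by positivity)

/-- **The number of solutions in a thick shell.** -/
theorem shell_count (r k P A w : ℕ) (hk : 1 ≤ k) (hP : 8 ≤ P) (hw : w ≤ P)
    (hA : 4 * (r * k * 4 ^ (k - 1)) * A ≤ P) (hAP : A ≤ P) (θ : Fin (r + 1) → ℝ)
    (hθ : ∀ i, θ i ∈ Set.Ioc (0 : ℝ) 1) (Z : ℝ) (hZ1 : 3 / 2 * (P : ℝ) ≤ Z) (hZ2 : Z ≤ 3 * P) :
    A ^ r * w ≤ ((BX (r + 1) P).filter fun n =>
      |YY (r + 1) k P θ n - ((r + 1 : ℕ) : ℝ) * Z ^ k| ≤ k * (4 * P) ^ (k - 1) * w).card := by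
  have hP0 : (8 : ℝ) ≤ P := by exact_mod_cast hP
  obtain ⟨q, rfl⟩ : ∃ q, k = q + 1 := ⟨k - 1, by omega⟩
  have hZ0 : 0 ≤ Z := by linarith
  have hAP' : (A : ℝ) ≤ P := by exact_mod_cast hAP
  have hw' : (w : ℝ) ≤ P := by exact_mod_cast hw
  -- the starting points
  set m : Fin r → ℕ := fun i => ⌈Z - P - 1 - θ i.succ⌉₊ with hm
  set J : Fin r → Finset ℕ := fun i => Ico (m i) (m i + A) with hJ
  have hv : ∀ i, ∀ n ∈ J i, Z ≤ ((P + 1 + n : ℕ) : ℝ) + θ i.succ ∧
      ((P + 1 + n : ℕ) : ℝ) + θ i.succ ≤ Z + A := by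
    intro i n hn
    rw [hJ] at hn
    simp only [mem_Ico] at hn
    have hθi := hθ i.succ
    have h1 : Z - P - 1 - θ i.succ ≤ (m i : ℝ) := Nat.le_ceil _
    have h2 : (m i : ℝ) < Z - P - 1 - θ i.succ + 1 := by
      apply Nat.ceil_lt_add_one
      linarith [hθi.2]
    have h3 : (m i : ℝ) ≤ n := by exact_mod_cast hn.1
    have h4 : (n : ℝ) + 1 ≤ m i + A := by exact_mod_cast hn.2
    push_cast
    constructor <;> linarith
  -- the remaining number
  set M : (Fin r → ℕ) → ℝ := fun b => ((r + 1 : ℕ) : ℝ) * Z ^ (q + 1) -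
    ∑ i, (((P + 1 + b i : ℕ) : ℝ) + θ i.succ) ^ (q + 1) with hM
  set R : (Fin r → ℕ) → ℝ := fun b => (M b) ^ (((q + 1 : ℕ) : ℝ)⁻¹) with hR
  have hMb : ∀ b ∈ Fintype.piFinset J, (5 / 4 * (P : ℝ)) ^ (q + 1) ≤ M b ∧ M b ≤ Z ^ (q + 1) := by
    intro b hb
    rw [Fintype.mem_piFinset] at hb
    have h1 : ∀ i, Z ^ (q + 1) ≤ (((P + 1 + b i : ℕ) : ℝ) + θ i.succ) ^ (q + 1) ∧
        (((P + 1 + b i : ℕ) : ℝ) + θ i.succ) ^ (q + 1) ≤ Z ^ (q + 1) + (q + 1) * (4 * P) ^ q * A := by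
      intro i
      obtain ⟨h2, h3⟩ := hv i (b i) (hb i)
      refine ⟨pow_le_pow_left₀ hZ0 h2 _, ?_⟩
      have h4 := pow_sub_le q _ Z hZ0 h2
      have h5 : (((P + 1 + b i : ℕ) : ℝ) + θ i.succ) ^ q ≤ (4 * (P : ℝ)) ^ q :=
        pow_le_pow_left₀ (by linarith) (by linarith) q
      have h6 : (((P + 1 + b i : ℕ) : ℝ) + θ i.succ) ^ (q + 1) - Z ^ (q + 1) ≤ (q + 1) * (4 * P) ^ q * A := by
        refine h4.trans ?_
        apply mul_le_mul _ (by linarith) (by linarith) (by positivity)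
        exact mul_le_mul_of_nonneg_left h5 (by positivity)
      linarith
    have h7 : (r : ℝ) * Z ^ (q + 1) ≤ ∑ i, (((P + 1 + b i : ℕ) : ℝ) + θ i.succ) ^ (q + 1) := by
      calc (r : ℝ) * Z ^ (q + 1) = ∑ _i : Fin r, Z ^ (q + 1) := by simp
        _ ≤ _ := sum_le_sum fun i _ => (h1 i).1
    have h8 : ∑ i, (((P + 1 + b i : ℕ) : ℝ) + θ i.succ) ^ (q + 1) ≤
        (r : ℝ) * (Z ^ (q + 1) + (q + 1) * (4 * P) ^ q * A) := by
      calc _ ≤ ∑ _i : Fin r, (Z ^ (q + 1) + (q + 1) * (4 * (P : ℝ)) ^ q * A) := sum_le_sum fun i _ => (h1 i).2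
        _ = _ := by rw [sum_const, card_univ, Fintype.card_fin, nsmul_eq_mul]
    have h9 : (r : ℝ) * ((q + 1) * (4 * P) ^ q * A) ≤ P ^ (q + 1) / 4 := by
      have h10 : (4 * (r * (q + 1) * 4 ^ q) * A : ℝ) ≤ P := by
        have := hA
        rw [Nat.add_sub_cancel] at this
        exact_mod_cast this
      have h11 : (0 : ℝ) ≤ (P : ℝ) ^ q := by positivity
      have h12 := mul_le_mul_of_nonneg_right h10 h11
      rw [mul_pow]
      calc (r : ℝ) * ((q + 1) * (4 ^ q * (P : ℝ) ^ q) * A) = (4 * (r * (q + 1) * 4 ^ q) * A) * (P : ℝ) ^ q / 4 := by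
            ring
        _ ≤ P * (P : ℝ) ^ q / 4 := by linarith
        _ = _ := by ring
    have h13 : M b = (r : ℝ) * Z ^ (q + 1) + Z ^ (q + 1) - ∑ i, (((P + 1 + b i : ℕ) : ℝ) + θ i.succ) ^ (q + 1) := by
      rw [hM]; simp only; push_cast; ring
    constructor
    · have h14 := pow_sub_ge q (5 / 4 * (P : ℝ)) (1 / 4 * P) (by linarith) (by linarith)
      have h15 : (3 / 2 * (P : ℝ)) ^ (q + 1) ≤ Z ^ (q + 1) := pow_le_pow_left₀ (by linarith) hZ1 _
      have h16 : 5 / 4 * (P : ℝ) + 1 / 4 * P = 3 / 2 * P := by ring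
      rw [h16] at h14
      have h17 : (P : ℝ) ^ (q + 1) / 4 ≤ 1 / 4 * P * (5 / 4 * P) ^ q := by
        have h18 : (P : ℝ) ^ q ≤ (5 / 4 * P) ^ q := pow_le_pow_left₀ (by linarith) (by linarith) q
        calc (P : ℝ) ^ (q + 1) / 4 = 1 / 4 * P * P ^ q := by ring
          _ ≤ _ := mul_le_mul_of_nonneg_left h18 (by linarith)
      rw [h13]
      linarith
    · rw [h13]; linarith
  have hRb : ∀ b ∈ Fintype.piFinset J, R b ^ (q + 1) = M b ∧ 5 / 4 * (P : ℝ) ≤ R b ∧ R b ≤ Z := by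
    intro b hb
    obtain ⟨h1, h2⟩ := hMb b hb
    have hM0 : 0 ≤ M b := le_trans (by positivity) h1
    have h3 : R b ^ (q + 1) = M b := by
      rw [hR]
      exact Real.rpow_inv_natCast_pow hM0 (by omega)
    have h4 : 0 ≤ R b := Real.rpow_nonneg hM0 _
    refine ⟨h3, ?_, ?_⟩
    · by_contra hcon
      push Not at hcon
      have := pow_lt_pow_left₀ hcon h4 (by omega : q + 1 ≠ 0)
      linarith
    · by_contra hcon
      push Not at hcon
      have := pow_lt_pow_left₀ hcon hZ0 (by omega : q + 1 ≠ 0)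
      linarith
  -- the injection
  set m0 : (Fin r → ℕ) → ℕ := fun b => ⌈R b - P - 1 - θ 0⌉₊ with hm0
  have hcard : (Fintype.piFinset J ×ˢ range w).card = A ^ r * w := by
    rw [card_product, Fintype.card_piFinset, card_range]
    congr 1
    rw [hJ]
    simp
  rw [← hcard]
  apply card_le_card_of_injOn (fun p : (Fin r → ℕ) × ℕ => (Fin.cons (m0 p.1 + p.2) p.1 : Fin (r + 1) → ℕ))
  · rintro ⟨b, j⟩ hp
    rw [coe_product, Set.mem_prod] at hp
    obtain ⟨hb, hj⟩ := hp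
    have hb' : b ∈ Fintype.piFinset J := hb
    have hj' : j < w := mem_range.1 hj
    obtain ⟨hR1, hR2, hR3⟩ := hRb b hb'
    have hθ0 := hθ 0
    have h1 : R b - P - 1 - θ 0 ≤ (m0 b : ℝ) := Nat.le_ceil _
    have h2 : (m0 b : ℝ) < R b - P - 1 - θ 0 + 1 := by
      apply Nat.ceil_lt_add_one
      linarith [hθ0.2]
    have h3 : (j : ℝ) + 1 ≤ w := by exact_mod_cast hj'
    set v : ℝ := ((P + 1 + (m0 b + j) : ℕ) : ℝ) + θ 0 with hvdef
    have hv1 : R b ≤ v := by rw [hvdef]; push_cast; linarith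
    have hv2 : v ≤ R b + w := by rw [hvdef]; push_cast; linarith
    rw [mem_coe, mem_filter]
    constructor
    · unfold BX
      rw [Fintype.mem_piFinset]
      intro i
      refine Fin.cases ?_ (fun i => ?_) i
      · show m0 b + j ∈ range (3 * P)
        rw [mem_range]
        have h4 : ((m0 b + j : ℕ) : ℝ) < ((3 * P : ℕ) : ℝ) := by
          push_cast
          have := hθ0.1
          rw [hvdef] at hv2
          push_cast at hv2
          linarith
        exact_mod_cast h4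
      · show b i ∈ range (3 * P)
        rw [mem_range]
        rw [Fintype.mem_piFinset] at hb'
        obtain ⟨h5, h6⟩ := hv i (b i) (hb' i)
        have h4 : ((b i : ℕ) : ℝ) < ((3 * P : ℕ) : ℝ) := by
          push_cast
          push_cast at h6
          have := (hθ i.succ).1
          linarith
        exact_mod_cast h4
    · have h7 : YY (r + 1) (q + 1) P θ (Fin.cons (m0 b + j) b) - ((r + 1 : ℕ) : ℝ) * Z ^ (q + 1) =
          v ^ (q + 1) - R b ^ (q + 1) := by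
        rw [hR1]
        unfold YY
        rw [Fin.sum_univ_succ]
        simp only [Fin.cons_zero, Fin.cons_succ]
        rw [hM]
        simp only
        rw [hvdef]
        ring
      rw [h7, Nat.add_sub_cancel]
      have hR0 : 0 ≤ R b := by linarith
      have h8 := pow_sub_le q v (R b) hR0 hv1
      have h9 : R b ^ (q + 1) ≤ v ^ (q + 1) := pow_le_pow_left₀ hR0 hv1 _
      rw [abs_of_nonneg (by linarith)]
      refine h8.trans ?_
      have h10 : v ^ q ≤ (4 * (P : ℝ)) ^ q := pow_le_pow_left₀ (by linarith) (by linarith) q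
      push_cast
      apply mul_le_mul _ (by linarith) (by linarith) (by positivity)
      exact mul_le_mul_of_nonneg_left h10 (by positivity)
  · rintro ⟨b, j⟩ _ ⟨b', j'⟩ _ he
    simp only at he
    have h1 : b = b' := by
      have := congrArg Fin.tail he
      simpa using this
    subst h1
    have h2 := congrFun he 0
    simp only [Fin.cons_zero] at h2
    have : j = j' := by omega
    rw [this]

/-- **The lower bound for the smoothed count.** -/
theorem smooth_lower (r k P A w : ℕ) (hk : 1 ≤ k) (hP : 8 ≤ P) (hw : w ≤ P) (hw1 : 1 ≤ w)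
    (hA : 4 * (r * k * 4 ^ (k - 1)) * A ≤ P) (hAP : A ≤ P) (θ : Fin (r + 1) → ℝ)
    (hθ : ∀ i, θ i ∈ Set.Ioc (0 : ℝ) 1) (Z : ℝ) (hZ1 : 3 / 2 * (P : ℝ) ≤ Z) (hZ2 : Z ≤ 3 * P) :
    Real.exp (-Real.pi) * (A : ℝ) ^ r / (k * (4 * P) ^ (k - 1)) ≤
      ∑ n ∈ BX (r + 1) P, gg (k * (4 * P) ^ (k - 1) * w) (YY (r + 1) k P θ n - ((r + 1 : ℕ) : ℝ) * Z ^ k) := by
  have hP0 : (8 : ℝ) ≤ P := by exact_mod_cast hP
  have hk0 : (1 : ℝ) ≤ k := by exact_mod_cast hk
  have hw0 : (1 : ℝ) ≤ w := by exact_mod_cast hw1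
  set W : ℝ := k * (4 * P) ^ (k - 1) * w with hW
  have hWp : 0 < W := by positivity
  have h1 := shell_count r k P A w hk hP hw hA hAP θ hθ Z hZ1 hZ2
  have h2 : ((A ^ r * w : ℕ) : ℝ) ≤ (((BX (r + 1) P).filter fun n =>
      |YY (r + 1) k P θ n - ((r + 1 : ℕ) : ℝ) * Z ^ k| ≤ W).card : ℝ) := Nat.cast_le.2 h1
  calc Real.exp (-Real.pi) * (A : ℝ) ^ r / (k * (4 * P) ^ (k - 1)) =
        ((A ^ r * w : ℕ) : ℝ) * (Real.exp (-Real.pi) / W) := by
        rw [hW]; push_cast; field_simp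
    _ ≤ (((BX (r + 1) P).filter fun n =>
      |YY (r + 1) k P θ n - ((r + 1 : ℕ) : ℝ) * Z ^ k| ≤ W).card : ℝ) * (Real.exp (-Real.pi) / W) :=
        mul_le_mul_of_nonneg_right h2 (by positivity)
    _ = ∑ n ∈ (BX (r + 1) P).filter (fun n =>
          |YY (r + 1) k P θ n - ((r + 1 : ℕ) : ℝ) * Z ^ k| ≤ W), Real.exp (-Real.pi) / W := by
        rw [sum_const, nsmul_eq_mul]
    _ ≤ ∑ n ∈ (BX (r + 1) P).filter (fun n =>
          |YY (r + 1) k P θ n - ((r + 1 : ℕ) : ℝ) * Z ^ k| ≤ W),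
          gg W (YY (r + 1) k P θ n - ((r + 1 : ℕ) : ℝ) * Z ^ k) := by
        apply sum_le_sum
        intro n hn
        rw [mem_filter] at hn
        exact gg_lower W _ hWp hn.2
    _ ≤ _ := sum_le_sum_of_subset_of_nonneg (filter_subset _ _) fun n _ _ => gg_nonneg W _ hWp

end Pool.Agent.U518.WS
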