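import Mathlib
import Pool.Agent.U518.WS.F

/-! Waring's problem with shifts, part G: from the smoothed count to the number of solutions. -/

set_option autoImplicit false

open Finset MeasureTheory

namespace Pool.Agent.U518.WS

/-- a difference of two Gaussians is a minorant of the indicator function -/
theorem minorant (δ y : ℝ) (hδ : 0 < δ) :
    δ / 2 * gg (δ / 2) y - Real.exp (-3 * Real.pi) * (δ * gg δ y) ≤ if |y| < δ then 1 else 0 := by
  have hpi := Real.pi_pos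
  have e1 : δ / 2 * gg (δ / 2) y = Real.exp (-4 * Real.pi * (y / δ) ^ 2) := by
    unfold gg
    rw [← mul_assoc]
    have h1 : δ / 2 * (1 / (δ / 2)) = 1 := by field_simp
    rw [h1, one_mul]
    congr 1
    field_simp
    ring
  have e2 : δ * gg δ y = Real.exp (-Real.pi * (y / δ) ^ 2) := by
    unfold gg
    rw [← mul_assoc]
    have h1 : δ * (1 / δ) = 1 := by field_simp
    rw [h1, one_mul]
  rw [e1, e2, ← Real.exp_add]
  split_ifs with h
  · have h2 : Real.exp (-4 * Real.pi * (y / δ) ^ 2) ≤ 1 := by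
      rw [Real.exp_le_one_iff]
      have : 0 ≤ Real.pi * (y / δ) ^ 2 := by positivity
      linarith
    have h3 := Real.exp_pos (-3 * Real.pi + -Real.pi * (y / δ) ^ 2)
    linarith
  · push Not at h
    have h4 : 1 ≤ (y / δ) ^ 2 := by
      rw [div_pow, le_div_iff₀ (by positivity), one_mul, ← sq_abs y]
      exact pow_le_pow_left₀ hδ.le h 2
    have h5 : Real.exp (-4 * Real.pi * (y / δ) ^ 2) ≤ Real.exp (-3 * Real.pi + -Real.pi * (y / δ) ^ 2) := by
      apply Real.exp_le_exp.2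
      nlinarith
    linarith

theorem exp_small : Real.exp (-3 * Real.pi) ≤ 1 / 4 := by
  have h1 : -3 * Real.pi ≤ -9 := by linarith [Real.pi_gt_three]
  have h2 : Real.exp (-3 * Real.pi) ≤ Real.exp (-9) := Real.exp_le_exp.2 h1
  have h3 : Real.exp (-9) ≤ 1 / 4 := by
    rw [Real.exp_neg, inv_eq_one_div]
    apply one_div_le_one_div_of_le (by norm_num)
    have := Real.add_one_le_exp (9 : ℝ)
    linarith
  linarith

/-- the number of near solutions, in terms of the smoothed sums -/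
theorem near_ge (s k P : ℕ) (θ : Fin s → ℝ) (N δ E S : ℝ) (hδ : 0 < δ) (hE : 0 ≤ E) (hS : 0 ≤ S)
    (h1 : |∑ n ∈ BX s P, gg (δ / 2) (YY s k P θ n - N) - S| ≤ E)
    (h2 : |∑ n ∈ BX s P, gg δ (YY s k P θ n - N) - S| ≤ E) :
    δ * (S / 4 - E) ≤ (((BX s P).filter fun n => |YY s k P θ n - N| < δ).card : ℝ) := by
  have h3 : (((BX s P).filter fun n => |YY s k P θ n - N| < δ).card : ℝ) =
      ∑ n ∈ BX s P, (if |YY s k P θ n - N| < δ then (1 : ℝ) else 0) := by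
    rw [card_filter]
    push_cast
    rfl
  rw [h3]
  have h4 : ∑ n ∈ BX s P, (δ / 2 * gg (δ / 2) (YY s k P θ n - N) -
      Real.exp (-3 * Real.pi) * (δ * gg δ (YY s k P θ n - N))) ≤
      ∑ n ∈ BX s P, (if |YY s k P θ n - N| < δ then (1 : ℝ) else 0) :=
    sum_le_sum fun n _ => minorant δ _ hδ
  refine le_trans ?_ h4
  rw [sum_sub_distrib, ← mul_sum, ← mul_sum, ← mul_sum]
  have h5 := (abs_le.1 h1).1
  have h6 := (abs_le.1 h2).2
  have h7 := exp_small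
  have h8 := Real.exp_pos (-3 * Real.pi)
  set X1 := ∑ n ∈ BX s P, gg (δ / 2) (YY s k P θ n - N)
  set X2 := ∑ n ∈ BX s P, gg δ (YY s k P θ n - N)
  set e := Real.exp (-3 * Real.pi)
  have h9 : δ / 2 * (S - E) ≤ δ / 2 * X1 := mul_le_mul_of_nonneg_left (by linarith) (by positivity)
  have h10 : e * (δ * X2) ≤ 1 / 4 * (δ * (S + E)) := by
    have h11 : e * (δ * X2) ≤ e * (δ * (S + E)) := by
      apply mul_le_mul_of_nonneg_left _ h8.le
      exact mul_le_mul_of_nonneg_left (by linarith) hδ.le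
    refine h11.trans ?_
    apply mul_le_mul_of_nonneg_right h7
    positivity
  nlinarith [mul_nonneg hδ.le hE]

/-- **The core estimate for one scale.** -/
theorem core (k s : ℕ) (hk : 2 ≤ k) (hs : 2 ≤ s) (κ η : ℝ) (hη : 0 < η) :
    ∃ c : ℝ, 0 < c ∧ ∃ P0 : ℕ, ∀ P : ℕ, P0 ≤ P → ∀ θ : Fin s → ℝ, (∀ i, θ i ∈ Set.Ioc (0 : ℝ) 1) →
      XX s k P ((P : ℝ) ^ (-κ)) ((P : ℝ) ^ ((1 : ℝ) / 2 - k)) θ ≤ ENNReal.ofReal ((P : ℝ) ^ ((s : ℝ) - k - η)) →
      ∀ Z : ℝ, 3 / 2 * (P : ℝ) ≤ Z → Z ≤ 3 * P → ∀ δ : ℝ, 2 * (P : ℝ) ^ (-κ) ≤ δ → δ ≤ 1 →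
        c * δ * (P : ℝ) ^ ((s : ℝ) - k) ≤
          (((BX s P).filter fun n => |YY s k P θ n - s * Z ^ k| < δ).card : ℝ) := by
  obtain ⟨r, rfl⟩ : ∃ r, s = r + 1 := ⟨s - 1, by omega⟩
  have hr : 1 ≤ r := by omega
  have hpi := Real.pi_pos
  set D : ℕ := 4 * (r * k * 4 ^ (k - 1)) with hD
  have hDpos : 0 < D := by rw [hD]; positivity
  have hD0 : (0 : ℝ) < D := by exact_mod_cast hDpos
  have hk0 : (2 : ℝ) ≤ k := by exact_mod_cast hk
  set K : ℝ := k * 4 ^ (k - 1) with hK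
  have hKp : 0 < K := by positivity
  set c0 : ℝ := Real.exp (-Real.pi) / ((2 * D) ^ r * K) with hc0
  have hc0p : 0 < c0 := by positivity
  set C2 : ℝ := 2 * Real.pi * K ^ 2 * 3 ^ (r + 1) with hC2
  have hC2p : 0 < C2 := by positivity
  -- eventual conditions
  have hev1 : ∀ᶠ P : ℕ in Filter.atTop, (P : ℝ) ^ (-η) ≤ c0 / 16 :=
    ((tendsto_rpow_neg_atTop hη).comp tendsto_natCast_atTop_atTop).eventually_le_const (by positivity)
  have hev2 : ∀ᶠ P : ℕ in Filter.atTop, (P : ℝ) ^ (-(1 / 4 : ℝ)) ≤ c0 / (16 * C2) :=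
    ((tendsto_rpow_neg_atTop (by norm_num : (0 : ℝ) < 1 / 4)).comp
      tendsto_natCast_atTop_atTop).eventually_le_const (by positivity)
  obtain ⟨P0, hP0⟩ := Filter.eventually_atTop.1
    ((hev1.and hev2).and ((Filter.eventually_ge_atTop 8).and (Filter.eventually_ge_atTop (2 * D))))
  refine ⟨c0 / 8, by positivity, P0, fun P hP θ hθ hX Z hZ1 hZ2 δ hδ1 hδ2 => ?_⟩
  obtain ⟨⟨he1, he2⟩, hP8, hPD⟩ := hP0 P hP
  have hPr : (8 : ℝ) ≤ P := by exact_mod_cast hP8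
  have hPp : (0 : ℝ) < P := by linarith
  have hP1 : (1 : ℝ) ≤ P := by linarith
  set w : ℕ := ⌊(P : ℝ) ^ ((1 : ℝ) / 8)⌋₊ with hw
  have hwle : (w : ℝ) ≤ (P : ℝ) ^ ((1 : ℝ) / 8) := Nat.floor_le (by positivity)
  have hw1 : 1 ≤ w := by
    rw [hw, Nat.one_le_floor_iff]
    exact Real.one_le_rpow hP1 (by norm_num)
  have hwP : w ≤ P := by
    have : (w : ℝ) ≤ P := hwle.trans (by
      calc (P : ℝ) ^ ((1 : ℝ) / 8) ≤ (P : ℝ) ^ (1 : ℝ) := Real.rpow_le_rpow_of_exponent_le hP1 (by norm_num)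
        _ = P := Real.rpow_one _)
    exact_mod_cast this
  have hw0 : (1 : ℝ) ≤ w := by exact_mod_cast hw1
  set W : ℝ := k * (4 * P) ^ (k - 1) * w with hW
  have hW1 : 1 ≤ W := by
    have h1 : (1 : ℝ) ≤ (4 * (P : ℝ)) ^ (k - 1) := one_le_pow₀ (by linarith)
    rw [hW]
    nlinarith [mul_le_mul hk0 h1 (by norm_num) (by linarith)]
  have hWp : 0 < W := by linarith
  set T : ℝ := (P : ℝ) ^ ((1 : ℝ) / 2 - k) with hT
  have hTp : 0 < T := Real.rpow_pos_of_pos hPp _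
  have hρ0 : 0 < (P : ℝ) ^ (-κ) := Real.rpow_pos_of_pos hPp _
  have hδ0 : 0 < δ := by linarith
  set N : ℝ := ((r + 1 : ℕ) : ℝ) * Z ^ k with hN
  set B : ℝ := (P : ℝ) ^ ((((r + 1 : ℕ) : ℝ)) - k - η) with hB
  have hBp : 0 < B := Real.rpow_pos_of_pos hPp _
  set E : ℝ := B + 2 * Real.pi * W ^ 2 * T ^ 3 * (3 * P) ^ (r + 1) with hE
  have hEp : 0 ≤ E := by positivity
  set S : ℝ := ∑ n ∈ BX (r + 1) P, gg W (YY (r + 1) k P θ n - N) with hS
  have hS0 : 0 ≤ S := sum_nonneg fun n _ => gg_nonneg W _ hWp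
  have hcmp : ∀ ρ : ℝ, (P : ℝ) ^ (-κ) ≤ ρ → ρ ≤ 1 →
      |∑ n ∈ BX (r + 1) P, gg ρ (YY (r + 1) k P θ n - N) - S| ≤ E := by
    intro ρ h1 h2
    exact compare' (r + 1) k P θ ((P : ℝ) ^ (-κ)) ρ W T N B hρ0 h1 (by linarith) hTp hBp.le hX
  have hnear := near_ge (r + 1) k P θ N δ E S hδ0 hEp hS0 (hcmp (δ / 2) (by linarith) (by linarith))
    (hcmp δ (by linarith) hδ2)
  refine le_trans ?_ hnear
  -- the main term
  set Q : ℝ := (P : ℝ) ^ ((((r + 1 : ℕ) : ℝ)) - k) with hQ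
  have hQp : 0 < Q := Real.rpow_pos_of_pos hPp _
  have hkr : ((k - 1 : ℕ) : ℝ) = (k : ℝ) - 1 := by
    rw [Nat.cast_sub (by omega)]; norm_num
  have hmain : c0 * Q ≤ S := by
    set A : ℕ := P / D with hA
    have hA1 : D * A ≤ P := Nat.mul_div_le P D
    have hA2 : A ≤ P := Nat.div_le_self P D
    have hA3 : (P : ℝ) / (2 * D) ≤ A := by
      have h1 : P < D * (A + 1) := by
        rw [hA]
        exact Nat.lt_mul_div_succ P hDpos
      have h2 : (P : ℝ) < D * (A + 1) := by exact_mod_cast h1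
      have h3 : (2 * (D : ℝ)) ≤ P := by exact_mod_cast hPD
      rw [div_le_iff₀ (by positivity)]
      nlinarith
    have hlow := smooth_lower r k P A w (by omega) hP8 hwP hw1 (by rw [← hD]; exact hA1) hA2 θ hθ Z hZ1 hZ2
    refine le_trans ?_ hlow
    have h4 : ((P : ℝ) / (2 * D)) ^ r ≤ (A : ℝ) ^ r := pow_le_pow_left₀ (by positivity) hA3 r
    have h5 : Q = (P : ℝ) ^ r / (P : ℝ) ^ (k - 1) := by
      rw [hQ, ← Real.rpow_natCast, ← Real.rpow_natCast, ← Real.rpow_sub hPp, hkr]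
      congr 1
      push_cast
      ring
    calc c0 * Q = Real.exp (-Real.pi) * ((P : ℝ) / (2 * D)) ^ r / (k * (4 * P) ^ (k - 1)) := by
          rw [h5, hc0, hK, div_pow, mul_pow 4 (P : ℝ)]
          field_simp
      _ ≤ _ := by
          apply div_le_div_of_nonneg_right _ (by positivity)
          exact mul_le_mul_of_nonneg_left h4 (Real.exp_pos _).le
  -- the error
  have herr : E ≤ c0 * Q / 8 := by
    have h1 : B ≤ c0 / 16 * Q := by
      have : B = (P : ℝ) ^ (-η) * Q := by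
        rw [hB, hQ, ← Real.rpow_add hPp]
        congr 1
        ring
      rw [this]
      exact mul_le_mul_of_nonneg_right he1 hQp.le
    have h2 : 2 * Real.pi * W ^ 2 * T ^ 3 * (3 * (P : ℝ)) ^ (r + 1) ≤ c0 / 16 * Q := by
      have h3 : (w : ℝ) ^ 2 ≤ (P : ℝ) ^ ((1 : ℝ) / 4) := by
        calc (w : ℝ) ^ 2 ≤ ((P : ℝ) ^ ((1 : ℝ) / 8)) ^ 2 := pow_le_pow_left₀ (by positivity) hwle 2
          _ = (P : ℝ) ^ ((1 : ℝ) / 4) := by
              rw [← Real.rpow_natCast, ← Real.rpow_mul hPp.le]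
              congr 1
              push_cast
              norm_num
      have h4 : W ^ 2 = K ^ 2 * ((P : ℝ) ^ ((k : ℝ) - 1)) ^ 2 * (w : ℝ) ^ 2 := by
        rw [hW, hK, mul_pow 4 (P : ℝ), ← hkr, Real.rpow_natCast]
        ring
      have h5 : ((P : ℝ) ^ ((k : ℝ) - 1)) ^ 2 * (P : ℝ) ^ ((1 : ℝ) / 4) * T ^ 3 * (P : ℝ) ^ (r + 1) =
          (P : ℝ) ^ (-(1 / 4 : ℝ)) * Q := by
        rw [hT, hQ, ← Real.rpow_natCast, ← Real.rpow_natCast, ← Real.rpow_natCast, ← Real.rpow_mul hPp.le,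
          ← Real.rpow_mul hPp.le, ← Real.rpow_add hPp, ← Real.rpow_add hPp, ← Real.rpow_add hPp,
          ← Real.rpow_add hPp]
        congr 1
        push_cast
        ring
      calc 2 * Real.pi * W ^ 2 * T ^ 3 * (3 * (P : ℝ)) ^ (r + 1) =
            C2 * (((P : ℝ) ^ ((k : ℝ) - 1)) ^ 2 * (w : ℝ) ^ 2 * T ^ 3 * (P : ℝ) ^ (r + 1)) := by
            rw [h4, hC2, mul_pow 3 (P : ℝ)]
            ring
        _ ≤ C2 * (((P : ℝ) ^ ((k : ℝ) - 1)) ^ 2 * (P : ℝ) ^ ((1 : ℝ) / 4) * T ^ 3 * (P : ℝ) ^ (r + 1)) := by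
            apply mul_le_mul_of_nonneg_left _ hC2p.le
            apply mul_le_mul_of_nonneg_right _ (by positivity)
            apply mul_le_mul_of_nonneg_right _ (by positivity)
            exact mul_le_mul_of_nonneg_left h3 (by positivity)
        _ = C2 * ((P : ℝ) ^ (-(1 / 4 : ℝ)) * Q) := by rw [h5]
        _ ≤ C2 * (c0 / (16 * C2) * Q) := by
            apply mul_le_mul_of_nonneg_left _ hC2p.le
            exact mul_le_mul_of_nonneg_right he2 hQp.le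
        _ = c0 / 16 * Q := by field_simp
    rw [hE]
    linarith
  have hfin : c0 / 8 * Q ≤ S / 4 - E := by linarith
  calc c0 / 8 * δ * Q = δ * (c0 / 8 * Q) := by ring
    _ ≤ δ * (S / 4 - E) := mul_le_mul_of_nonneg_left hfin hδ0.le

end Pool.Agent.U518.WS
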