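import Mathlib
import Pool.Agent.U518.WS.G

/-! Waring's problem with shifts, part H: the theorem for almost all shifts. -/

set_option autoImplicit false

open Finset MeasureTheory

namespace Pool.Agent.U518.WS

theorem ms_eq (s : ℕ) : ms s = (volume : Measure (Fin s → ℝ)).restrict (Set.univ.pi fun _ => Set.Ioc 0 1) := by
  rw [volume_pi, Measure.restrict_pi_pi]

/-- the eventual lower bound for a good shift of the unit cube -/
theorem cube (k s : ℕ) (hk : 2 ≤ k) (hs : 2 * k + 1 ≤ s) (τ : ℝ) (hτ0 : 0 ≤ τ)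
    (hτ : τ < (s : ℝ) / (2 * k) - 1) :
    ∃ c : ℝ, 0 < c ∧ ∀ᵐ θ : Fin s → ℝ, (∀ i, θ i ∈ Set.Ioc (0 : ℝ) 1) → ∀ L : ℕ, ∀ᶠ N : ℝ in Filter.atTop,
      ∀ δ : ℝ, N ^ (-τ) ≤ δ → δ ≤ 1 → ∃ A : Finset (Fin s → ℕ),
        (∀ x ∈ A, (∀ i, L ≤ x i) ∧ |∑ i, ((x i : ℝ) + θ i) ^ k - N| < δ) ∧
          c * δ * N ^ ((s : ℝ) / k - 1) ≤ (A.card : ℝ) := by
  have hk0 : (2 : ℝ) ≤ k := by exact_mod_cast hk
  have hkp : (0 : ℝ) < k := by linarith
  have hs0 : (2 * (k : ℝ) + 1) ≤ s := by exact_mod_cast hs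
  have hsp : (0 : ℝ) < s := by linarith
  have hkτ : k * τ < (s : ℝ) / 2 - k := by
    have h1 : (s : ℝ) / (2 * k) * k = s / 2 := by field_simp
    nlinarith
  set κ : ℝ := (k * τ + (s / 2 - k)) / 2 with hκ
  have hκ1 : k * τ < κ := by rw [hκ]; linarith
  have hκ2 : κ < s / 2 - k := by rw [hκ]; linarith
  set η : ℝ := min (1 / 12) ((s / 2 - k - κ) / 3) with hη
  have hη0 : 0 < η := by rw [hη]; apply lt_min (by norm_num); linarith
  have hηa : η ≤ 1 / 12 := min_le_left _ _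
  have hηb : η ≤ (s / 2 - k - κ) / 3 := min_le_right _ _
  obtain ⟨c, hc, P0, hcore⟩ := core k s hk (by omega) κ η hη0
  have hae := ae_small s k hk (by omega) κ η hη0 (by linarith) (by linarith)
  set cc : ℝ := c * ((1 / 3 : ℝ) ^ ((s : ℝ) - k) * (1 / (s : ℝ)) ^ ((s : ℝ) / k - 1)) with hcc
  refine ⟨cc, by positivity, ?_⟩
  rw [ms_eq, ae_restrict_iff' (MeasurableSet.univ_pi fun _ => measurableSet_Ioc)] at hae
  filter_upwards [hae] with θ hθ hcube L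
  have hθ' := hθ (by rw [Set.mem_univ_pi]; exact hcube)
  -- the exponent condition
  have hev1 : ∀ᶠ ν : ℕ in Filter.atTop,
      (((2 ^ ν : ℕ) : ℝ)) ^ (-(κ - k * τ)) ≤ ((s : ℝ) * 3 ^ k) ^ (-τ) / 2 := by
    have h1 : Filter.Tendsto (fun ν : ℕ => ((2 ^ ν : ℕ) : ℝ)) Filter.atTop Filter.atTop :=
      tendsto_natCast_atTop_atTop.comp (tendsto_pow_atTop_atTop_of_one_lt (by norm_num : 1 < 2))
    exact ((tendsto_rpow_neg_atTop (by linarith : 0 < κ - k * τ)).comp h1).eventually_le_const (by positivity)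
  have hev2 : ∀ᶠ ν : ℕ in Filter.atTop, max P0 L ≤ 2 ^ ν :=
    (tendsto_pow_atTop_atTop_of_one_lt (by norm_num : 1 < 2)).eventually_ge_atTop _
  obtain ⟨ν1, hν1⟩ := Filter.eventually_atTop.1 (hθ'.and (hev1.and hev2))
  refine Filter.eventually_atTop.2 ⟨(s : ℝ) * (3 * 2 ^ ν1) ^ k, fun N hN δ hδ1 hδ2 => ?_⟩
  have hNp : 0 < N := lt_of_lt_of_le (by positivity) hN
  set Z : ℝ := (N / s) ^ ((k : ℝ)⁻¹) with hZ
  have hZ0 : 0 ≤ Z := by positivity
  have hZk : Z ^ k = N / s := Real.rpow_inv_natCast_pow (by positivity) (by omega)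
  have hNZ : (s : ℝ) * Z ^ k = N := by rw [hZk]; field_simp
  have hZge : 3 * (2 : ℝ) ^ ν1 ≤ Z := by
    by_contra hcon
    push Not at hcon
    have h1 := pow_lt_pow_left₀ hcon hZ0 (by omega : k ≠ 0)
    have h2 : (s : ℝ) * Z ^ k < s * (3 * 2 ^ ν1) ^ k := mul_lt_mul_of_pos_left h1 hsp
    linarith
  have h2ν1 : (1 : ℝ) ≤ 2 ^ ν1 := one_le_pow₀ (by norm_num)
  obtain ⟨ν, hνa, hνb⟩ := exists_nat_pow_near (x := Z * (2 / 3)) (y := 2) (by linarith) (by norm_num)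
  have hν : ν1 ≤ ν := by
    have h1 : (2 : ℝ) ^ ν1 < 2 ^ (ν + 1) := by linarith
    have h2 : ν1 < ν + 1 := (pow_lt_pow_iff_right₀ (by norm_num : (1 : ℝ) < 2)).1 h1
    omega
  obtain ⟨hX, hexp, hmax⟩ := hν1 ν hν
  set P : ℕ := 2 ^ ν with hPdef
  have hPr : (P : ℝ) = 2 ^ ν := by rw [hPdef]; push_cast; rfl
  have hPp : (0 : ℝ) < P := by rw [hPr]; positivity
  have hZ1 : 3 / 2 * (P : ℝ) ≤ Z := by rw [hPr]; linarith
  have hZ2 : Z ≤ 3 * P := by rw [hPr]; rw [pow_succ] at hνb; linarith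
  have hδ3 : 2 * (P : ℝ) ^ (-κ) ≤ δ := by
    refine le_trans ?_ hδ1
    have h1 : N ≤ s * 3 ^ k * (P : ℝ) ^ (k : ℝ) := by
      rw [Real.rpow_natCast, ← hNZ, mul_assoc, ← mul_pow]
      exact mul_le_mul_of_nonneg_left (pow_le_pow_left₀ hZ0 hZ2 k) hsp.le
    calc 2 * (P : ℝ) ^ (-κ) = 2 * ((P : ℝ) ^ (-(κ - k * τ)) * (P : ℝ) ^ (-(k * τ))) := by
          rw [← Real.rpow_add hPp]
          congr 2
          ring
      _ ≤ 2 * ((((s : ℝ) * 3 ^ k) ^ (-τ) / 2) * (P : ℝ) ^ (-(k * τ))) := by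
          apply mul_le_mul_of_nonneg_left _ (by norm_num)
          exact mul_le_mul_of_nonneg_right hexp (by positivity)
      _ = ((s : ℝ) * 3 ^ k) ^ (-τ) * ((P : ℝ) ^ (k : ℝ)) ^ (-τ) := by
          rw [← Real.rpow_mul hPp.le]
          have : (k : ℝ) * -τ = -(k * τ) := by ring
          rw [this]
          ring
      _ = (s * 3 ^ k * (P : ℝ) ^ (k : ℝ)) ^ (-τ) := by
          rw [← Real.mul_rpow (by positivity) (by positivity)]
      _ ≤ N ^ (-τ) := Real.rpow_le_rpow_of_nonpos hNp h1 (by linarith)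
  have hres := hcore P ((le_max_left _ _).trans hmax) θ hcube hX Z hZ1 hZ2 δ hδ3 hδ2
  rw [hNZ] at hres
  set g : (Fin s → ℕ) → (Fin s → ℕ) := fun n i => P + 1 + n i with hg
  have hginj : Function.Injective g := by
    intro n n' h
    funext i
    have := congrFun h i
    simp only [hg] at this
    omega
  refine ⟨((BX s P).filter fun n => |YY s k P θ n - N| < δ).image g, ?_, ?_⟩
  · intro x hx
    rw [mem_image] at hx
    obtain ⟨n, hn, rfl⟩ := hx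
    rw [mem_filter] at hn
    refine ⟨fun i => ?_, hn.2⟩
    have := (le_max_right P0 L).trans hmax
    show L ≤ P + 1 + n i
    omega
  · rw [card_image_of_injective _ hginj]
    refine le_trans ?_ hres
    have hδ0 : 0 < δ := lt_of_lt_of_le (by positivity) hδ3
    have hsk : 0 < (s : ℝ) - k := by linarith
    have h1 : (Z / 3) ^ ((s : ℝ) - k) ≤ (P : ℝ) ^ ((s : ℝ) - k) :=
      Real.rpow_le_rpow (by positivity) (by linarith) hsk.le
    have h2 : (Z / 3) ^ ((s : ℝ) - k) = (1 / 3 : ℝ) ^ ((s : ℝ) - k) * (1 / (s : ℝ)) ^ ((s : ℝ) / k - 1) *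
        N ^ ((s : ℝ) / k - 1) := by
      have h3 : Z / 3 = 1 / 3 * Z := by ring
      rw [h3, Real.mul_rpow (by norm_num) hZ0, mul_assoc]
      congr 1
      rw [← Real.mul_rpow (by positivity) hNp.le, hZ, ← Real.rpow_mul (by positivity)]
      have h4 : N / s = 1 / s * N := by ring
      rw [h4]
      congr 1
      field_simp
    calc cc * δ * N ^ ((s : ℝ) / k - 1) = c * δ * ((1 / 3 : ℝ) ^ ((s : ℝ) - k) * (1 / (s : ℝ)) ^ ((s : ℝ) / k - 1) *
        N ^ ((s : ℝ) / k - 1)) := by rw [hcc]; ring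
      _ = c * δ * (Z / 3) ^ ((s : ℝ) - k) := by rw [h2]
      _ ≤ _ := mul_le_mul_of_nonneg_left h1 (by positivity)

/-- **Waring's problem with shifts: `2k+1` powers suffice for almost all shifts.** -/
theorem main (k s : ℕ) (hk : 2 ≤ k) (hs : 2 * k + 1 ≤ s) (τ : ℝ) (hτ0 : 0 ≤ τ)
    (hτ : τ < (s : ℝ) / (2 * k) - 1) :
    ∃ c : ℝ, 0 < c ∧ ∀ᵐ θ : Fin s → ℝ, ∀ᶠ N : ℝ in Filter.atTop,
      ∀ δ : ℝ, N ^ (-τ) ≤ δ → δ ≤ 1 → ∃ A : Finset (Fin s → ℕ),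
        (∀ x ∈ A, (∀ i, 0 < (x i : ℝ) + θ i) ∧ |∑ i, ((x i : ℝ) + θ i) ^ k - N| < δ) ∧
          c * δ * N ^ ((s : ℝ) / k - 1) ≤ (A.card : ℝ) := by
  obtain ⟨c, hc, hcube⟩ := cube k s hk hs τ hτ0 hτ
  refine ⟨c, hc, ?_⟩
  have h1 : ∀ m : Fin s → ℤ, ∀ᵐ θ : Fin s → ℝ, (∀ i, (θ - fun i => (m i : ℝ)) i ∈ Set.Ioc (0 : ℝ) 1) →
      ∀ L : ℕ, ∀ᶠ N : ℝ in Filter.atTop,
      ∀ δ : ℝ, N ^ (-τ) ≤ δ → δ ≤ 1 → ∃ A : Finset (Fin s → ℕ),
        (∀ x ∈ A, (∀ i, L ≤ x i) ∧ |∑ i, ((x i : ℝ) + (θ - fun i => (m i : ℝ)) i) ^ k - N| < δ) ∧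
          c * δ * N ^ ((s : ℝ) / k - 1) ≤ (A.card : ℝ) := fun m =>
    (measurePreserving_sub_right (volume : Measure (Fin s → ℝ)) (fun i => (m i : ℝ))).quasiMeasurePreserving.ae hcube
  rw [← ae_all_iff] at h1
  filter_upwards [h1] with θ hθ
  set m : Fin s → ℤ := fun i => ⌈θ i⌉ - 1 with hm
  have hmem : ∀ i, (θ - fun i => (m i : ℝ)) i ∈ Set.Ioc (0 : ℝ) 1 := by
    intro i
    simp only [Pi.sub_apply, hm]
    have h2 := Int.le_ceil (θ i)
    have h3 := Int.ceil_lt_add_one (θ i)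
    push_cast
    constructor <;> linarith
  set L : ℕ := ∑ i, (m i).natAbs with hL
  filter_upwards [hθ m hmem L] with N hN δ hδ1 hδ2
  obtain ⟨A, hA1, hA2⟩ := hN δ hδ1 hδ2
  have hge : ∀ x ∈ A, ∀ i, 0 ≤ (x i : ℤ) - m i := by
    intro x hx i
    have h2 := (hA1 x hx).1 i
    have h3 : (m i).natAbs ≤ L := by
      rw [hL]
      exact single_le_sum (f := fun i => (m i).natAbs) (fun _ _ => Nat.zero_le _) (mem_univ i)
    have h4 : m i ≤ (m i).natAbs := Int.le_natAbs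
    omega
  refine ⟨A.image fun x i => ((x i : ℤ) - m i).toNat, ?_, ?_⟩
  · intro y hy
    rw [mem_image] at hy
    obtain ⟨x, hx, rfl⟩ := hy
    have h2 := (hA1 x hx).2
    have h4 : ∀ i, ((((x i : ℤ) - m i).toNat : ℕ) : ℝ) + θ i = (x i : ℝ) + (θ - fun i => (m i : ℝ)) i := by
      intro i
      have h5 : ((((x i : ℤ) - m i).toNat : ℕ) : ℤ) = (x i : ℤ) - m i := Int.toNat_of_nonneg (hge x hx i)
      have h6 : (((((x i : ℤ) - m i).toNat : ℕ) : ℤ) : ℝ) = (((x i : ℤ) - m i : ℤ) : ℝ) := by rw [h5]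
      push_cast at h6
      rw [h6, Pi.sub_apply]
      ring
    refine ⟨fun i => ?_, ?_⟩
    · rw [h4 i]
      have := (hmem i).1
      positivity
    · have h3 : ∑ i, (((((x i : ℤ) - m i).toNat : ℕ) : ℝ) + θ i) ^ k =
          ∑ i, ((x i : ℝ) + (θ - fun i => (m i : ℝ)) i) ^ k := by
        apply sum_congr rfl
        intro i _
        rw [h4 i]
      rw [h3]
      exact h2
  · rw [card_image_of_injOn]
    · exact hA2
    · intro x hx x' hx' h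
      funext i
      have h2 := congrFun h i
      simp only at h2
      have h3 := hge x hx i
      have h4 := hge x' hx' i
      omega

/-- the integer parts: every large integer is `⌊(x₁+θ₁)^k + … + (x_s+θ_s)^k⌋` -/
theorem floor_form (k s : ℕ) (hk : 2 ≤ k) (hs : 2 * k + 1 ≤ s) :
    ∀ᵐ θ : Fin s → ℝ, ∀ᶠ n : ℕ in Filter.atTop, ∃ x : Fin s → ℕ,
      (∀ i, 0 < (x i : ℝ) + θ i) ∧ ⌊∑ i, ((x i : ℝ) + θ i) ^ k⌋ = (n : ℤ) := by
  have hk0 : (2 : ℝ) ≤ k := by exact_mod_cast hk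
  have hs0 : (2 * (k : ℝ) + 1) ≤ s := by exact_mod_cast hs
  set τ : ℝ := ((s : ℝ) / (2 * k) - 1) / 2 with hτ
  have h0 : 0 < (s : ℝ) / (2 * k) - 1 := by
    rw [sub_pos, one_lt_div (by positivity)]
    linarith
  obtain ⟨c, hc, h⟩ := main k s hk hs τ (by rw [hτ]; linarith) (by rw [hτ]; linarith)
  filter_upwards [h] with θ hθ
  have h1 : Filter.Tendsto (fun n : ℕ => (n : ℝ) + 1 / 2) Filter.atTop Filter.atTop :=
    Filter.tendsto_atTop_add_const_right _ _ tendsto_natCast_atTop_atTop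
  have h2 := h1.eventually hθ
  have hτp : 0 < τ := by rw [hτ]; linarith
  have h3 : ∀ᶠ n : ℕ in Filter.atTop, ((n : ℝ) + 1 / 2) ^ (-τ) ≤ 1 / 2 :=
    ((tendsto_rpow_neg_atTop hτp).comp h1).eventually_le_const (by norm_num)
  filter_upwards [h2, h3] with n hn hn3
  obtain ⟨A, hA1, hA2⟩ := hn (1 / 2) hn3 (by norm_num)
  have hne : A.Nonempty := by
    rw [← card_pos]
    have : (0 : ℝ) < A.card := lt_of_lt_of_le (by positivity) hA2
    exact_mod_cast this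
  obtain ⟨x, hx⟩ := hne
  refine ⟨x, (hA1 x hx).1, ?_⟩
  have h4 := abs_lt.1 (hA1 x hx).2
  rw [Int.floor_eq_iff]
  push_cast
  constructor <;> linarith [h4.1, h4.2]

end Pool.Agent.U518.WS
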