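import Mathlib
import Pool.Agent.U518.WS.G

/-! Waring's problem with shifts, part I: the square mean of the minor arcs. -/

set_option autoImplicit false

open Finset MeasureTheory Complex

namespace Pool.Agent.U518.WS

theorem sq_mean_le (k : ℕ) (hk : 2 ≤ k) (P : ℕ) (hP : 1 ≤ P) (β : ℝ) (hβ : β ≠ 0) :
    ∫ t, ‖FF k P β t‖ ^ 2 ∂m1 ≤ 3 * P + (1 + Real.log (3 * P)) / (|β| * (P : ℝ) ^ (k - 2)) := by
  have h := meansq k hk P hP β hβ
  rw [intervalIntegral.integral_of_le zero_le_one] at h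
  exact h

/-- the average of the product of the squares over the shifts -/
theorem lint_prod_sq (s k P : ℕ) (β w : ℝ) (hw : 0 ≤ w) :
    ∫⁻ θ, ENNReal.ofReal (w * ∏ i, ‖FF k P β (θ i)‖ ^ 2) ∂(ms s) =
      ENNReal.ofReal (w * (∫ t, ‖FF k P β t‖ ^ 2 ∂m1) ^ s) := by
  have hc : Continuous fun θ : Fin s → ℝ => w * ∏ i, ‖FF k P β (θ i)‖ ^ 2 := by
    apply continuous_const.mul
    apply continuous_finsetProd
    intro i _
    exact (((FF_cont_t k P β).norm).comp (continuous_apply i)).pow 2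
  have hint : Integrable (fun θ : Fin s → ℝ => w * ∏ i, ‖FF k P β (θ i)‖ ^ 2) (ms s) := by
    apply Integrable.of_bound hc.aestronglyMeasurable (w * ((3 * P) ^ 2) ^ s)
    refine Filter.Eventually.of_forall fun θ => ?_
    rw [Real.norm_eq_abs, abs_of_nonneg (by positivity)]
    apply mul_le_mul_of_nonneg_left _ hw
    calc ∏ i, ‖FF k P β (θ i)‖ ^ 2 ≤ ∏ _i : Fin s, ((3 * (P : ℝ)) ^ 2) :=
          prod_le_prod (fun i _ => by positivity) fun i _ =>
            pow_le_pow_left₀ (norm_nonneg _) (FF_norm_le k P β (θ i)) 2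
      _ = ((3 * P) ^ 2) ^ s := by simp
  rw [← ofReal_integral_eq_lintegral_ofReal hint (Filter.Eventually.of_forall fun θ => by positivity)]
  congr 1
  rw [integral_const_mul]
  congr 1
  have h := integral_fintype_prod_eq_pow (ι := Fin s) (μ := m1) (fun t : ℝ => ‖FF k P β t‖ ^ 2)
  rw [Fintype.card_fin] at h
  exact h

/-- the square integral over the minor arcs -/
noncomputable def Z2 (s k P : ℕ) (ρ T : ℝ) (θ : Fin s → ℝ) : ENNReal :=
  ∫⁻ β in {β : ℝ | T ≤ |β|}, ENNReal.ofReal (Real.exp (-Real.pi * (ρ * β) ^ 2) * ∏ i, ‖FF k P β (θ i)‖ ^ 2)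

theorem cont_Z2 (s k P : ℕ) (ρ : ℝ) : Continuous fun p : (Fin s → ℝ) × ℝ =>
    ENNReal.ofReal (Real.exp (-Real.pi * (ρ * p.2) ^ 2) * ∏ i, ‖FF k P p.2 (p.1 i)‖ ^ 2) := by
  apply ENNReal.continuous_ofReal.comp
  apply Continuous.mul
  · fun_prop
  · apply continuous_finsetProd
    intro i _
    have h1 : Continuous fun p : (Fin s → ℝ) × ℝ => (p.2, p.1 i) :=
      continuous_snd.prodMk ((continuous_apply i).comp continuous_fst)
    exact (((FF_continuous k P).comp h1).norm).pow 2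

theorem Z2_measurable (s k P : ℕ) (ρ T : ℝ) : Measurable (Z2 s k P ρ T) :=
  (cont_Z2 s k P ρ).measurable.lintegral_prod_right'

theorem Z2_mean (s k P : ℕ) (ρ T : ℝ) : ∫⁻ θ, Z2 s k P ρ T θ ∂(ms s) =
    ∫⁻ β in {β : ℝ | T ≤ |β|},
      ENNReal.ofReal (Real.exp (-Real.pi * (ρ * β) ^ 2) * (∫ t, ‖FF k P β t‖ ^ 2 ∂m1) ^ s) := by
  unfold Z2
  rw [lintegral_lintegral_swap (cont_Z2 s k P ρ).measurable.aemeasurable]
  apply lintegral_congr
  intro β
  exact lint_prod_sq s k P β _ (Real.exp_pos _).le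

theorem add_pow_le2 (a b : ℝ) (ha : 0 ≤ a) (hb : 0 ≤ b) (s : ℕ) : (a + b) ^ s ≤ 2 ^ s * (a ^ s + b ^ s) := by
  rcases le_total a b with h | h
  · calc (a + b) ^ s ≤ (2 * b) ^ s := pow_le_pow_left₀ (by linarith) (by linarith) s
      _ = 2 ^ s * b ^ s := mul_pow _ _ _
      _ ≤ _ := mul_le_mul_of_nonneg_left (by linarith [pow_nonneg ha s]) (by positivity)
  · calc (a + b) ^ s ≤ (2 * a) ^ s := pow_le_pow_left₀ (by linarith) (by linarith) s
      _ = 2 ^ s * a ^ s := mul_pow _ _ _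
      _ ≤ _ := mul_le_mul_of_nonneg_left (by linarith [pow_nonneg hb s]) (by positivity)

theorem inv_pow_abs (T β : ℝ) (hT : 0 < T) (hβ : T ≤ |β|) (s : ℕ) (hs : 2 ≤ s) :
    (1 / |β|) ^ s ≤ (1 / T) ^ s * (2 * (1 + (T⁻¹ * β) ^ 2)⁻¹) := by
  have hb : 0 < |β| := lt_of_lt_of_le hT hβ
  have h1 : 1 / |β| ≤ 1 / T := one_div_le_one_div_of_le hT hβ
  obtain ⟨j, rfl⟩ : ∃ j, s = j + 2 := ⟨s - 2, by omega⟩
  have h2 : (1 / |β|) ^ j ≤ (1 / T) ^ j := pow_le_pow_left₀ (by positivity) h1 j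
  have h3 : (1 / |β|) ^ 2 ≤ (1 / T) ^ 2 * (2 * (1 + (T⁻¹ * β) ^ 2)⁻¹) := by
    have h4 : (T⁻¹ * β) ^ 2 = |β| ^ 2 / T ^ 2 := by
      rw [mul_pow, sq_abs, inv_pow]
      ring
    rw [h4]
    have h5 : T ^ 2 ≤ |β| ^ 2 := pow_le_pow_left₀ hT.le hβ 2
    have h6 : (1 + |β| ^ 2 / T ^ 2)⁻¹ = T ^ 2 / (T ^ 2 + |β| ^ 2) := by
      field_simp
    rw [h6]
    have h7 : (1 / T) ^ 2 * (2 * (T ^ 2 / (T ^ 2 + |β| ^ 2))) = 2 / (T ^ 2 + |β| ^ 2) := by
      field_simp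
    rw [h7, one_div, inv_pow, inv_eq_one_div, div_le_div_iff₀ (by positivity) (by positivity)]
    linarith
  calc (1 / |β|) ^ (j + 2) = (1 / |β|) ^ j * (1 / |β|) ^ 2 := pow_add _ _ _
    _ ≤ (1 / T) ^ j * ((1 / T) ^ 2 * (2 * (1 + (T⁻¹ * β) ^ 2)⁻¹)) :=
        mul_le_mul h2 h3 (by positivity) (by positivity)
    _ = _ := by rw [pow_add]; ring

/-- the mean of `Z2` -/
theorem EZ2 (s k : ℕ) (hk : 2 ≤ k) (hs : 2 ≤ s) (P : ℕ) (hP : 1 ≤ P) (ρ T : ℝ) (hρ : 0 < ρ) (hT : 0 < T) :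
    ∫⁻ θ, Z2 s k P ρ T θ ∂(ms s) ≤
      ENNReal.ofReal ((6 * P) ^ s / ρ +
        2 ^ s * ((1 + Real.log (3 * P)) / (P : ℝ) ^ (k - 2)) ^ s * (2 * Real.pi * (1 / T) ^ s * T)) := by
  have hP0 : (1 : ℝ) ≤ P := by exact_mod_cast hP
  have hPp : (0 : ℝ) < P := by linarith
  have hpi := Real.pi_pos
  have hL : 0 ≤ Real.log (3 * (P : ℝ)) := Real.log_nonneg (by linarith)
  set b : ℝ := (1 + Real.log (3 * P)) / (P : ℝ) ^ (k - 2) with hb
  have hb0 : 0 ≤ b := by positivity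
  rw [Z2_mean]
  set A1 : ℝ := 2 ^ s * (3 * (P : ℝ)) ^ s with hA1
  set A2 : ℝ := 2 ^ s * b ^ s * (2 * (1 / T) ^ s) with hA2
  have hpt : ∀ β ∈ {β : ℝ | T ≤ |β|},
      ENNReal.ofReal (Real.exp (-Real.pi * (ρ * β) ^ 2) * (∫ t, ‖FF k P β t‖ ^ 2 ∂m1) ^ s) ≤
      ENNReal.ofReal (Real.exp (-(Real.pi * ρ ^ 2) * β ^ 2) * A1) +
        ENNReal.ofReal (A2 * (1 + (T⁻¹ * β) ^ 2)⁻¹) := by
    intro β hβ
    have hβ1 : T ≤ |β| := hβ
    have hβp : 0 < |β| := lt_of_lt_of_le hT hβ1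
    have hβ0 : β ≠ 0 := abs_pos.1 hβp
    have hF0 : 0 ≤ ∫ t, ‖FF k P β t‖ ^ 2 ∂m1 := integral_nonneg fun t => by positivity
    rw [← ENNReal.ofReal_add (by positivity) (by positivity)]
    apply ENNReal.ofReal_le_ofReal
    have hexp : Real.exp (-Real.pi * (ρ * β) ^ 2) = Real.exp (-(Real.pi * ρ ^ 2) * β ^ 2) := by
      congr 1; ring
    have h1 := sq_mean_le k hk P hP β hβ0
    have h2 : (1 + Real.log (3 * P)) / (|β| * (P : ℝ) ^ (k - 2)) = b * (1 / |β|) := by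
      rw [hb]; field_simp
    rw [h2] at h1
    have h3 : (∫ t, ‖FF k P β t‖ ^ 2 ∂m1) ^ s ≤ 2 ^ s * ((3 * (P : ℝ)) ^ s + (b * (1 / |β|)) ^ s) :=
      (pow_le_pow_left₀ hF0 h1 s).trans (add_pow_le2 _ _ (by positivity) (by positivity) s)
    have h4 : Real.exp (-Real.pi * (ρ * β) ^ 2) ≤ 1 := by
      rw [Real.exp_le_one_iff]
      have : 0 ≤ Real.pi * (ρ * β) ^ 2 := by positivity
      linarith
    have h5 := inv_pow_abs T β hT hβ1 s hs
    calc Real.exp (-Real.pi * (ρ * β) ^ 2) * (∫ t, ‖FF k P β t‖ ^ 2 ∂m1) ^ s ≤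
          Real.exp (-Real.pi * (ρ * β) ^ 2) * (2 ^ s * ((3 * (P : ℝ)) ^ s + (b * (1 / |β|)) ^ s)) :=
          mul_le_mul_of_nonneg_left h3 (Real.exp_pos _).le
      _ = Real.exp (-Real.pi * (ρ * β) ^ 2) * A1 +
          Real.exp (-Real.pi * (ρ * β) ^ 2) * (2 ^ s * b ^ s * (1 / |β|) ^ s) := by
          rw [hA1, mul_pow b]; ring
      _ ≤ Real.exp (-(Real.pi * ρ ^ 2) * β ^ 2) * A1 + A2 * (1 + (T⁻¹ * β) ^ 2)⁻¹ := by
          rw [hexp]
          apply add_le_add le_rfl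
          rw [← hexp]
          calc Real.exp (-Real.pi * (ρ * β) ^ 2) * (2 ^ s * b ^ s * (1 / |β|) ^ s) ≤
                1 * (2 ^ s * b ^ s * (1 / |β|) ^ s) := mul_le_mul_of_nonneg_right h4 (by positivity)
            _ ≤ 2 ^ s * b ^ s * ((1 / T) ^ s * (2 * (1 + (T⁻¹ * β) ^ 2)⁻¹)) := by
                rw [one_mul]
                exact mul_le_mul_of_nonneg_left h5 (by positivity)
            _ = _ := by rw [hA2]; ring
  have hm1 : Measurable fun β : ℝ => ENNReal.ofReal (Real.exp (-(Real.pi * ρ ^ 2) * β ^ 2) * A1) := by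
    fun_prop
  calc _ ≤ ∫⁻ β in {β : ℝ | T ≤ |β|}, (ENNReal.ofReal (Real.exp (-(Real.pi * ρ ^ 2) * β ^ 2) * A1) +
        ENNReal.ofReal (A2 * (1 + (T⁻¹ * β) ^ 2)⁻¹)) :=
        setLIntegral_mono' (meas_T T) hpt
    _ ≤ ∫⁻ β, (ENNReal.ofReal (Real.exp (-(Real.pi * ρ ^ 2) * β ^ 2) * A1) +
        ENNReal.ofReal (A2 * (1 + (T⁻¹ * β) ^ 2)⁻¹)) := setLIntegral_le_lintegral _ _
    _ = (∫⁻ β, ENNReal.ofReal (Real.exp (-(Real.pi * ρ ^ 2) * β ^ 2) * A1)) +
        ∫⁻ β, ENNReal.ofReal (A2 * (1 + (T⁻¹ * β) ^ 2)⁻¹) := by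
        rw [lintegral_add_left hm1]
    _ = ENNReal.ofReal (A1 / ρ) + ENNReal.ofReal (A2 * (T * Real.pi)) := by
        congr 1
        · have hb : 0 < Real.pi * ρ ^ 2 := by positivity
          rw [← ofReal_integral_eq_lintegral_ofReal ((integrable_exp_neg_mul_sq hb).mul_const A1)
            (Filter.Eventually.of_forall fun β => by positivity)]
          congr 1
          rw [integral_mul_const, integral_gaussian]
          have h5 : Real.pi / (Real.pi * ρ ^ 2) = (1 / ρ) ^ 2 := by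
            field_simp
          rw [h5, Real.sqrt_sq (by positivity)]
          ring
        · have hi : Integrable fun β : ℝ => A2 * (1 + (T⁻¹ * β) ^ 2)⁻¹ := by
            have := integrable_inv_one_add_sq.comp_mul_left' (inv_ne_zero hT.ne')
            exact this.const_mul A2
          rw [← ofReal_integral_eq_lintegral_ofReal hi (Filter.Eventually.of_forall fun β => by positivity)]
          congr 1
          rw [integral_const_mul]
          congr 1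
          have h6 := Measure.integral_comp_mul_left (fun x : ℝ => (1 + x ^ 2)⁻¹) T⁻¹
          rw [h6, integral_univ_inv_one_add_sq, inv_inv, abs_of_pos hT, smul_eq_mul]
    _ = _ := by
        rw [← ENNReal.ofReal_add (by positivity) (by positivity)]
        congr 1
        rw [hA1, hA2, ← mul_pow]
        ring

end Pool.Agent.U518.WS
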