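import Mathlib
import Pool.Agent.U518.WS.I

/-! Waring's problem with shifts, part J: almost sure bound for the square integral. -/

set_option autoImplicit false

open Finset MeasureTheory Complex

namespace Pool.Agent.U518.WS

/-- **Borel–Cantelli along the powers of two.** -/
theorem bc {Ω : Type*} [MeasurableSpace Ω] (μ : Measure Ω) (X : ℕ → Ω → ENNReal) (hX : ∀ ν, Measurable (X ν))
    (C a η : ℝ) (hC : 0 < C) (hη : 0 < η)
    (h : ∀ ν, ∫⁻ ω, X ν ω ∂μ ≤ ENNReal.ofReal (C * ((2 ^ ν : ℕ) : ℝ) ^ a)) :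
    ∀ᵐ ω ∂μ, ∀ᶠ ν : ℕ in Filter.atTop, X ν ω ≤ ENNReal.ofReal (((2 ^ ν : ℕ) : ℝ) ^ (a + η)) := by
  set P : ℕ → ℝ := fun ν => ((2 ^ ν : ℕ) : ℝ) with hPdef
  have hPp : ∀ ν, 0 < P ν := fun ν => by rw [hPdef]; positivity
  set Y : ℕ → Ω → ENNReal := fun ν ω => ENNReal.ofReal ((P ν) ^ (-(a + η))) * X ν ω with hY
  have hmeas : ∀ ν, Measurable (Y ν) := fun ν => (hX ν).const_mul _
  have hE : ∀ ν, ∫⁻ ω, Y ν ω ∂μ ≤ ENNReal.ofReal (C * ((2 : ℝ) ^ (-η)) ^ ν) := by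
    intro ν
    rw [hY]
    simp only
    rw [lintegral_const_mul _ (hX ν)]
    calc ENNReal.ofReal ((P ν) ^ (-(a + η))) * ∫⁻ ω, X ν ω ∂μ ≤
          ENNReal.ofReal ((P ν) ^ (-(a + η))) * ENNReal.ofReal (C * (P ν) ^ a) :=
          mul_le_mul_right (h ν) _
      _ = ENNReal.ofReal (C * ((2 : ℝ) ^ (-η)) ^ ν) := by
          rw [← ENNReal.ofReal_mul (Real.rpow_pos_of_pos (hPp ν) _).le]
          congr 1
          calc _ = C * ((P ν) ^ (-(a + η)) * (P ν) ^ a) := by ring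
            _ = C * (P ν) ^ (-η) := by
                rw [← Real.rpow_add (hPp ν)]
                congr 2
                ring
            _ = C * ((2 : ℝ) ^ (-η)) ^ ν := by
                rw [hPdef]
                simp only
                push_cast
                rw [← Real.rpow_natCast, ← Real.rpow_natCast, ← Real.rpow_mul (by norm_num),
                  ← Real.rpow_mul (by norm_num)]
                congr 2
                ring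
  have hr1 : (2 : ℝ) ^ (-η) < 1 := by
    rw [Real.rpow_neg (by norm_num)]
    apply inv_lt_one_of_one_lt₀
    exact Real.one_lt_rpow (by norm_num) hη
  have hsum : Summable fun ν : ℕ => C * ((2 : ℝ) ^ (-η)) ^ ν :=
    (summable_geometric_of_lt_one (by positivity) hr1).mul_left C
  have htot : ∫⁻ ω, ∑' ν, Y ν ω ∂μ ≠ ⊤ := by
    rw [lintegral_tsum fun ν => (hmeas ν).aemeasurable]
    have h4 : ∑' ν, ∫⁻ ω, Y ν ω ∂μ ≤ ∑' ν, ENNReal.ofReal (C * ((2 : ℝ) ^ (-η)) ^ ν) :=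
      ENNReal.tsum_le_tsum hE
    refine ne_top_of_le_ne_top ?_ h4
    rw [← ENNReal.ofReal_tsum_of_nonneg (fun ν => by positivity) hsum]
    exact ENNReal.ofReal_ne_top
  have hae : ∀ᵐ ω ∂μ, ∑' ν, Y ν ω < ⊤ := ae_lt_top (Measurable.tsum hmeas) htot
  filter_upwards [hae] with ω hω
  have h5 := ENNReal.tendsto_cofinite_zero_of_tsum_ne_top hω.ne
  rw [Nat.cofinite_eq_atTop] at h5
  have h6 : ∀ᶠ ν in Filter.atTop, Y ν ω < 1 := h5.eventually_lt_const (by norm_num)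
  filter_upwards [h6] with ν hν
  have h7 : ENNReal.ofReal ((P ν) ^ (-(a + η))) * X ν ω ≤ 1 := hν.le
  have h8 : ENNReal.ofReal ((P ν) ^ (a + η)) * ENNReal.ofReal ((P ν) ^ (-(a + η))) = 1 := by
    rw [← ENNReal.ofReal_mul (Real.rpow_pos_of_pos (hPp ν) _).le, ← Real.rpow_add (hPp ν)]
    simp
  calc X ν ω = ENNReal.ofReal ((P ν) ^ (a + η)) *
        (ENNReal.ofReal ((P ν) ^ (-(a + η))) * X ν ω) := by
        rw [← mul_assoc, h8, one_mul]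
    _ ≤ ENNReal.ofReal ((P ν) ^ (a + η)) * 1 := mul_le_mul_right h7 _
    _ = _ := by rw [mul_one]

theorem lam_le' (s : ℕ) (hs : 1 ≤ s) (η : ℝ) (hη : 0 < η) : ∃ C : ℝ, 0 < C ∧ ∀ P : ℕ, 1 ≤ P →
    (1 + Real.log (3 * P)) ^ s ≤ C * (P : ℝ) ^ η := by
  obtain ⟨C, hC, h⟩ := lam_le (2 * s) (by omega) η hη
  refine ⟨C, hC, fun P hP => ?_⟩
  have hP0 : (1 : ℝ) ≤ P := by exact_mod_cast hP
  have hL : 0 ≤ Real.log (3 * (P : ℝ)) := Real.log_nonneg (by linarith)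
  refine le_trans ?_ (h P hP)
  rw [pow_mul, Real.sq_sqrt (by linarith)]
  exact pow_le_pow_left₀ (by linarith) (by linarith) s

/-- the numerical bound for the mean of the square integral with `k + 1` variables -/
theorem EZ2_le (k : ℕ) (hk : 2 ≤ k) (κ η : ℝ) (hκ : 0 ≤ κ) (hη : 0 < η) :
    ∃ C : ℝ, 0 < C ∧ ∀ P : ℕ, 1 ≤ P →
      ∫⁻ θ, Z2 (k + 1) k P ((P : ℝ) ^ (-κ)) ((P : ℝ) ^ (1 / (k : ℝ) - k)) θ ∂(ms (k + 1)) ≤
        ENNReal.ofReal (C * (P : ℝ) ^ ((k : ℝ) + 1 + κ + η)) := by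
  obtain ⟨C, hC, hCb⟩ := lam_le' (k + 1) (by omega) η hη
  have hpi := Real.pi_pos
  refine ⟨6 ^ (k + 1) + 2 ^ (k + 1) * (2 * Real.pi) * C, by positivity, fun P hP => ?_⟩
  have hP0 : (1 : ℝ) ≤ P := by exact_mod_cast hP
  have hPp : (0 : ℝ) < P := by linarith
  have hk0 : (2 : ℝ) ≤ k := by exact_mod_cast hk
  have hL : 0 ≤ Real.log (3 * (P : ℝ)) := Real.log_nonneg (by linarith)
  refine (EZ2 (k + 1) k hk (by omega) P hP _ _ (Real.rpow_pos_of_pos hPp _)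
    (Real.rpow_pos_of_pos hPp _)).trans (ENNReal.ofReal_le_ofReal ?_)
  set Q : ℝ := (P : ℝ) ^ ((k : ℝ) + 1 + κ + η) with hQ
  have hQp : 0 < Q := Real.rpow_pos_of_pos hPp _
  have t1 : (6 * (P : ℝ)) ^ (k + 1) / (P : ℝ) ^ (-κ) ≤ 6 ^ (k + 1) * Q := by
    rw [div_le_iff₀ (Real.rpow_pos_of_pos hPp _), mul_pow, mul_assoc]
    apply mul_le_mul_of_nonneg_left _ (by positivity)
    rw [hQ, ← Real.rpow_add hPp, ← Real.rpow_natCast]
    apply Real.rpow_le_rpow_of_exponent_le hP0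
    push_cast
    linarith
  have hb := hCb P hP
  have hk2 : (P : ℝ) ^ (k - 2) = (P : ℝ) ^ ((k : ℝ) - 2) := by
    rw [← Real.rpow_natCast, Nat.cast_sub hk]
    norm_num
  have e1 : ((1 : ℝ) / (P : ℝ) ^ (k - 2)) ^ (k + 1) *
      ((1 / (P : ℝ) ^ (1 / (k : ℝ) - k)) ^ (k + 1) * (P : ℝ) ^ (1 / (k : ℝ) - k)) = (P : ℝ) ^ ((k : ℝ) + 1) := by
    rw [hk2, one_div, one_div, ← Real.rpow_neg hPp.le, ← Real.rpow_neg hPp.le, ← Real.rpow_natCast,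
      ← Real.rpow_natCast, ← Real.rpow_mul hPp.le, ← Real.rpow_mul hPp.le, ← Real.rpow_add hPp,
      ← Real.rpow_add hPp]
    congr 1
    push_cast
    field_simp
    ring
  have t2 : 2 ^ (k + 1) * ((1 + Real.log (3 * P)) / (P : ℝ) ^ (k - 2)) ^ (k + 1) *
      (2 * Real.pi * (1 / (P : ℝ) ^ (1 / (k : ℝ) - k)) ^ (k + 1) * (P : ℝ) ^ (1 / (k : ℝ) - k)) ≤
      2 ^ (k + 1) * (2 * Real.pi) * C * Q := by
    calc _ = 2 ^ (k + 1) * (2 * Real.pi) * ((1 + Real.log (3 * P)) ^ (k + 1) *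
          (((1 : ℝ) / (P : ℝ) ^ (k - 2)) ^ (k + 1) *
          ((1 / (P : ℝ) ^ (1 / (k : ℝ) - k)) ^ (k + 1) * (P : ℝ) ^ (1 / (k : ℝ) - k)))) := by
          rw [div_eq_mul_one_div (1 + Real.log (3 * (P : ℝ))), mul_pow (1 + Real.log (3 * (P : ℝ)))]
          ring
      _ = 2 ^ (k + 1) * (2 * Real.pi) * ((1 + Real.log (3 * P)) ^ (k + 1) * (P : ℝ) ^ ((k : ℝ) + 1)) := by
          rw [e1]
      _ ≤ 2 ^ (k + 1) * (2 * Real.pi) * ((C * (P : ℝ) ^ η) * (P : ℝ) ^ ((k : ℝ) + 1)) := by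
          apply mul_le_mul_of_nonneg_left _ (by positivity)
          exact mul_le_mul_of_nonneg_right hb (by positivity)
      _ = 2 ^ (k + 1) * (2 * Real.pi) * C * (P : ℝ) ^ (η + ((k : ℝ) + 1)) := by
          rw [Real.rpow_add hPp η]
          ring
      _ ≤ _ := by
          apply mul_le_mul_of_nonneg_left _ (by positivity)
          exact Real.rpow_le_rpow_of_exponent_le hP0 (by linarith)
  linarith

theorem ae_small2 (k : ℕ) (hk : 2 ≤ k) (κ η : ℝ) (hκ : 0 ≤ κ) (hη : 0 < η) :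
    ∀ᵐ θ ∂(ms (k + 1)), ∀ᶠ ν : ℕ in Filter.atTop,
      Z2 (k + 1) k (2 ^ ν) (((2 ^ ν : ℕ) : ℝ) ^ (-κ)) (((2 ^ ν : ℕ) : ℝ) ^ (1 / (k : ℝ) - k)) θ ≤
        ENNReal.ofReal (((2 ^ ν : ℕ) : ℝ) ^ ((k : ℝ) + 1 + κ + η + η)) := by
  obtain ⟨C, hC, h⟩ := EZ2_le k hk κ η hκ hη
  exact bc (ms (k + 1)) (fun ν => Z2 (k + 1) k (2 ^ ν) (((2 ^ ν : ℕ) : ℝ) ^ (-κ))
    (((2 ^ ν : ℕ) : ℝ) ^ (1 / (k : ℝ) - k))) (fun ν => Z2_measurable _ _ _ _ _) C _ η hC hη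
    (fun ν => h (2 ^ ν) Nat.one_le_two_pow)

end Pool.Agent.U518.WS
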