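import Mathlib
import Pool.Agent.U518.WS.J

/-! Waring's problem with shifts, part K: Plancherel's formula for the difference of the smoothed counts. -/

set_option autoImplicit false

open Finset MeasureTheory Complex

namespace Pool.Agent.U518.WS

theorem gg_cont (a : ℝ) : Continuous (gg a) := by
  unfold gg
  fun_prop

theorem gg_integrable (a y : ℝ) (ha : 0 < a) : Integrable fun N : ℝ => gg a (y - N) := by
  have hpi := Real.pi_pos
  have hb : 0 < Real.pi / a ^ 2 := by positivity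
  have h1 : Integrable fun x : ℝ => Real.exp (-(Real.pi / a ^ 2) * x ^ 2) := integrable_exp_neg_mul_sq hb
  have h2 := (h1.comp_sub_left y).const_mul (1 / a)
  refine h2.congr (Filter.Eventually.of_forall fun N => ?_)
  unfold gg
  simp only
  congr 2
  field_simp

theorem gg_inv0 (a β : ℝ) (ha : 0 < a) :
    ∫ u : ℝ, ((gg a u : ℝ) : ℂ) * ee (β * u) = ((Real.exp (-Real.pi * (a * β) ^ 2) : ℝ) : ℂ) := by
  have h1 := gg_fourier (1 / a) β (by positivity)
  have h2 : gg (1 / a) β = a * Real.exp (-Real.pi * (a * β) ^ 2) := by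
    unfold gg
    rw [one_div_one_div]
    congr 3
    field_simp
  have h3 : ∀ u : ℝ, ((gg a u : ℝ) : ℂ) * ee (β * u) =
      ((1 / a : ℝ) : ℂ) * (((Real.exp (-Real.pi * (1 / a * u) ^ 2) : ℝ) : ℂ) * ee (u * β)) := by
    intro u
    unfold gg
    rw [← mul_assoc, ← Complex.ofReal_mul, mul_comm β u]
    congr 4
    ring
  rw [integral_congr_ae (Filter.Eventually.of_forall h3), integral_const_mul, h1, h2,
    ← Complex.ofReal_mul]
  congr 1
  field_simp

theorem gg_inv (a y β : ℝ) (ha : 0 < a) :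
    ∫ N : ℝ, ((gg a (y - N) : ℝ) : ℂ) * ee (-(β * N)) =
      ((Real.exp (-Real.pi * (a * β) ^ 2) : ℝ) : ℂ) * ee (-(β * y)) := by
  have h1 := integral_sub_left_eq_self (fun u : ℝ => ((gg a u : ℝ) : ℂ) * ee (-(β * (y - u)))) volume y
  have h2 : ∀ N : ℝ, ((gg a (y - N) : ℝ) : ℂ) * ee (-(β * (y - (y - N)))) =
      ((gg a (y - N) : ℝ) : ℂ) * ee (-(β * N)) := by
    intro N
    congr 2
    ring
  rw [integral_congr_ae (Filter.Eventually.of_forall h2)] at h1
  rw [h1]
  have h3 : ∀ u : ℝ, ((gg a u : ℝ) : ℂ) * ee (-(β * (y - u))) =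
      (((gg a u : ℝ) : ℂ) * ee (β * u)) * ee (-(β * y)) := by
    intro u
    rw [mul_assoc, ← ee_add]
    congr 2
    ring
  rw [integral_congr_ae (Filter.Eventually.of_forall h3), integral_mul_const, gg_inv0 a β ha]

/-- the Fourier side -/
noncomputable def KK (s k P : ℕ) (θ : Fin s → ℝ) (ρ W β : ℝ) : ℂ :=
  ((Real.exp (-Real.pi * (ρ * β) ^ 2) - Real.exp (-Real.pi * (W * β) ^ 2) : ℝ) : ℂ) * ∏ i, FF k P β (θ i)

/-- the difference of the smoothed counts -/
noncomputable def DD (s k P : ℕ) (θ : Fin s → ℝ) (ρ W N : ℝ) : ℝ :=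
  ∑ n ∈ BX s P, gg ρ (YY s k P θ n - N) - ∑ n ∈ BX s P, gg W (YY s k P θ n - N)

theorem DD_cont (s k P : ℕ) (θ : Fin s → ℝ) (ρ W : ℝ) : Continuous (DD s k P θ ρ W) := by
  unfold DD
  apply Continuous.sub
  · apply continuous_finsetSum
    intro n _
    exact (gg_cont ρ).comp (by fun_prop)
  · apply continuous_finsetSum
    intro n _
    exact (gg_cont W).comp (by fun_prop)

theorem DD_int (s k P : ℕ) (θ : Fin s → ℝ) (ρ W : ℝ) (hρ : 0 < ρ) (hW : 0 < W) :
    Integrable (DD s k P θ ρ W) := by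
  unfold DD
  exact (integrable_finsetSum _ fun n _ => gg_integrable ρ _ hρ).sub
    (integrable_finsetSum _ fun n _ => gg_integrable W _ hW)

theorem FF_cont_β (k P : ℕ) (t : ℝ) : Continuous fun β => FF k P β t := by
  have h := FF_continuous k P
  exact h.comp (Continuous.prodMk continuous_id continuous_const)

theorem KK_cont (s k P : ℕ) (θ : Fin s → ℝ) (ρ W : ℝ) : Continuous (KK s k P θ ρ W) := by
  unfold KK
  apply Continuous.mul
  · fun_prop
  · apply continuous_finsetProd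
    intro i _
    exact FF_cont_β k P (θ i)

theorem DD_eq (s k P : ℕ) (θ : Fin s → ℝ) (ρ W N : ℝ) (hρ : 0 < ρ) (hW : 0 < W) :
    ((DD s k P θ ρ W N : ℝ) : ℂ) = ∫ β, KK s k P θ ρ W β * ee (-(β * N)) := by
  unfold DD
  rw [Complex.ofReal_sub, count_fourier s k P θ ρ N hρ, count_fourier s k P θ W N hW,
    ← integral_sub (count_integrable s k P θ ρ N hρ) (count_integrable s k P θ W N hW)]
  apply integral_congr_ae
  refine Filter.Eventually.of_forall fun β => ?_
  simp only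
  unfold KK
  push_cast
  ring

theorem KK_int (s k P : ℕ) (θ : Fin s → ℝ) (ρ W : ℝ) (hρ : 0 < ρ) (hW : 0 < W) :
    Integrable (KK s k P θ ρ W) := by
  have h := (count_integrable s k P θ ρ 0 hρ).sub (count_integrable s k P θ W 0 hW)
  refine h.congr (Filter.Eventually.of_forall fun β => ?_)
  simp only [Pi.sub_apply]
  unfold KK
  rw [mul_zero, neg_zero, ee_zero, one_mul]
  push_cast
  ring

theorem DD_hat (s k P : ℕ) (θ : Fin s → ℝ) (ρ W β : ℝ) (hρ : 0 < ρ) (hW : 0 < W) :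
    ∫ N : ℝ, ((DD s k P θ ρ W N : ℝ) : ℂ) * ee (-(β * N)) = (starRingEnd ℂ) (KK s k P θ ρ W β) := by
  have hi : ∀ a : ℝ, 0 < a → ∀ y : ℝ, Integrable fun N : ℝ => ((gg a (y - N) : ℝ) : ℂ) * ee (-(β * N)) := by
    intro a ha y
    refine Integrable.mono' (gg_integrable a y ha) ?_ ?_
    · apply Continuous.aestronglyMeasurable
      apply Continuous.mul
      · exact Complex.continuous_ofReal.comp ((gg_cont a).comp (by fun_prop))
      · exact continuous_ee.comp (by fun_prop)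
    · refine Filter.Eventually.of_forall fun N => ?_
      rw [norm_mul, norm_ee, mul_one, norm_real, Real.norm_eq_abs, abs_of_nonneg (gg_nonneg a _ ha)]
  have h1 : ∀ N : ℝ, ((DD s k P θ ρ W N : ℝ) : ℂ) * ee (-(β * N)) =
      ∑ n ∈ BX s P, ((gg ρ (YY s k P θ n - N) : ℝ) : ℂ) * ee (-(β * N)) -
        ∑ n ∈ BX s P, ((gg W (YY s k P θ n - N) : ℝ) : ℂ) * ee (-(β * N)) := by
    intro N
    unfold DD
    push_cast
    rw [sub_mul, sum_mul, sum_mul]
  rw [integral_congr_ae (Filter.Eventually.of_forall h1),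
    integral_sub (integrable_finsetSum _ fun n _ => hi ρ hρ _) (integrable_finsetSum _ fun n _ => hi W hW _),
    integral_finsetSum _ (fun n _ => hi ρ hρ _), integral_finsetSum _ (fun n _ => hi W hW _)]
  rw [sum_congr rfl fun n _ => gg_inv ρ (YY s k P θ n) β hρ,
    sum_congr rfl fun n _ => gg_inv W (YY s k P θ n) β hW]
  unfold KK
  rw [map_mul, conj_ofReal, prod_FF, map_sum]
  simp_rw [← ee_neg]
  push_cast
  rw [sub_mul, mul_sum, mul_sum]

/-- **Plancherel.** -/
theorem plancherel (s k P : ℕ) (θ : Fin s → ℝ) (ρ W : ℝ) (hρ : 0 < ρ) (hW : 0 < W) :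
    ∫ N : ℝ, DD s k P θ ρ W N ^ 2 = ∫ β : ℝ, ‖KK s k P θ ρ W β‖ ^ 2 := by
  have hD := DD_int s k P θ ρ W hρ hW
  have hK := KK_int s k P θ ρ W hρ hW
  have hint : Integrable (Function.uncurry fun (N β : ℝ) => ((DD s k P θ ρ W N : ℝ) : ℂ) *
      (KK s k P θ ρ W β * ee (-(β * N)))) (volume.prod volume) := by
    have h1 : Integrable (fun z : ℝ × ℝ => ((DD s k P θ ρ W z.1 : ℝ) : ℂ) * KK s k P θ ρ W z.2)
        (volume.prod volume) := hD.ofReal.mul_prod hK
    refine Integrable.mono' h1.norm ?_ ?_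
    · apply Continuous.aestronglyMeasurable
      unfold Function.uncurry
      apply Continuous.mul
      · exact Complex.continuous_ofReal.comp ((DD_cont s k P θ ρ W).comp continuous_fst)
      · apply Continuous.mul
        · exact (KK_cont s k P θ ρ W).comp continuous_snd
        · exact continuous_ee.comp (by fun_prop)
    · refine Filter.Eventually.of_forall fun z => ?_
      unfold Function.uncurry
      simp only
      rw [norm_mul, norm_mul, norm_mul, norm_ee, mul_one]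
  have h1 : ((∫ N : ℝ, DD s k P θ ρ W N ^ 2 : ℝ) : ℂ) = ((∫ β : ℝ, ‖KK s k P θ ρ W β‖ ^ 2 : ℝ) : ℂ) := by
    rw [← integral_complex_ofReal, ← integral_complex_ofReal]
    calc ∫ N : ℝ, ((DD s k P θ ρ W N ^ 2 : ℝ) : ℂ) =
          ∫ N : ℝ, ∫ β : ℝ, ((DD s k P θ ρ W N : ℝ) : ℂ) * (KK s k P θ ρ W β * ee (-(β * N))) := by
          apply integral_congr_ae
          refine Filter.Eventually.of_forall fun N => ?_
          simp only
          rw [integral_const_mul, ← DD_eq s k P θ ρ W N hρ hW]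
          push_cast
          ring
      _ = ∫ β : ℝ, ∫ N : ℝ, ((DD s k P θ ρ W N : ℝ) : ℂ) * (KK s k P θ ρ W β * ee (-(β * N))) :=
          integral_integral_swap hint
      _ = ∫ β : ℝ, ((‖KK s k P θ ρ W β‖ ^ 2 : ℝ) : ℂ) := by
          apply integral_congr_ae
          refine Filter.Eventually.of_forall fun β => ?_
          simp only
          have h2 : ∀ N : ℝ, ((DD s k P θ ρ W N : ℝ) : ℂ) * (KK s k P θ ρ W β * ee (-(β * N))) =
              KK s k P θ ρ W β * (((DD s k P θ ρ W N : ℝ) : ℂ) * ee (-(β * N))) := fun N => by ring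
          rw [integral_congr_ae (Filter.Eventually.of_forall h2), integral_const_mul,
            DD_hat s k P θ ρ W β hρ hW, Complex.mul_conj, Complex.normSq_eq_norm_sq]
  exact Complex.ofReal_injective h1

/-- the square mean of the difference, in terms of the minor arcs -/
theorem DD_sq_le (s k P : ℕ) (θ : Fin s → ℝ) (ρ₀ ρ W T : ℝ) (h0 : 0 < ρ₀) (h : ρ₀ ≤ ρ) (hW : ρ ≤ W) (hT : 0 < T) :
    ∫⁻ N, ENNReal.ofReal (DD s k P θ ρ W N ^ 2) ≤
      Z2 s k P ρ₀ T θ + ENNReal.ofReal (2 * T * (Real.pi * W ^ 2 * T ^ 2) ^ 2 * ((3 * P) ^ 2) ^ s) := by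
  have hpi := Real.pi_pos
  have hρ : 0 < ρ := by linarith
  have hWp : 0 < W := by linarith
  have hD := DD_int s k P θ ρ W hρ hWp
  have hbdd : ∃ C : ℝ, ∀ N, |DD s k P θ ρ W N| ≤ C := by
    have hg : ∀ a : ℝ, 0 < a → ∀ y : ℝ, |gg a y| ≤ 1 / a := by
      intro a ha y
      rw [abs_of_nonneg (gg_nonneg a y ha)]
      unfold gg
      have h1 : Real.exp (-Real.pi * (y / a) ^ 2) ≤ 1 := by
        rw [Real.exp_le_one_iff]
        have : 0 ≤ Real.pi * (y / a) ^ 2 := by positivity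
        linarith
      calc 1 / a * Real.exp (-Real.pi * (y / a) ^ 2) ≤ 1 / a * 1 :=
            mul_le_mul_of_nonneg_left h1 (by positivity)
        _ = 1 / a := mul_one _
    refine ⟨∑ n ∈ BX s P, 1 / ρ + ∑ n ∈ BX s P, 1 / W, fun N => ?_⟩
    unfold DD
    refine (abs_sub _ _).trans (add_le_add ?_ ?_)
    · exact (abs_sum_le_sum_abs _ _).trans (sum_le_sum fun n _ => hg ρ hρ _)
    · exact (abs_sum_le_sum_abs _ _).trans (sum_le_sum fun n _ => hg W hWp _)
  obtain ⟨C, hC⟩ := hbdd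
  have hD2 : Integrable fun N => DD s k P θ ρ W N ^ 2 := by
    refine Integrable.mono' (hD.norm.const_mul C) ((DD_cont s k P θ ρ W).pow 2).aestronglyMeasurable ?_
    refine Filter.Eventually.of_forall fun N => ?_
    rw [Real.norm_eq_abs, abs_pow, pow_two, Real.norm_eq_abs]
    exact mul_le_mul_of_nonneg_right (hC N) (abs_nonneg _)
  rw [← ofReal_integral_eq_lintegral_ofReal hD2 (Filter.Eventually.of_forall fun N => by positivity),
    plancherel s k P θ ρ W hρ hWp]
  have hK2c : Continuous fun β => ‖KK s k P θ ρ W β‖ ^ 2 := ((KK_cont s k P θ ρ W).norm).pow 2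
  refine (ENNReal.ofReal_le_ofReal (le_refl _)).trans ?_
  have hle : ENNReal.ofReal (∫ β, ‖KK s k P θ ρ W β‖ ^ 2) ≤ ∫⁻ β, ENNReal.ofReal (‖KK s k P θ ρ W β‖ ^ 2) := by
    rw [integral_eq_lintegral_of_nonneg_ae (Filter.Eventually.of_forall fun β => by positivity)
      hK2c.aestronglyMeasurable]
    exact ENNReal.ofReal_toReal_le
  refine hle.trans ?_
  have hprod : ∀ β, ∏ i, ‖FF k P β (θ i)‖ ^ 2 ≤ ((3 * (P : ℝ)) ^ 2) ^ s := fun β => by
    calc ∏ i, ‖FF k P β (θ i)‖ ^ 2 ≤ ∏ _i : Fin s, ((3 * (P : ℝ)) ^ 2) :=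
          prod_le_prod (fun i _ => by positivity) fun i _ =>
            pow_le_pow_left₀ (norm_nonneg _) (FF_norm_le k P β (θ i)) 2
      _ = ((3 * P) ^ 2) ^ s := by simp
  have hprod0 : ∀ β, 0 ≤ ∏ i, ‖FF k P β (θ i)‖ ^ 2 := fun β => prod_nonneg fun i _ => by positivity
  have hn : ∀ β, ‖KK s k P θ ρ W β‖ ^ 2 =
      |Real.exp (-Real.pi * (ρ * β) ^ 2) - Real.exp (-Real.pi * (W * β) ^ 2)| ^ 2 * ∏ i, ‖FF k P β (θ i)‖ ^ 2 := by
    intro β
    unfold KK
    rw [norm_mul, norm_real, Real.norm_eq_abs, norm_prod, mul_pow, Finset.prod_pow]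
  have hpt : ∀ β, ENNReal.ofReal (‖KK s k P θ ρ W β‖ ^ 2) ≤ ({β : ℝ | T ≤ |β|}.indicator (fun β => ENNReal.ofReal
      (Real.exp (-Real.pi * (ρ₀ * β) ^ 2) * ∏ i, ‖FF k P β (θ i)‖ ^ 2)) β) +
      (Set.Icc (-T) T).indicator (fun _ => ENNReal.ofReal ((Real.pi * W ^ 2 * T ^ 2) ^ 2 * ((3 * P) ^ 2) ^ s)) β := by
    intro β
    rw [hn]
    obtain ⟨hd1, hd2⟩ := exp_diff ρ W β T hρ hW
    rcases le_or_gt T |β| with hc | hc
    · have hmem : β ∈ {β : ℝ | T ≤ |β|} := hc
      rw [Set.indicator_of_mem hmem]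
      refine le_trans ?_ le_self_add
      apply ENNReal.ofReal_le_ofReal
      apply mul_le_mul_of_nonneg_right _ (hprod0 β)
      have h1 : Real.exp (-Real.pi * (ρ * β) ^ 2) ≤ 1 := by
        rw [Real.exp_le_one_iff]
        have : 0 ≤ Real.pi * (ρ * β) ^ 2 := by positivity
        linarith
      have h2 : Real.exp (-Real.pi * (ρ * β) ^ 2) ≤ Real.exp (-Real.pi * (ρ₀ * β) ^ 2) := by
        apply Real.exp_le_exp.2
        have h3 : (ρ₀ * β) ^ 2 ≤ (ρ * β) ^ 2 := by
          rw [mul_pow, mul_pow]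
          exact mul_le_mul_of_nonneg_right (pow_le_pow_left₀ h0.le h 2) (sq_nonneg _)
        nlinarith
      calc |Real.exp (-Real.pi * (ρ * β) ^ 2) - Real.exp (-Real.pi * (W * β) ^ 2)| ^ 2 ≤
            Real.exp (-Real.pi * (ρ * β) ^ 2) ^ 2 := pow_le_pow_left₀ (abs_nonneg _) hd1 2
        _ ≤ Real.exp (-Real.pi * (ρ * β) ^ 2) := by
            rw [pow_two]
            exact mul_le_of_le_one_right (Real.exp_pos _).le h1
        _ ≤ _ := h2
    · have hmem : β ∈ Set.Icc (-T) T := abs_le.1 hc.le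
      rw [Set.indicator_of_mem hmem]
      refine le_trans ?_ le_add_self
      exact ENNReal.ofReal_le_ofReal (mul_le_mul (pow_le_pow_left₀ (abs_nonneg _) (hd2 hc.le) 2) (hprod β)
        (hprod0 β) (by positivity))
  refine (lintegral_mono hpt).trans ?_
  have hm : Measurable ({β : ℝ | T ≤ |β|}.indicator (fun β => ENNReal.ofReal
      (Real.exp (-Real.pi * (ρ₀ * β) ^ 2) * ∏ i, ‖FF k P β (θ i)‖ ^ 2))) := by
    apply Measurable.indicator _ (meas_T T)
    have := cont_Z2 s k P ρ₀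
    exact (this.comp (Continuous.prodMk continuous_const continuous_id)).measurable
  rw [lintegral_add_left hm, lintegral_indicator (meas_T T),
    lintegral_indicator_const measurableSet_Icc, Real.volume_Icc, ← ENNReal.ofReal_mul (by positivity)]
  apply le_of_eq
  unfold Z2
  congr 2
  ring

/-- **Chebyshev's inequality for the difference.** -/
theorem DD_meas (s k P : ℕ) (θ : Fin s → ℝ) (ρ W E B : ℝ) (hE : 0 < E)
    (h : ∫⁻ N, ENNReal.ofReal (DD s k P θ ρ W N ^ 2) ≤ ENNReal.ofReal B) :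
    volume {N : ℝ | E < |DD s k P θ ρ W N|} ≤ ENNReal.ofReal (B / E ^ 2) := by
  have hc : Continuous fun N => ENNReal.ofReal (DD s k P θ ρ W N ^ 2) :=
    ENNReal.continuous_ofReal.comp ((DD_cont s k P θ ρ W).pow 2)
  have h1 := meas_ge_le_lintegral_div (μ := (volume : Measure ℝ))
    (f := fun N => ENNReal.ofReal (DD s k P θ ρ W N ^ 2)) hc.aemeasurable
    (ε := ENNReal.ofReal (E ^ 2)) (by
      rw [ne_eq, ENNReal.ofReal_eq_zero, not_le]; positivity) ENNReal.ofReal_ne_top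
  have h2 : {N : ℝ | E < |DD s k P θ ρ W N|} ⊆ {N : ℝ | ENNReal.ofReal (E ^ 2) ≤
      ENNReal.ofReal (DD s k P θ ρ W N ^ 2)} := by
    intro N hN
    have hN' : E < |DD s k P θ ρ W N| := hN
    show ENNReal.ofReal (E ^ 2) ≤ ENNReal.ofReal (DD s k P θ ρ W N ^ 2)
    apply ENNReal.ofReal_le_ofReal
    rw [← sq_abs (DD s k P θ ρ W N)]
    exact pow_le_pow_left₀ hE.le hN'.le 2
  refine (measure_mono h2).trans (h1.trans ?_)
  rw [ENNReal.ofReal_div_of_pos (by positivity)]
  exact ENNReal.div_le_div_right h _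

end Pool.Agent.U518.WS
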