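import Mathlib
import Pool.Agent.U518.WS.K

/-! Waring's problem with shifts, part L: the exceptional set at one scale. -/

set_option autoImplicit false

open Finset MeasureTheory

namespace Pool.Agent.U518.WS

/-- the constant -/
noncomputable def cst (k : ℕ) : ℝ :=
  Real.exp (-Real.pi) / ((2 * ((4 * (k * k * 4 ^ (k - 1)) : ℕ) : ℝ)) ^ k * (k * 4 ^ (k - 1)))

theorem cst_pos (k : ℕ) (hk : 1 ≤ k) : 0 < cst k := by
  unfold cst
  have h1 : (0 : ℝ) < k := by exact_mod_cast hk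
  have h2 : (0 : ℝ) < ((4 * (k * k * 4 ^ (k - 1)) : ℕ) : ℝ) := by
    have : 0 < 4 * (k * k * 4 ^ (k - 1)) := by positivity
    exact_mod_cast this
  positivity

theorem lower_k (k P w : ℕ) (hk : 2 ≤ k) (hP : 8 ≤ P) (hPD : 2 * (4 * (k * k * 4 ^ (k - 1))) ≤ P) (hw : w ≤ P)
    (hw1 : 1 ≤ w) (θ : Fin (k + 1) → ℝ) (hθ : ∀ i, θ i ∈ Set.Ioc (0 : ℝ) 1) (Z : ℝ)
    (hZ1 : 3 / 2 * (P : ℝ) ≤ Z) (hZ2 : Z ≤ 3 * P) :
    cst k * P ≤ ∑ n ∈ BX (k + 1) P, gg (k * (4 * P) ^ (k - 1) * w)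
      (YY (k + 1) k P θ n - ((k + 1 : ℕ) : ℝ) * Z ^ k) := by
  set D : ℕ := 4 * (k * k * 4 ^ (k - 1)) with hD
  have hDpos : 0 < D := by rw [hD]; positivity
  have hD0 : (0 : ℝ) < D := by exact_mod_cast hDpos
  have hk0 : (2 : ℝ) ≤ k := by exact_mod_cast hk
  have hPr : (8 : ℝ) ≤ P := by exact_mod_cast hP
  have hPp : (0 : ℝ) < P := by linarith
  set A : ℕ := P / D with hA
  have hA1 : D * A ≤ P := Nat.mul_div_le P D
  have hA2 : A ≤ P := Nat.div_le_self P D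
  have hA3 : (P : ℝ) / (2 * D) ≤ A := by
    have h1 : P < D * (A + 1) := by
      rw [hA]
      exact Nat.lt_mul_div_succ P hDpos
    have h2 : (P : ℝ) < D * (A + 1) := by exact_mod_cast h1
    have h3 : (2 * (D : ℝ)) ≤ P := by exact_mod_cast hPD
    rw [div_le_iff₀ (by positivity)]
    nlinarith
  have hlow := smooth_lower k k P A w (by omega) hP hw hw1 (by rw [← hD]; exact hA1) hA2 θ hθ Z hZ1 hZ2
  refine le_trans ?_ hlow
  have h4 : ((P : ℝ) / (2 * D)) ^ k ≤ (A : ℝ) ^ k := pow_le_pow_left₀ (by positivity) hA3 k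
  have h5 : (P : ℝ) = (P : ℝ) ^ k / (P : ℝ) ^ (k - 1) := by
    rw [eq_div_iff (by positivity), ← pow_succ']
    congr 1
    omega
  calc cst k * P = Real.exp (-Real.pi) * ((P : ℝ) / (2 * D)) ^ k / (k * (4 * P) ^ (k - 1)) := by
        conv_lhs => rw [h5]
        unfold cst
        rw [← hD, div_pow, mul_pow 4 (P : ℝ)]
        field_simp
    _ ≤ _ := by
        apply div_le_div_of_nonneg_right _ (by positivity)
        exact mul_le_mul_of_nonneg_left h4 (Real.exp_pos _).le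

/-- **The exceptional set at one scale.** -/
theorem scale_exc (k : ℕ) (hk : 2 ≤ k) (κ η : ℝ) (hκ : 0 ≤ κ) (hη : 0 < η) :
    ∃ C : ℝ, 0 < C ∧ ∃ P0 : ℕ, ∀ P : ℕ, P0 ≤ P → ∀ θ : Fin (k + 1) → ℝ, (∀ i, θ i ∈ Set.Ioc (0 : ℝ) 1) →
      Z2 (k + 1) k P ((P : ℝ) ^ (-κ)) ((P : ℝ) ^ (1 / (k : ℝ) - k)) θ ≤
        ENNReal.ofReal ((P : ℝ) ^ ((k : ℝ) + 1 + κ + η + η)) →
      ∀ δ : ℝ, 2 * (P : ℝ) ^ (-κ) ≤ δ → δ ≤ 1 →
        volume {N : ℝ | (∃ Z : ℝ, 3 / 2 * (P : ℝ) ≤ Z ∧ Z ≤ 3 * P ∧ N = ((k + 1 : ℕ) : ℝ) * Z ^ k) ∧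
          (((BX (k + 1) P).filter fun n => |YY (k + 1) k P θ n - N| < δ).card : ℝ) < cst k / 8 * δ * P} ≤
          ENNReal.ofReal (C * (P : ℝ) ^ ((k : ℝ) - 1 + κ + η + η)) := by
  have hpi := Real.pi_pos
  have hk0 : (2 : ℝ) ≤ k := by exact_mod_cast hk
  have hc0 := cst_pos k (by omega)
  set c0 : ℝ := cst k with hc0def
  set K : ℝ := k * 4 ^ (k - 1) with hK
  have hKp : 0 < K := by positivity
  set C1 : ℝ := 1 + 2 * (Real.pi * K ^ 2) ^ 2 * 9 ^ (k + 1) with hC1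
  have hC1p : 0 < C1 := by positivity
  refine ⟨2 * (C1 / (c0 / 8) ^ 2), by positivity, max 8 (2 * (4 * (k * k * 4 ^ (k - 1)))), fun P hP θ hθ hZ δ hδ1 hδ2 => ?_⟩
  have hP8 : 8 ≤ P := (le_max_left _ _).trans hP
  have hPD : 2 * (4 * (k * k * 4 ^ (k - 1))) ≤ P := (le_max_right _ _).trans hP
  have hPr : (8 : ℝ) ≤ P := by exact_mod_cast hP8
  have hPp : (0 : ℝ) < P := by linarith
  have hP1 : (1 : ℝ) ≤ P := by linarith
  set w : ℕ := ⌊(P : ℝ) ^ ((1 : ℝ) / 8)⌋₊ with hw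
  have hwle : (w : ℝ) ≤ (P : ℝ) ^ ((1 : ℝ) / 8) := Nat.floor_le (by positivity)
  have hw1 : 1 ≤ w := by
    rw [hw, Nat.one_le_floor_iff]
    exact Real.one_le_rpow hP1 (by norm_num)
  have hwP : w ≤ P := by
    have : (w : ℝ) ≤ P := hwle.trans (by
      calc (P : ℝ) ^ ((1 : ℝ) / 8) ≤ (P : ℝ) ^ (1 : ℝ) := Real.rpow_le_rpow_of_exponent_le hP1 (by norm_num)
        _ = P := Real.rpow_one _)
    exact_mod_cast this
  have hw0 : (1 : ℝ) ≤ w := by exact_mod_cast hw1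
  set W : ℝ := k * (4 * P) ^ (k - 1) * w with hW
  have hW1 : 1 ≤ W := by
    have h1 : (1 : ℝ) ≤ (4 * (P : ℝ)) ^ (k - 1) := one_le_pow₀ (by linarith)
    rw [hW]
    nlinarith [mul_le_mul hk0 h1 (by norm_num) (by linarith)]
  have hWp : 0 < W := by linarith
  set T : ℝ := (P : ℝ) ^ (1 / (k : ℝ) - k) with hT
  have hTp : 0 < T := Real.rpow_pos_of_pos hPp _
  have hρ0 : 0 < (P : ℝ) ^ (-κ) := Real.rpow_pos_of_pos hPp _
  have hδ0 : 0 < δ := by linarith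
  have hkr : ((k - 1 : ℕ) : ℝ) = (k : ℝ) - 1 := by
    rw [Nat.cast_sub (by omega)]; norm_num
  set E : ℝ := c0 / 8 * P with hE
  have hEp : 0 < E := by positivity
  set B : ℝ := C1 * (P : ℝ) ^ ((k : ℝ) + 1 + κ + η + η) with hB
  have hBp : 0 < B := by positivity
  -- the square mean
  have herr : 2 * T * (Real.pi * W ^ 2 * T ^ 2) ^ 2 * ((3 * (P : ℝ)) ^ 2) ^ (k + 1) ≤
      2 * (Real.pi * K ^ 2) ^ 2 * 9 ^ (k + 1) * (P : ℝ) ^ ((k : ℝ) + 1 + κ + η + η) := by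
    have h3 : (w : ℝ) ^ 4 ≤ (P : ℝ) ^ ((1 : ℝ) / 2) := by
      calc (w : ℝ) ^ 4 ≤ ((P : ℝ) ^ ((1 : ℝ) / 8)) ^ 4 := pow_le_pow_left₀ (by positivity) hwle 4
        _ = (P : ℝ) ^ ((1 : ℝ) / 2) := by
            rw [← Real.rpow_natCast, ← Real.rpow_mul hPp.le]
            congr 1
            push_cast
            norm_num
    have h4 : W ^ 2 = K ^ 2 * ((P : ℝ) ^ ((k : ℝ) - 1)) ^ 2 * (w : ℝ) ^ 2 := by
      rw [hW, hK, mul_pow 4 (P : ℝ), ← hkr, Real.rpow_natCast]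
      ring
    have h5 : ((P : ℝ) ^ ((k : ℝ) - 1)) ^ 4 * (P : ℝ) ^ ((1 : ℝ) / 2) * T ^ 5 * (P : ℝ) ^ (2 * (k + 1)) ≤
        (P : ℝ) ^ ((k : ℝ) + 1 + κ + η + η) := by
      rw [hT, ← Real.rpow_natCast, ← Real.rpow_natCast, ← Real.rpow_natCast, ← Real.rpow_mul hPp.le,
        ← Real.rpow_mul hPp.le, ← Real.rpow_add hPp, ← Real.rpow_add hPp, ← Real.rpow_add hPp]
      apply Real.rpow_le_rpow_of_exponent_le hP1
      push_cast
      have h6 : 1 / (k : ℝ) ≤ 1 / 2 := one_div_le_one_div_of_le (by norm_num) hk0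
      have h7 : ((k : ℝ) - 1) * 4 + 1 / 2 + (1 / (k : ℝ) - k) * 5 + 2 * (k + 1) =
          k - 3 / 2 + 5 * (1 / (k : ℝ)) := by ring
      rw [h7]
      linarith
    calc 2 * T * (Real.pi * W ^ 2 * T ^ 2) ^ 2 * ((3 * (P : ℝ)) ^ 2) ^ (k + 1) =
          2 * (Real.pi * K ^ 2) ^ 2 * 9 ^ (k + 1) *
            (((P : ℝ) ^ ((k : ℝ) - 1)) ^ 4 * (w : ℝ) ^ 4 * T ^ 5 * (P : ℝ) ^ (2 * (k + 1))) := by
          have h9 : ((3 * (P : ℝ)) ^ 2) ^ (k + 1) = 9 ^ (k + 1) * ((P : ℝ) ^ 2) ^ (k + 1) := by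
            rw [← mul_pow]
            congr 1
            ring
          rw [h4, h9, pow_mul (P : ℝ)]
          ring
      _ ≤ 2 * (Real.pi * K ^ 2) ^ 2 * 9 ^ (k + 1) *
            (((P : ℝ) ^ ((k : ℝ) - 1)) ^ 4 * (P : ℝ) ^ ((1 : ℝ) / 2) * T ^ 5 * (P : ℝ) ^ (2 * (k + 1))) := by
          apply mul_le_mul_of_nonneg_left _ (by positivity)
          apply mul_le_mul_of_nonneg_right _ (by positivity)
          apply mul_le_mul_of_nonneg_right _ (by positivity)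
          exact mul_le_mul_of_nonneg_left h3 (by positivity)
      _ ≤ _ := mul_le_mul_of_nonneg_left h5 (by positivity)
  have hsq : ∀ ρ : ℝ, (P : ℝ) ^ (-κ) ≤ ρ → ρ ≤ 1 →
      volume {N : ℝ | E < |DD (k + 1) k P θ ρ W N|} ≤ ENNReal.ofReal (B / E ^ 2) := by
    intro ρ h1 h2
    apply DD_meas _ _ _ _ _ _ _ _ hEp
    refine (DD_sq_le (k + 1) k P θ ((P : ℝ) ^ (-κ)) ρ W T hρ0 h1 (by linarith) hTp).trans ?_
    refine (add_le_add hZ (ENNReal.ofReal_le_ofReal herr)).trans ?_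
    rw [← ENNReal.ofReal_add (by positivity) (by positivity)]
    apply ENNReal.ofReal_le_ofReal
    rw [hB, hC1]
    apply le_of_eq
    ring
  have hsub : {N : ℝ | (∃ Z : ℝ, 3 / 2 * (P : ℝ) ≤ Z ∧ Z ≤ 3 * P ∧ N = ((k + 1 : ℕ) : ℝ) * Z ^ k) ∧
      (((BX (k + 1) P).filter fun n => |YY (k + 1) k P θ n - N| < δ).card : ℝ) < c0 / 8 * δ * P} ⊆
      {N : ℝ | E < |DD (k + 1) k P θ (δ / 2) W N|} ∪ {N : ℝ | E < |DD (k + 1) k P θ δ W N|} := by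
    rintro N ⟨⟨Z, hZ1, hZ2, hN⟩, hcard⟩
    by_contra hcon
    rw [Set.mem_union, not_or] at hcon
    obtain ⟨h1, h2⟩ := hcon
    have h1' : |DD (k + 1) k P θ (δ / 2) W N| ≤ E := not_lt.1 h1
    have h2' : |DD (k + 1) k P θ δ W N| ≤ E := not_lt.1 h2
    have hlow := lower_k k P w hk hP8 hPD hwP hw1 θ hθ Z hZ1 hZ2
    rw [← hN, ← hW] at hlow
    set S : ℝ := ∑ n ∈ BX (k + 1) P, gg W (YY (k + 1) k P θ n - N) with hS
    have hS0 : 0 ≤ S := sum_nonneg fun n _ => gg_nonneg W _ hWp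
    have hnear := near_ge (k + 1) k P θ N δ E S hδ0 hEp.le hS0 h1' h2'
    have h3 : c0 / 8 * δ * P ≤ δ * (S / 4 - E) := by
      have h4 : c0 / 8 * P ≤ S / 4 - E := by rw [hE]; linarith
      calc c0 / 8 * δ * P = δ * (c0 / 8 * P) := by ring
        _ ≤ _ := mul_le_mul_of_nonneg_left h4 hδ0.le
    linarith
  refine (measure_mono hsub).trans ((measure_union_le _ _).trans ?_)
  refine (add_le_add (hsq (δ / 2) (by linarith) (by linarith)) (hsq δ (by linarith) hδ2)).trans ?_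
  rw [← ENNReal.ofReal_add (by positivity) (by positivity)]
  apply ENNReal.ofReal_le_ofReal
  have h6 : (P : ℝ) ^ ((k : ℝ) + 1 + κ + η + η) = (P : ℝ) ^ ((k : ℝ) - 1 + κ + η + η) * (P : ℝ) ^ 2 := by
    rw [← Real.rpow_natCast (P : ℝ) 2, ← Real.rpow_add hPp]
    congr 1
    push_cast
    ring
  apply le_of_eq
  rw [hB, h6, hE, mul_pow]
  field_simp
  ring

end Pool.Agent.U518.WS
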