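import Mathlib
import Pool.Agent.U518.WS.L
import Pool.Agent.U518.WS.H

/-! Waring's problem with shifts, part M: almost all numbers and `k + 1` variables. -/

set_option autoImplicit false

open Finset MeasureTheory

namespace Pool.Agent.U518.WS

/-- the property of `N`: many solutions with large variables -/
def GoodL (k : ℕ) (c τ lam : ℝ) (L : ℕ) (θ : Fin (k + 1) → ℝ) (N : ℝ) : Prop :=
  ∃ A : Finset (Fin (k + 1) → ℕ), (∀ x ∈ A, (∀ i, L ≤ x i) ∧ |∑ i, ((x i : ℝ) + θ i) ^ k - N| < lam * N ^ (-τ)) ∧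
    c * (lam * N ^ (-τ)) * N ^ (1 / (k : ℝ)) ≤ (A.card : ℝ)

/-- the final constant -/
noncomputable def cfin (k : ℕ) (τ : ℝ) : ℝ := cst k / 8 / (2 ^ (k * τ) * (3 * (k + 1)))

theorem cfin_pos (k : ℕ) (hk : 1 ≤ k) (τ : ℝ) : 0 < cfin k τ := by
  unfold cfin
  have := cst_pos k hk
  positivity

/-- from the count at a scale to the property -/
theorem good_of_count (k : ℕ) (hk : 2 ≤ k) (τ lam : ℝ) (hτ : 0 ≤ τ) (hlam : 0 < lam) (L P : ℕ) (hP : 1 ≤ P)
    (hL : L ≤ P) (θ : Fin (k + 1) → ℝ) (N Z : ℝ) (hZ1 : 3 / 2 * (P : ℝ) ≤ Z) (hZ2 : Z ≤ 3 * P)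
    (hN : N = ((k + 1 : ℕ) : ℝ) * Z ^ k)
    (hc : cst k / 8 * (lam * (((k + 1 : ℕ) : ℝ) * (3 * P) ^ k) ^ (-τ)) * P ≤
      (((BX (k + 1) P).filter fun n =>
        |YY (k + 1) k P θ n - N| < lam * (((k + 1 : ℕ) : ℝ) * (3 * P) ^ k) ^ (-τ)).card : ℝ)) :
    GoodL k (cfin k τ) τ lam L θ N := by
  have hP0 : (1 : ℝ) ≤ P := by exact_mod_cast hP
  have hPp : (0 : ℝ) < P := by linarith
  have hk0 : (2 : ℝ) ≤ k := by exact_mod_cast hk
  have hZp : 0 < Z := by linarith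
  have hsp : (0 : ℝ) < ((k + 1 : ℕ) : ℝ) := by positivity
  have hNp : 0 < N := by rw [hN]; positivity
  set δ : ℝ := lam * (((k + 1 : ℕ) : ℝ) * (3 * P) ^ k) ^ (-τ) with hδ
  have hδp : 0 < δ := by positivity
  have hNle : N ≤ ((k + 1 : ℕ) : ℝ) * (3 * P) ^ k := by
    rw [hN]
    exact mul_le_mul_of_nonneg_left (pow_le_pow_left₀ hZp.le hZ2 k) hsp.le
  have hδN : δ ≤ lam * N ^ (-τ) := by
    rw [hδ]
    exact mul_le_mul_of_nonneg_left (Real.rpow_le_rpow_of_nonpos hNp hNle (by linarith)) hlam.le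
  have hNge : ((k + 1 : ℕ) : ℝ) * (3 * P) ^ k / 2 ^ k ≤ N := by
    rw [hN, mul_div_assoc]
    apply mul_le_mul_of_nonneg_left _ hsp.le
    rw [← div_pow]
    exact pow_le_pow_left₀ (by positivity) (by linarith) k
  have hNδ : lam * N ^ (-τ) ≤ δ * 2 ^ (k * τ) := by
    have h1 : N ^ (-τ) ≤ (((k + 1 : ℕ) : ℝ) * (3 * P) ^ k / 2 ^ k) ^ (-τ) :=
      Real.rpow_le_rpow_of_nonpos (by positivity) hNge (by linarith)
    have h2 : (((k + 1 : ℕ) : ℝ) * (3 * P) ^ k / 2 ^ k) ^ (-τ) =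
        (((k + 1 : ℕ) : ℝ) * (3 * P) ^ k) ^ (-τ) * 2 ^ (k * τ) := by
      rw [Real.div_rpow (by positivity) (by positivity), ← Real.rpow_natCast (2 : ℝ) k,
        ← Real.rpow_mul (by norm_num), div_eq_mul_inv, ← Real.rpow_neg (by norm_num)]
      congr 2
      ring
    calc lam * N ^ (-τ) ≤ lam * ((((k + 1 : ℕ) : ℝ) * (3 * P) ^ k) ^ (-τ) * 2 ^ (k * τ)) := by
          rw [← h2]
          exact mul_le_mul_of_nonneg_left h1 hlam.le
      _ = δ * 2 ^ (k * τ) := by rw [hδ]; ring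
  have hN1k : N ^ (1 / (k : ℝ)) ≤ 3 * (k + 1) * P := by
    have h1 : N ≤ (((k : ℝ) + 1) * (3 * P)) ^ k := by
      refine hNle.trans ?_
      rw [mul_pow ((k : ℝ) + 1) (3 * (P : ℝ))]
      apply mul_le_mul_of_nonneg_right _ (by positivity)
      push_cast
      calc (k : ℝ) + 1 = ((k : ℝ) + 1) ^ 1 := (pow_one _).symm
        _ ≤ ((k : ℝ) + 1) ^ k := pow_le_pow_right₀ (by linarith) (by omega)
    calc N ^ (1 / (k : ℝ)) ≤ ((((k : ℝ) + 1) * (3 * P)) ^ k) ^ (1 / (k : ℝ)) :=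
          Real.rpow_le_rpow hNp.le h1 (by positivity)
      _ = ((k : ℝ) + 1) * (3 * P) := by
          rw [one_div]
          exact Real.pow_rpow_inv_natCast (by positivity) (by omega)
      _ = _ := by ring
  set g : (Fin (k + 1) → ℕ) → (Fin (k + 1) → ℕ) := fun n i => P + 1 + n i with hg
  have hginj : Function.Injective g := by
    intro n n' h
    funext i
    have := congrFun h i
    simp only [hg] at this
    omega
  refine ⟨((BX (k + 1) P).filter fun n => |YY (k + 1) k P θ n - N| < δ).image g, ?_, ?_⟩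
  · intro x hx
    rw [mem_image] at hx
    obtain ⟨n, hn, rfl⟩ := hx
    rw [mem_filter] at hn
    refine ⟨fun i => ?_, lt_of_lt_of_le hn.2 hδN⟩
    show L ≤ P + 1 + n i
    omega
  · rw [card_image_of_injective _ hginj]
    refine le_trans ?_ hc
    have hcp := cst_pos k (by omega)
    calc cfin k τ * (lam * N ^ (-τ)) * N ^ (1 / (k : ℝ)) ≤
          cfin k τ * (δ * 2 ^ (k * τ)) * (3 * (k + 1) * P) := by
          apply mul_le_mul _ hN1k (by positivity) (by have := cfin_pos k (by omega) τ; positivity)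
          exact mul_le_mul_of_nonneg_left hNδ (cfin_pos k (by omega) τ).le
      _ = cst k / 8 * δ * P := by
          unfold cfin
          field_simp

/-- the exceptional set for a good shift of the unit cube -/
theorem cube2 (k : ℕ) (hk : 2 ≤ k) (τ lam ε : ℝ) (hτ : 0 ≤ τ) (hlam : 0 < lam) (hlam1 : lam ≤ 1) (hε : 0 < ε) :
    ∀ᵐ θ : Fin (k + 1) → ℝ, (∀ i, θ i ∈ Set.Ioc (0 : ℝ) 1) → ∀ L : ℕ, ∀ᶠ X : ℝ in Filter.atTop,
      volume {N : ℝ | 0 < N ∧ N ≤ X ∧ ¬ GoodL k (cfin k τ) τ lam L θ N} ≤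
        ENNReal.ofReal (X ^ (1 - 1 / (k : ℝ) + τ + ε)) := by
  have hk0 : (2 : ℝ) ≤ k := by exact_mod_cast hk
  have hkp : (0 : ℝ) < k := by linarith
  set η : ℝ := k * ε / 8 with hη
  have hη0 : 0 < η := by positivity
  set κ : ℝ := k * τ + η with hκ
  have hκ0 : 0 ≤ κ := by positivity
  obtain ⟨C, hC, P0, hscale⟩ := scale_exc k hk κ η hκ0 hη0
  have hae := ae_small2 k hk κ η hκ0 hη0
  rw [ms_eq, ae_restrict_iff' (MeasurableSet.univ_pi fun _ => measurableSet_Ioc)] at hae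
  filter_upwards [hae] with θ hθ hcube L
  have hθ' := hθ (by rw [Set.mem_univ_pi]; exact hcube)
  have hev1 : ∀ᶠ ν : ℕ in Filter.atTop,
      (((2 ^ ν : ℕ) : ℝ)) ^ (-η) ≤ lam * ((((k + 1 : ℕ) : ℝ) * 3 ^ k)) ^ (-τ) / 2 := by
    have h1 : Filter.Tendsto (fun ν : ℕ => ((2 ^ ν : ℕ) : ℝ)) Filter.atTop Filter.atTop :=
      tendsto_natCast_atTop_atTop.comp (tendsto_pow_atTop_atTop_of_one_lt (by norm_num : 1 < 2))
    exact ((tendsto_rpow_neg_atTop hη0).comp h1).eventually_le_const (by positivity)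
  have hev2 : ∀ᶠ ν : ℕ in Filter.atTop, max P0 L ≤ 2 ^ ν :=
    (tendsto_pow_atTop_atTop_of_one_lt (by norm_num : 1 < 2)).eventually_ge_atTop _
  obtain ⟨ν1, hν1⟩ := Filter.eventually_atTop.1 (hθ'.and (hev1.and hev2))
  set sk : ℝ := ((k + 1 : ℕ) : ℝ) with hsk
  have hsk1 : 1 ≤ sk := by
    have : 1 ≤ k + 1 := by omega
    rw [hsk]
    exact_mod_cast this
  have hskp : 0 < sk := by linarith
  set N1 : ℝ := sk * (3 * 2 ^ ν1) ^ k with hN1
  have hN1p : 0 < N1 := by positivity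
  -- the set of one scale
  set dl : ℕ → ℝ := fun ν => lam * (sk * (3 * ((2 ^ ν : ℕ) : ℝ)) ^ k) ^ (-τ) with hdl
  set Ex : ℕ → Set ℝ := fun ν => {N : ℝ | (∃ Z : ℝ, 3 / 2 * ((2 ^ ν : ℕ) : ℝ) ≤ Z ∧ Z ≤ 3 * ((2 ^ ν : ℕ) : ℝ) ∧
    N = sk * Z ^ k) ∧
    (((BX (k + 1) (2 ^ ν)).filter fun n => |YY (k + 1) k (2 ^ ν) θ n - N| < dl ν).card : ℝ) <
      cst k / 8 * dl ν * ((2 ^ ν : ℕ) : ℝ)} with hEx
  have hExm : ∀ ν, ν1 ≤ ν → volume (Ex ν) ≤
      ENNReal.ofReal (C * ((2 ^ ν : ℕ) : ℝ) ^ ((k : ℝ) - 1 + κ + η + η)) := by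
    intro ν hν
    obtain ⟨hZ, hexp, hmax⟩ := hν1 ν hν
    have hPp : (0 : ℝ) < ((2 ^ ν : ℕ) : ℝ) := by positivity
    have hP1 : (1 : ℝ) ≤ ((2 ^ ν : ℕ) : ℝ) := by exact_mod_cast Nat.one_le_two_pow
    apply hscale (2 ^ ν) ((le_max_left _ _).trans hmax) θ hcube hZ (dl ν)
    · rw [hdl]
      simp only
      have h1 : (sk * (3 * ((2 ^ ν : ℕ) : ℝ)) ^ k) ^ (-τ) = (sk * 3 ^ k) ^ (-τ) * ((2 ^ ν : ℕ) : ℝ) ^ (-(k * τ)) := by
        rw [mul_pow, ← mul_assoc, Real.mul_rpow (by positivity) (by positivity),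
          ← Real.rpow_natCast ((2 ^ ν : ℕ) : ℝ) k, ← Real.rpow_mul hPp.le]
        congr 2
        ring
      rw [h1]
      calc 2 * ((2 ^ ν : ℕ) : ℝ) ^ (-κ) = 2 * (((2 ^ ν : ℕ) : ℝ) ^ (-η) * ((2 ^ ν : ℕ) : ℝ) ^ (-(k * τ))) := by
            rw [← Real.rpow_add hPp, hκ]
            congr 2
            ring
        _ ≤ 2 * (lam * (sk * 3 ^ k) ^ (-τ) / 2 * ((2 ^ ν : ℕ) : ℝ) ^ (-(k * τ))) := by
            apply mul_le_mul_of_nonneg_left _ (by norm_num)
            exact mul_le_mul_of_nonneg_right hexp (by positivity)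
        _ = _ := by ring
    · rw [hdl]
      simp only
      have h1 : (1 : ℝ) ≤ sk * (3 * ((2 ^ ν : ℕ) : ℝ)) ^ k := by
        have h2 : (1 : ℝ) ≤ (3 * ((2 ^ ν : ℕ) : ℝ)) ^ k := one_le_pow₀ (by linarith)
        nlinarith
      have h3 : (sk * (3 * ((2 ^ ν : ℕ) : ℝ)) ^ k) ^ (-τ) ≤ 1 :=
        Real.rpow_le_one_of_one_le_of_nonpos h1 (by linarith)
      calc lam * (sk * (3 * ((2 ^ ν : ℕ) : ℝ)) ^ k) ^ (-τ) ≤ 1 * 1 :=
            mul_le_mul hlam1 h3 (by positivity) (by norm_num)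
        _ = 1 := one_mul 1
  -- covering
  have hcover : ∀ X : ℝ, ∀ M : ℕ, (X < 2 ^ (k * (M + 1))) →
      {N : ℝ | 0 < N ∧ N ≤ X ∧ ¬ GoodL k (cfin k τ) τ lam L θ N} ⊆
        Set.Ioc 0 N1 ∪ ⋃ ν ∈ Finset.Icc ν1 M, Ex ν := by
    intro X M hM N hN
    obtain ⟨hNp, hNX, hbad⟩ := hN
    rcases le_or_gt N N1 with hc | hc
    · exact Set.mem_union_left _ ⟨hNp, hc⟩
    · apply Set.mem_union_right
      set Z : ℝ := (N / sk) ^ ((k : ℝ)⁻¹) with hZ
      have hZ0 : 0 ≤ Z := by positivity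
      have hZk : Z ^ k = N / sk := Real.rpow_inv_natCast_pow (by positivity) (by omega)
      have hNZ : N = sk * Z ^ k := by rw [hZk]; field_simp
      have hZge : 3 * (2 : ℝ) ^ ν1 ≤ Z := by
        by_contra hcon
        push Not at hcon
        have h1 := pow_lt_pow_left₀ hcon hZ0 (by omega : k ≠ 0)
        have h2 : sk * Z ^ k < sk * (3 * 2 ^ ν1) ^ k := mul_lt_mul_of_pos_left h1 hskp
        linarith
      have h2ν1 : (1 : ℝ) ≤ 2 ^ ν1 := one_le_pow₀ (by norm_num)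
      obtain ⟨ν, hνa, hνb⟩ := exists_nat_pow_near (x := Z * (2 / 3)) (y := 2) (by linarith) (by norm_num)
      have hν : ν1 ≤ ν := by
        have h1 : (2 : ℝ) ^ ν1 < 2 ^ (ν + 1) := by linarith
        have h2 : ν1 < ν + 1 := (pow_lt_pow_iff_right₀ (by norm_num : (1 : ℝ) < 2)).1 h1
        omega
      have hPr : (((2 ^ ν : ℕ) : ℝ)) = 2 ^ ν := by push_cast; rfl
      have hPp : (0 : ℝ) < ((2 ^ ν : ℕ) : ℝ) := by positivity
      have hZ1 : 3 / 2 * ((2 ^ ν : ℕ) : ℝ) ≤ Z := by rw [hPr]; linarith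
      have hZ2 : Z ≤ 3 * ((2 ^ ν : ℕ) : ℝ) := by rw [hPr]; rw [pow_succ] at hνb; linarith
      have hνM : ν ≤ M := by
        by_contra hcon
        push Not at hcon
        have h1 : (2 : ℝ) ^ (M + 1) ≤ 2 ^ ν := pow_le_pow_right₀ (by norm_num) (by omega)
        have h2 : (2 : ℝ) ^ (M + 1) ≤ Z := by linarith
        have h3 : ((2 : ℝ) ^ (M + 1)) ^ k ≤ Z ^ k := pow_le_pow_left₀ (by positivity) h2 k
        rw [← pow_mul, mul_comm (M + 1) k] at h3
        have h4 : Z ^ k ≤ N := by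
          rw [hNZ]
          have : 0 ≤ Z ^ k := by positivity
          nlinarith
        linarith
      rw [Set.mem_iUnion₂]
      refine ⟨ν, Finset.mem_Icc.2 ⟨hν, hνM⟩, ⟨⟨Z, hZ1, hZ2, hNZ⟩, ?_⟩⟩
      by_contra hcon
      push Not at hcon
      obtain ⟨_, _, hmax⟩ := hν1 ν hν
      exact hbad (good_of_count k hk τ lam hτ hlam L (2 ^ ν) Nat.one_le_two_pow
        ((le_max_right _ _).trans hmax) θ N Z hZ1 hZ2 hNZ hcon)
  -- the total measure
  set a : ℝ := (k : ℝ) - 1 + κ + η + η with ha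
  have ha0 : 0 < a := by rw [ha]; linarith
  clear_value a
  set C3 : ℝ := C * (1 + 1 / (η * Real.log 2)) with hC3
  have hlog2 : 0 < Real.log 2 := Real.log_pos (by norm_num)
  have hC3p : 0 < C3 := by positivity
  have htot : ∀ X : ℝ, 1 ≤ X → volume {N : ℝ | 0 < N ∧ N ≤ X ∧ ¬ GoodL k (cfin k τ) τ lam L θ N} ≤
      ENNReal.ofReal (N1 + C3 * X ^ ((a + η) / k)) := by
    intro X hX
    have hXp : 0 < X := by linarith
    obtain ⟨M, hMa, hMb⟩ := exists_nat_pow_near (x := X ^ (1 / (k : ℝ))) (y := 2)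
      (Real.one_le_rpow hX (by positivity)) (by norm_num)
    have hX1 : (X ^ (1 / (k : ℝ))) ^ k = X := by
      rw [one_div]
      exact Real.rpow_inv_natCast_pow hXp.le (by omega)
    have hM : X < 2 ^ (k * (M + 1)) := by
      rw [mul_comm, pow_mul, ← hX1]
      exact pow_lt_pow_left₀ hMb (by positivity) (by omega)
    refine (measure_mono (hcover X M hM)).trans ((measure_union_le _ _).trans ?_)
    have h1 : volume (⋃ ν ∈ Finset.Icc ν1 M, Ex ν) ≤ ENNReal.ofReal (C3 * X ^ ((a + η) / k)) := by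
      refine (measure_biUnion_finset_le _ _).trans ?_
      have h2 : ∀ ν ∈ Finset.Icc ν1 M, volume (Ex ν) ≤ ENNReal.ofReal (C * ((2 : ℝ) ^ M) ^ a) := by
        intro ν hν
        rw [Finset.mem_Icc] at hν
        refine (hExm ν hν.1).trans (ENNReal.ofReal_le_ofReal ?_)
        apply mul_le_mul_of_nonneg_left _ hC.le
        apply Real.rpow_le_rpow (by positivity) _ ha0.le
        push_cast
        exact pow_le_pow_right₀ (by norm_num) hν.2
      refine (Finset.sum_le_sum h2).trans ?_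
      rw [Finset.sum_const, nsmul_eq_mul]
      have h3 : ((Finset.Icc ν1 M).card : ℝ) ≤ (1 + 1 / (η * Real.log 2)) * ((2 : ℝ) ^ M) ^ η := by
        have h4 : (Finset.Icc ν1 M).card ≤ M + 1 := by rw [Nat.card_Icc]; omega
        have h5 : ((Finset.Icc ν1 M).card : ℝ) ≤ M + 1 := by exact_mod_cast h4
        have h6 := Real.log_le_rpow_div (x := (2 : ℝ) ^ M) (by positivity) hη0
        rw [Real.log_pow] at h6
        have h7 : (M : ℝ) ≤ 1 / (η * Real.log 2) * ((2 : ℝ) ^ M) ^ η := by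
          rw [one_div, inv_mul_eq_div, le_div_iff₀ (by positivity)]
          rw [le_div_iff₀ hη0] at h6
          linarith
        have h8 : (1 : ℝ) ≤ ((2 : ℝ) ^ M) ^ η := Real.one_le_rpow (one_le_pow₀ (by norm_num)) hη0.le
        calc ((Finset.Icc ν1 M).card : ℝ) ≤ M + 1 := h5
          _ ≤ 1 / (η * Real.log 2) * ((2 : ℝ) ^ M) ^ η + ((2 : ℝ) ^ M) ^ η := add_le_add h7 h8
          _ = _ := by ring
      have h9 : ((Finset.Icc ν1 M).card : ENNReal) = ENNReal.ofReal ((Finset.Icc ν1 M).card : ℝ) := by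
        rw [ENNReal.ofReal_natCast]
      rw [h9, ← ENNReal.ofReal_mul (by positivity)]
      apply ENNReal.ofReal_le_ofReal
      calc ((Finset.Icc ν1 M).card : ℝ) * (C * ((2 : ℝ) ^ M) ^ a) ≤
            ((1 + 1 / (η * Real.log 2)) * ((2 : ℝ) ^ M) ^ η) * (C * ((2 : ℝ) ^ M) ^ a) :=
            mul_le_mul_of_nonneg_right h3 (by positivity)
        _ = C3 * ((2 : ℝ) ^ M) ^ (a + η) := by
            have h20 : ((2 : ℝ) ^ M) ^ (a + η) = ((2 : ℝ) ^ M) ^ a * ((2 : ℝ) ^ M) ^ η :=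
              Real.rpow_add (by positivity) _ _
            rw [h20, hC3]
            ring
        _ ≤ C3 * (X ^ (1 / (k : ℝ))) ^ (a + η) := by
            apply mul_le_mul_of_nonneg_left _ hC3p.le
            exact Real.rpow_le_rpow (by positivity) hMa (by linarith)
        _ = C3 * X ^ ((a + η) / k) := by
            rw [← Real.rpow_mul hXp.le]
            congr 2
            ring
    have h10 : volume (Set.Ioc (0 : ℝ) N1) = ENNReal.ofReal N1 := by rw [Real.volume_Ioc, sub_zero]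
    rw [h10]
    refine (add_le_add le_rfl h1).trans (le_of_eq ?_)
    rw [← ENNReal.ofReal_add hN1p.le (by positivity)]
  -- the final inequality
  have hexp : (a + η) / k = 1 - 1 / (k : ℝ) + τ + ε / 2 := by
    rw [ha, hκ, hη]
    field_simp
    ring
  have hb0 : 0 < 1 - 1 / (k : ℝ) + τ + ε := by
    have : 1 / (k : ℝ) ≤ 1 / 2 := one_div_le_one_div_of_le (by norm_num) hk0
    linarith
  have hf1 : ∀ᶠ X : ℝ in Filter.atTop, 2 * N1 ≤ X ^ (1 - 1 / (k : ℝ) + τ + ε) :=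
    (tendsto_rpow_atTop hb0).eventually_ge_atTop _
  have hf2 : ∀ᶠ X : ℝ in Filter.atTop, 2 * C3 ≤ X ^ (ε / 2) :=
    (tendsto_rpow_atTop (by positivity : 0 < ε / 2)).eventually_ge_atTop _
  filter_upwards [hf1, hf2, Filter.eventually_ge_atTop 1] with X hX1 hX2 hX3
  have hXp : 0 < X := by linarith
  refine (htot X hX3).trans (ENNReal.ofReal_le_ofReal ?_)
  have h11 : C3 * X ^ ((a + η) / k) ≤ X ^ (1 - 1 / (k : ℝ) + τ + ε) / 2 := by
    rw [hexp]
    have h12 : X ^ (1 - 1 / (k : ℝ) + τ + ε) = X ^ (1 - 1 / (k : ℝ) + τ + ε / 2) * X ^ (ε / 2) := by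
      rw [← Real.rpow_add hXp]
      congr 1
      ring
    rw [h12]
    have h13 : 0 ≤ X ^ (1 - 1 / (k : ℝ) + τ + ε / 2) := by positivity
    nlinarith
  linarith

end Pool.Agent.U518.WS
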