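import Mathlib
import Pool.Agent.U518.WS.M

/-! Waring's problem with shifts, part N: the theorem for almost all numbers and `k + 1` variables. -/

set_option autoImplicit false

open Finset MeasureTheory

namespace Pool.Agent.U518.WS

/-- **Almost all real numbers.** -/
theorem main2 (k : ℕ) (hk : 2 ≤ k) (τ lam : ℝ) (hτ : 0 ≤ τ) (hlam : 0 < lam) (hlam1 : lam ≤ 1) :
    ∀ᵐ θ : Fin (k + 1) → ℝ, ∀ ε : ℝ, 0 < ε → ∀ᶠ X : ℝ in Filter.atTop,
      volume {N : ℝ | 0 < N ∧ N ≤ X ∧ ¬ ∃ A : Finset (Fin (k + 1) → ℕ),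
        (∀ x ∈ A, (∀ i, 0 < (x i : ℝ) + θ i) ∧ |∑ i, ((x i : ℝ) + θ i) ^ k - N| < lam * N ^ (-τ)) ∧
        cfin k τ * (lam * N ^ (-τ)) * N ^ (1 / (k : ℝ)) ≤ (A.card : ℝ)} ≤
        ENNReal.ofReal (X ^ (1 - 1 / (k : ℝ) + τ + ε)) := by
  have h1 : ∀ m : Fin (k + 1) → ℤ, ∀ j : ℕ, ∀ᵐ θ : Fin (k + 1) → ℝ,
      (∀ i, (θ - fun i => (m i : ℝ)) i ∈ Set.Ioc (0 : ℝ) 1) → ∀ L : ℕ, ∀ᶠ X : ℝ in Filter.atTop,
      volume {N : ℝ | 0 < N ∧ N ≤ X ∧ ¬ GoodL k (cfin k τ) τ lam L (θ - fun i => (m i : ℝ)) N} ≤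
        ENNReal.ofReal (X ^ (1 - 1 / (k : ℝ) + τ + 1 / ((j : ℝ) + 1))) := fun m j =>
    (measurePreserving_sub_right (volume : Measure (Fin (k + 1) → ℝ))
      (fun i => (m i : ℝ))).quasiMeasurePreserving.ae
      (cube2 k hk τ lam (1 / ((j : ℝ) + 1)) hτ hlam hlam1 (by positivity))
  simp_rw [← ae_all_iff] at h1
  filter_upwards [h1] with θ hθ ε hε
  set m : Fin (k + 1) → ℤ := fun i => ⌈θ i⌉ - 1 with hm
  have hmem : ∀ i, (θ - fun i => (m i : ℝ)) i ∈ Set.Ioc (0 : ℝ) 1 := by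
    intro i
    simp only [Pi.sub_apply, hm]
    have h2 := Int.le_ceil (θ i)
    have h3 := Int.ceil_lt_add_one (θ i)
    push_cast
    constructor <;> linarith
  set L : ℕ := ∑ i, (m i).natAbs with hL
  obtain ⟨j, hj⟩ := exists_nat_one_div_lt hε
  filter_upwards [hθ m j hmem L, Filter.eventually_ge_atTop 1] with X hX hX1
  refine (measure_mono ?_).trans (hX.trans (ENNReal.ofReal_le_ofReal ?_))
  · rintro N ⟨hN0, hNX, hbad⟩
    refine ⟨hN0, hNX, fun hgood => hbad ?_⟩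
    obtain ⟨A, hA1, hA2⟩ := hgood
    have hge : ∀ x ∈ A, ∀ i, 0 ≤ (x i : ℤ) - m i := by
      intro x hx i
      have h2 := (hA1 x hx).1 i
      have h3 : (m i).natAbs ≤ L := by
        rw [hL]
        exact single_le_sum (f := fun i => (m i).natAbs) (fun _ _ => Nat.zero_le _) (mem_univ i)
      have h4 : m i ≤ (m i).natAbs := Int.le_natAbs
      omega
    refine ⟨A.image fun x i => ((x i : ℤ) - m i).toNat, ?_, ?_⟩
    · intro y hy
      rw [mem_image] at hy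
      obtain ⟨x, hx, rfl⟩ := hy
      have h2 := (hA1 x hx).2
      have h4 : ∀ i, ((((x i : ℤ) - m i).toNat : ℕ) : ℝ) + θ i = (x i : ℝ) + (θ - fun i => (m i : ℝ)) i := by
        intro i
        have h5 : ((((x i : ℤ) - m i).toNat : ℕ) : ℤ) = (x i : ℤ) - m i := Int.toNat_of_nonneg (hge x hx i)
        have h6 : (((((x i : ℤ) - m i).toNat : ℕ) : ℤ) : ℝ) = (((x i : ℤ) - m i : ℤ) : ℝ) := by rw [h5]
        push_cast at h6
        rw [h6, Pi.sub_apply]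
        ring
      refine ⟨fun i => ?_, ?_⟩
      · rw [h4 i]
        have := (hmem i).1
        positivity
      · have h3 : ∑ i, (((((x i : ℤ) - m i).toNat : ℕ) : ℝ) + θ i) ^ k =
            ∑ i, ((x i : ℝ) + (θ - fun i => (m i : ℝ)) i) ^ k := by
          apply sum_congr rfl
          intro i _
          rw [h4 i]
        rw [h3]
        exact h2
    · rw [card_image_of_injOn]
      · exact hA2
      · intro x hx x' hx' h
        funext i
        have h2 := congrFun h i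
        simp only at h2
        have h3 := hge x hx i
        have h4 := hge x' hx' i
        omega
  · apply Real.rpow_le_rpow_of_exponent_le hX1
    linarith

open Classical in
/-- **Almost all integers are integer parts of sums of `k + 1` shifted powers.** -/
theorem floor_form2 (k : ℕ) (hk : 2 ≤ k) :
    ∀ᵐ θ : Fin (k + 1) → ℝ, ∀ ε : ℝ, 0 < ε → ∀ᶠ X : ℕ in Filter.atTop,
      (((range (X + 1)).filter fun n : ℕ => ¬ ∃ x : Fin (k + 1) → ℕ, (∀ i, 0 < (x i : ℝ) + θ i) ∧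
        ⌊∑ i, ((x i : ℝ) + θ i) ^ k⌋ = (n : ℤ)).card : ℝ) ≤ (X : ℝ) ^ (1 - 1 / (k : ℝ) + ε) := by
  have hk0 : (2 : ℝ) ≤ k := by exact_mod_cast hk
  filter_upwards [main2 k hk 0 (1 / 4) le_rfl (by norm_num) (by norm_num)] with θ hθ ε hε
  set Bad : ℕ → Prop := fun n => ¬ ∃ x : Fin (k + 1) → ℕ, (∀ i, 0 < (x i : ℝ) + θ i) ∧
        ⌊∑ i, ((x i : ℝ) + θ i) ^ k⌋ = (n : ℤ) with hBad
  set S : ℝ → Set ℝ := fun X => {N : ℝ | 0 < N ∧ N ≤ X ∧ ¬ ∃ A : Finset (Fin (k + 1) → ℕ),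
        (∀ x ∈ A, (∀ i, 0 < (x i : ℝ) + θ i) ∧ |∑ i, ((x i : ℝ) + θ i) ^ k - N| < 1 / 4 * N ^ (-(0 : ℝ))) ∧
        cfin k 0 * (1 / 4 * N ^ (-(0 : ℝ))) * N ^ (1 / (k : ℝ)) ≤ (A.card : ℝ)} with hS
  have hev := hθ (ε / 2) (by linarith)
  have h1 : Filter.Tendsto (fun n : ℕ => (n : ℝ) + 1) Filter.atTop Filter.atTop :=
    Filter.tendsto_atTop_add_const_right _ _ tendsto_natCast_atTop_atTop
  have hev' := h1.eventually hev
  have hf : ∀ᶠ X : ℕ in Filter.atTop, 2 * (2 : ℝ) ^ (1 - 1 / (k : ℝ) + 0 + ε / 2) ≤ (X : ℝ) ^ (ε / 2) :=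
    ((tendsto_rpow_atTop (by positivity : 0 < ε / 2)).comp tendsto_natCast_atTop_atTop).eventually_ge_atTop _
  filter_upwards [hev', hf, Filter.eventually_ge_atTop 1] with X hX hX8 hX1
  have hXr : (1 : ℝ) ≤ X := by exact_mod_cast hX1
  have hXp : (0 : ℝ) < X := by linarith
  -- the intervals
  have hsub : ⋃ n ∈ (range (X + 1)).filter Bad, Set.Ioo ((n : ℝ) + 1 / 4) ((n : ℝ) + 3 / 4) ⊆ S ((X : ℝ) + 1) := by
    intro N hN
    rw [Set.mem_iUnion₂] at hN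
    obtain ⟨n, hn, hNn⟩ := hN
    rw [mem_filter, mem_range] at hn
    obtain ⟨hnX, hbad⟩ := hn
    have hnX' : (n : ℝ) ≤ X := by exact_mod_cast (by omega : n ≤ X)
    have hn0 : (0 : ℝ) ≤ n := Nat.cast_nonneg n
    have hNp : 0 < N := by linarith [hNn.1]
    refine ⟨hNp, by linarith [hNn.2], ?_⟩
    rintro ⟨A, hA1, hA2⟩
    have hne : A.Nonempty := by
      rw [← card_pos]
      have hcf := cfin_pos k (by omega) 0
      have : (0 : ℝ) < A.card := lt_of_lt_of_le (by positivity) hA2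
      exact_mod_cast this
    obtain ⟨x, hx⟩ := hne
    apply hbad
    refine ⟨x, (hA1 x hx).1, ?_⟩
    have h4 := (hA1 x hx).2
    rw [neg_zero, Real.rpow_zero, mul_one] at h4
    have h5 := abs_lt.1 h4
    rw [Int.floor_eq_iff]
    push_cast
    constructor <;> linarith [h5.1, h5.2, hNn.1, hNn.2]
  have hdisj : Set.PairwiseDisjoint (↑((range (X + 1)).filter Bad) : Set ℕ)
      (fun n : ℕ => Set.Ioo ((n : ℝ) + 1 / 4) ((n : ℝ) + 3 / 4)) := by
    intro n _ n' _ hnn'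
    rw [Function.onFun, Set.disjoint_left]
    intro N hN hN'
    apply hnn'
    have h2 : (n : ℝ) < n' + 1 := by linarith [hN.1, hN'.2]
    have h3 : (n' : ℝ) < n + 1 := by linarith [hN'.1, hN.2]
    have h4 : n < n' + 1 := by exact_mod_cast h2
    have h5 : n' < n + 1 := by exact_mod_cast h3
    omega
  have hmeas : volume (⋃ n ∈ (range (X + 1)).filter Bad, Set.Ioo ((n : ℝ) + 1 / 4) ((n : ℝ) + 3 / 4)) =
      ENNReal.ofReal ((((range (X + 1)).filter Bad).card : ℝ) / 2) := by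
    rw [measure_biUnion_finset hdisj fun n _ => measurableSet_Ioo]
    have h2 : ∀ n ∈ (range (X + 1)).filter Bad, volume (Set.Ioo ((n : ℝ) + 1 / 4) ((n : ℝ) + 3 / 4)) =
        ENNReal.ofReal (1 / 2) := by
      intro n _
      rw [Real.volume_Ioo]
      congr 1
      ring
    rw [sum_congr rfl h2, sum_const, nsmul_eq_mul, ← ENNReal.ofReal_natCast,
      ← ENNReal.ofReal_mul (by positivity)]
    congr 1
    ring
  have hfin : ENNReal.ofReal ((((range (X + 1)).filter Bad).card : ℝ) / 2) ≤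
      ENNReal.ofReal (((X : ℝ) + 1) ^ (1 - 1 / (k : ℝ) + 0 + ε / 2)) := by
    rw [← hmeas]
    exact (measure_mono hsub).trans hX
  have hfin' := (ENNReal.ofReal_le_ofReal_iff (by positivity)).1 hfin
  have hα : 0 ≤ 1 - 1 / (k : ℝ) + 0 + ε / 2 := by
    have : 1 / (k : ℝ) ≤ 1 / 2 := one_div_le_one_div_of_le (by norm_num) hk0
    linarith
  have h8 : ((X : ℝ) + 1) ^ (1 - 1 / (k : ℝ) + 0 + ε / 2) ≤
      2 ^ (1 - 1 / (k : ℝ) + 0 + ε / 2) * (X : ℝ) ^ (1 - 1 / (k : ℝ) + 0 + ε / 2) := by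
    rw [← Real.mul_rpow (by norm_num) hXp.le]
    exact Real.rpow_le_rpow (by positivity) (by linarith) hα
  have h9 : (X : ℝ) ^ (1 - 1 / (k : ℝ) + ε) = (X : ℝ) ^ (1 - 1 / (k : ℝ) + 0 + ε / 2) * (X : ℝ) ^ (ε / 2) := by
    rw [← Real.rpow_add hXp]
    congr 1
    ring
  rw [h9]
  have h10 : 0 ≤ (X : ℝ) ^ (1 - 1 / (k : ℝ) + 0 + ε / 2) := by positivity
  nlinarith

end Pool.Agent.U518.WS
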