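import Mathlib

/-! Waring's problem with shifts, part O: `k` variables do not suffice. -/

set_option autoImplicit false

open Finset Filter

namespace Pool.Agent.U518.WS

/-- few values below `Y` -/
theorem card_I (θ Y : ℝ) (hY : 0 < Y) (M : ℕ) :
    (((range M).filter fun x : ℕ => 0 < (x : ℝ) + θ ∧ (x : ℝ) + θ < Y).card : ℝ) ≤ Y + 1 := by
  set mz : ℤ := ⌊-θ⌋ + 1 with hmz
  have h1 : ((range M).filter fun x : ℕ => 0 < (x : ℝ) + θ ∧ (x : ℝ) + θ < Y).card ≤ (range ⌈Y⌉₊).card := by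
    have hx : ∀ x : ℕ, 0 < (x : ℝ) + θ → (x : ℝ) + θ < Y → 0 ≤ (x : ℤ) - mz ∧ ((((x : ℤ) - mz).toNat : ℕ) : ℝ) < Y := by
      intro x hx1 hx2
      have h2 : (⌊-θ⌋ : ℝ) ≤ -θ := Int.floor_le _
      have h3 : -θ < (⌊-θ⌋ : ℝ) + 1 := Int.lt_floor_add_one _
      have h4 : (⌊-θ⌋ : ℝ) < x := by linarith
      have h5 : ⌊-θ⌋ < (x : ℤ) := by exact_mod_cast h4
      have h6 : 0 ≤ (x : ℤ) - mz := by omega
      refine ⟨h6, ?_⟩
      have h7 : (((((x : ℤ) - mz).toNat : ℕ) : ℤ) : ℝ) = (((x : ℤ) - mz : ℤ) : ℝ) := by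
        rw [Int.toNat_of_nonneg h6]
      push_cast at h7
      rw [h7, hmz]
      push_cast
      linarith
    apply card_le_card_of_injOn (fun x : ℕ => ((x : ℤ) - mz).toNat)
    · intro x hx'
      rw [mem_coe, mem_filter] at hx'
      obtain ⟨_, h2⟩ := hx x hx'.2.1 hx'.2.2
      rw [mem_coe, mem_range]
      have h3 : ((((x : ℤ) - mz).toNat : ℕ) : ℝ) < ⌈Y⌉₊ := lt_of_lt_of_le h2 (Nat.le_ceil _)
      exact_mod_cast h3
    · intro x hx' y hy' hxy
      rw [mem_coe, mem_filter] at hx' hy'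
      obtain ⟨h2, _⟩ := hx x hx'.2.1 hx'.2.2
      obtain ⟨h3, _⟩ := hx y hy'.2.1 hy'.2.2
      simp only at hxy
      omega
  rw [card_range] at h1
  have h2 : (⌈Y⌉₊ : ℝ) < Y + 1 := Nat.ceil_lt_add_one hY.le
  have h3 : (((range M).filter fun x : ℕ => 0 < (x : ℝ) + θ ∧ (x : ℝ) + θ < Y).card : ℝ) ≤ ⌈Y⌉₊ := by
    exact_mod_cast h1
  linarith

/-- many values between `ρ Y` and `Y` -/
theorem card_J (θ Y ρ : ℝ) (hY : 0 < Y) (hρ : ρ < 1) (hu : 0 ≤ ρ * Y - θ) (M : ℕ) (hM : Y - θ ≤ M) :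
    (1 - ρ) * Y - 1 ≤ (((range M).filter fun x : ℕ => ρ * Y < (x : ℝ) + θ ∧ (x : ℝ) + θ < Y).card : ℝ) := by
  have hpos : 0 < (1 - ρ) * Y := mul_pos (by linarith) hY
  have h1 : (range (⌈(1 - ρ) * Y⌉₊ - 1)).card ≤
      ((range M).filter fun x : ℕ => ρ * Y < (x : ℝ) + θ ∧ (x : ℝ) + θ < Y).card := by
    apply card_le_card_of_injOn (fun j : ℕ => ⌊ρ * Y - θ⌋₊ + 1 + j)
    · intro j hj
      rw [mem_coe, mem_range] at hj
      have h2 : (⌊ρ * Y - θ⌋₊ : ℝ) ≤ ρ * Y - θ := Nat.floor_le hu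
      have h3 : ρ * Y - θ < (⌊ρ * Y - θ⌋₊ : ℝ) + 1 := Nat.lt_floor_add_one _
      have h4 : (⌈(1 - ρ) * Y⌉₊ : ℝ) < (1 - ρ) * Y + 1 := Nat.ceil_lt_add_one hpos.le
      have h5 : j + 2 ≤ ⌈(1 - ρ) * Y⌉₊ := by omega
      have h6 : (j : ℝ) + 2 ≤ ⌈(1 - ρ) * Y⌉₊ := by exact_mod_cast h5
      have hj0 : (0 : ℝ) ≤ j := Nat.cast_nonneg j
      rw [mem_coe, mem_filter, mem_range]
      have h7 : ((⌊ρ * Y - θ⌋₊ + 1 + j : ℕ) : ℝ) + θ < Y := by
        push_cast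
        nlinarith
      refine ⟨?_, ?_, h7⟩
      · have h8 : ((⌊ρ * Y - θ⌋₊ + 1 + j : ℕ) : ℝ) < M := by linarith
        exact_mod_cast h8
      · push_cast
        linarith
    · intro a _ b _ hab
      simp only at hab
      omega
  rw [card_range] at h1
  have h2 : (1 - ρ) * Y ≤ (⌈(1 - ρ) * Y⌉₊ : ℝ) := Nat.le_ceil _
  have h3 : (((⌈(1 - ρ) * Y⌉₊ - 1 : ℕ)) : ℝ) ≤
      (((range M).filter fun x : ℕ => ρ * Y < (x : ℝ) + θ ∧ (x : ℝ) + θ < Y).card : ℝ) := by exact_mod_cast h1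
  have h4 : (⌈(1 - ρ) * Y⌉₊ : ℝ) ≤ ((⌈(1 - ρ) * Y⌉₊ - 1 : ℕ) : ℝ) + 1 := by
    have : ⌈(1 - ρ) * Y⌉₊ ≤ ⌈(1 - ρ) * Y⌉₊ - 1 + 1 := by omega
    exact_mod_cast this
  linarith

open Classical in
/-- **`k` shifted powers miss a positive proportion of the integers, for all shifts.** -/
theorem sharp (k : ℕ) (hk : 2 ≤ k) : ∃ c : ℝ, c < 1 ∧ ∀ θ : Fin k → ℝ, ∀ᶠ X : ℕ in atTop,
    (((range (X + 1)).filter fun n : ℕ => ∃ x : Fin k → ℕ, (∀ i, 0 < (x i : ℝ) + θ i) ∧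
      ⌊∑ i, ((x i : ℝ) + θ i) ^ k⌋ = (n : ℤ)).card : ℝ) ≤ c * X := by
  have hk0 : (2 : ℝ) ≤ k := by exact_mod_cast hk
  have hkne : k ≠ 0 := by omega
  set ρ : ℝ := (1 / (k : ℝ)) ^ ((k : ℝ)⁻¹) with hρ
  have hρk : ρ ^ k = 1 / k := Real.rpow_inv_natCast_pow (by positivity) hkne
  have hρ0 : 0 < ρ := by positivity
  have hρ1 : ρ < 1 := by
    by_contra hcon
    push Not at hcon
    have h1 : 1 ≤ ρ ^ k := one_le_pow₀ hcon
    rw [hρk] at h1
    have h2 : 1 / (k : ℝ) ≤ 1 / 2 := one_div_le_one_div_of_le (by norm_num) hk0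
    linarith
  set d : ℝ := (1 - ρ) ^ k with hd
  have hd0 : 0 < d := pow_pos (by linarith) k
  refine ⟨1 - d / 2, by linarith, fun θ => ?_⟩
  -- the limit
  have hlim : Tendsto (fun Y : ℝ => (1 + Y⁻¹) ^ k - ((1 - ρ) - Y⁻¹) ^ k) atTop (nhds (1 - d)) := by
    have h1 : Tendsto (fun Y : ℝ => Y⁻¹) atTop (nhds 0) := tendsto_inv_atTop_zero
    have h2 : Tendsto (fun Y : ℝ => (1 + Y⁻¹) ^ k - ((1 - ρ) - Y⁻¹) ^ k) atTop
        (nhds ((1 + 0) ^ k - ((1 - ρ) - 0) ^ k)) :=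
      ((h1.const_add 1).pow k).sub ((h1.const_sub (1 - ρ)).pow k)
    have h3 : ((1 : ℝ) + 0) ^ k - ((1 - ρ) - 0) ^ k = 1 - d := by rw [add_zero, one_pow, sub_zero, hd]
    rw [h3] at h2
    exact h2
  have hYt : Tendsto (fun X : ℕ => ((X : ℝ) + 1) ^ ((k : ℝ)⁻¹)) atTop atTop :=
    (tendsto_rpow_atTop (by positivity)).comp
      (tendsto_atTop_add_const_right _ _ tendsto_natCast_atTop_atTop)
  have hev1 : ∀ᶠ X : ℕ in atTop, (1 + (((X : ℝ) + 1) ^ ((k : ℝ)⁻¹))⁻¹) ^ k -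
      ((1 - ρ) - (((X : ℝ) + 1) ^ ((k : ℝ)⁻¹))⁻¹) ^ k < 1 - 3 / 4 * d :=
    (hlim.comp hYt).eventually_lt_const (by linarith)
  have hev2 : ∀ᶠ X : ℕ in atTop, ∀ i : Fin k, θ i / ρ ≤ ((X : ℝ) + 1) ^ ((k : ℝ)⁻¹) := by
    rw [eventually_all]
    intro i
    exact hYt.eventually_ge_atTop _
  have hev3 : ∀ᶠ X : ℕ in atTop, 1 / (1 - ρ) ≤ ((X : ℝ) + 1) ^ ((k : ℝ)⁻¹) := hYt.eventually_ge_atTop _
  have hev4 : ∀ᶠ X : ℕ in atTop, 4 / d ≤ (X : ℝ) := tendsto_natCast_atTop_atTop.eventually_ge_atTop _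
  filter_upwards [hev1, hev2, hev3, hev4] with X h1 h2 h3 h4
  set Y : ℝ := ((X : ℝ) + 1) ^ ((k : ℝ)⁻¹) with hY
  have hYp : 0 < Y := by positivity
  have hYk : Y ^ k = X + 1 := Real.rpow_inv_natCast_pow (by positivity) hkne
  obtain ⟨M, hM⟩ := exists_nat_ge (∑ i, (Y + |θ i|))
  have hMi : ∀ i, Y + |θ i| ≤ M := fun i =>
    (single_le_sum (f := fun i => Y + |θ i|) (fun _ _ => by positivity) (mem_univ i)).trans hM
  set I : Fin k → Finset ℕ := fun i => (range M).filter fun x : ℕ => 0 < (x : ℝ) + θ i ∧ (x : ℝ) + θ i < Y with hI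
  set J : Fin k → Finset ℕ := fun i => (range M).filter fun x : ℕ => ρ * Y < (x : ℝ) + θ i ∧ (x : ℝ) + θ i < Y with hJ
  have hJI : Fintype.piFinset J ⊆ Fintype.piFinset I := by
    apply Fintype.piFinset_subset
    intro i x hx
    rw [hJ] at hx
    rw [hI]
    simp only [mem_filter] at hx ⊢
    refine ⟨hx.1, lt_trans (by positivity) hx.2.1, hx.2.2⟩
  set R := (range (X + 1)).filter fun n : ℕ => ∃ x : Fin k → ℕ, (∀ i, 0 < (x i : ℝ) + θ i) ∧
      ⌊∑ i, ((x i : ℝ) + θ i) ^ k⌋ = (n : ℤ) with hR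
  have hchoose : ∀ n : ℕ, ∃ x : Fin k → ℕ, n ∈ R → ((∀ i, 0 < (x i : ℝ) + θ i) ∧
      ⌊∑ i, ((x i : ℝ) + θ i) ^ k⌋ = (n : ℤ)) := by
    intro n
    by_cases hn : n ∈ R
    · rw [hR, mem_filter] at hn
      obtain ⟨x, hx⟩ := hn.2
      exact ⟨x, fun _ => hx⟩
    · exact ⟨fun _ => 0, fun h => absurd h hn⟩
  choose f hf using hchoose
  have hcard : R.card ≤ (Fintype.piFinset I \ Fintype.piFinset J).card := by
    apply card_le_card_of_injOn f
    · intro n hn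
      rw [mem_coe] at hn
      obtain ⟨hp, hfl⟩ := hf n hn
      have hnX : n ≤ X := by
        have := (mem_filter.1 hn).1
        rw [mem_range] at this
        omega
      have hnX' : (n : ℝ) ≤ X := by exact_mod_cast hnX
      rw [Int.floor_eq_iff] at hfl
      have hsum : ∑ i, ((f n i : ℝ) + θ i) ^ k < X + 1 := by
        have := hfl.2
        push_cast at this
        linarith
      have hi : ∀ i, (f n i : ℝ) + θ i < Y := by
        intro i
        by_contra hcon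
        push Not at hcon
        have h5 : Y ^ k ≤ ((f n i : ℝ) + θ i) ^ k := pow_le_pow_left₀ hYp.le hcon k
        have h6 : ((f n i : ℝ) + θ i) ^ k ≤ ∑ i, ((f n i : ℝ) + θ i) ^ k :=
          single_le_sum (f := fun i => ((f n i : ℝ) + θ i) ^ k)
            (fun j _ => pow_nonneg (hp j).le k) (mem_univ i)
        rw [hYk] at h5
        linarith
      rw [coe_sdiff, Set.mem_sdiff, mem_coe, mem_coe, Fintype.mem_piFinset, Fintype.mem_piFinset]
      constructor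
      · intro i
        rw [hI]
        simp only [mem_filter, mem_range]
        refine ⟨?_, hp i, hi i⟩
        have h7 : (f n i : ℝ) < M := by
          have h8 := hMi i
          have h9 := neg_abs_le (θ i)
          linarith [hi i]
        exact_mod_cast h7
      · intro hall
        have h8 : ∀ i, (X + 1 : ℝ) / k ≤ ((f n i : ℝ) + θ i) ^ k := by
          intro i
          have h9 := hall i
          rw [hJ] at h9
          simp only [mem_filter] at h9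
          have h10 : (ρ * Y) ^ k ≤ ((f n i : ℝ) + θ i) ^ k := pow_le_pow_left₀ (by positivity) h9.2.1.le k
          rw [mul_pow, hρk, hYk] at h10
          refine le_trans (le_of_eq ?_) h10
          ring
        have h11 : (X + 1 : ℝ) ≤ ∑ i, ((f n i : ℝ) + θ i) ^ k := by
          calc (X + 1 : ℝ) = ∑ _i : Fin k, (X + 1 : ℝ) / k := by
                rw [sum_const, card_univ, Fintype.card_fin, nsmul_eq_mul]
                field_simp
            _ ≤ _ := sum_le_sum fun i _ => h8 i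
        linarith
    · intro a ha b hb hab
      obtain ⟨_, h5⟩ := hf a ha
      obtain ⟨_, h6⟩ := hf b hb
      rw [hab, h6] at h5
      exact_mod_cast h5.symm
  have hcI : (((Fintype.piFinset I).card : ℕ) : ℝ) ≤ (Y + 1) ^ k := by
    rw [Fintype.card_piFinset]
    push_cast
    calc ∏ i, ((I i).card : ℝ) ≤ ∏ _i : Fin k, (Y + 1) :=
          prod_le_prod (fun i _ => Nat.cast_nonneg _) fun i _ => card_I (θ i) Y hYp M
      _ = (Y + 1) ^ k := by simp
  have hcJ : ((1 - ρ) * Y - 1) ^ k ≤ (((Fintype.piFinset J).card : ℕ) : ℝ) := by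
    have hb0 : 0 ≤ (1 - ρ) * Y - 1 := by
      rw [div_le_iff₀ (by linarith)] at h3
      linarith
    rw [Fintype.card_piFinset]
    push_cast
    calc ((1 - ρ) * Y - 1) ^ k = ∏ _i : Fin k, ((1 - ρ) * Y - 1) := by simp
      _ ≤ ∏ i, ((J i).card : ℝ) := by
          apply prod_le_prod (fun i _ => hb0)
          intro i _
          apply card_J (θ i) Y ρ hYp hρ1
          · have h5 := h2 i
            rw [div_le_iff₀ hρ0] at h5
            linarith
          · have h6 := hMi i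
            have h7 := neg_abs_le (θ i)
            linarith
  have hcR : (R.card : ℝ) ≤ (Y + 1) ^ k - ((1 - ρ) * Y - 1) ^ k := by
    rw [card_sdiff_of_subset hJI] at hcard
    have h5 : (R.card : ℝ) ≤ ((Fintype.piFinset I).card : ℝ) - ((Fintype.piFinset J).card : ℝ) := by
      have h6 := card_le_card hJI
      have h7 : R.card + (Fintype.piFinset J).card ≤ (Fintype.piFinset I).card := by omega
      have h8 : (R.card : ℝ) + ((Fintype.piFinset J).card : ℝ) ≤ ((Fintype.piFinset I).card : ℝ) := by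
        exact_mod_cast h7
      linarith
    linarith
  have hfac : (Y + 1) ^ k - ((1 - ρ) * Y - 1) ^ k = (X + 1) * ((1 + Y⁻¹) ^ k - ((1 - ρ) - Y⁻¹) ^ k) := by
    rw [← hYk, mul_sub, ← mul_pow, ← mul_pow]
    congr 2
    · field_simp
    · field_simp
  rw [hfac] at hcR
  have h12 : (X + 1 : ℝ) * ((1 + Y⁻¹) ^ k - ((1 - ρ) - Y⁻¹) ^ k) ≤ (X + 1) * (1 - 3 / 4 * d) :=
    mul_le_mul_of_nonneg_left h1.le (by positivity)
  have h13 : (4 : ℝ) ≤ X * d := by
    rw [div_le_iff₀ hd0] at h4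
    exact h4
  have hd1 : d ≤ 1 := pow_le_one₀ (by linarith) (by linarith)
  nlinarith

end Pool.Agent.U518.WS
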