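import Mathlib
import Pool.Agent.U518.WS.B

/-! Waring's problem with shifts, part Q: one more random shift squares the density of the exceptional set. -/

set_option autoImplicit false

open Finset MeasureTheory

namespace Pool.Agent.U518.WS

/-- the indicator function -/
noncomputable def ind (B : Set ℝ) : ℝ → ENNReal := B.indicator fun _ => 1

theorem ind_meas (B : Set ℝ) (hB : MeasurableSet B) : Measurable (ind B) :=
  measurable_const.indicator hB

theorem ind_int (B : Set ℝ) (hB : MeasurableSet B) : ∫⁻ x, ind B x = volume B := by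
  unfold ind
  rw [lintegral_indicator_const hB, one_mul]

/-- the common bad values of `N - y ^ k` and `N - (y + 2 P) ^ k` -/
noncomputable def FB (k P : ℕ) (B : Set ℝ) (y : ℝ) : ENNReal :=
  ∫⁻ N, ind B (N - y ^ k) * ind B (N - (y + 2 * P) ^ k)

theorem FB_eq (k P : ℕ) (B : Set ℝ) (y : ℝ) :
    FB k P B y = ∫⁻ u, ind B u * ind B (u - gh k (2 * P) y) := by
  unfold FB
  have h := lintegral_sub_right_eq_self (μ := (volume : Measure ℝ))
    (fun u => ind B u * ind B (u - gh k (2 * P) y)) (y ^ k)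
  rw [← h]
  apply lintegral_congr
  intro N
  congr 2
  unfold gh
  ring

theorem gh_deriv_ge (k P : ℕ) (hk : 2 ≤ k) (hP : 1 ≤ P) (y : ℝ) (hy : (P : ℝ) ≤ y) :
    4 * (P : ℝ) ^ (k - 1) ≤ (k : ℝ) * ((y + 2 * P) ^ (k - 1) - y ^ (k - 1)) := by
  have hP0 : (1 : ℝ) ≤ P := by exact_mod_cast hP
  have hk0 : (2 : ℝ) ≤ k := by exact_mod_cast hk
  obtain ⟨j, rfl⟩ : ∃ j, k = j + 2 := ⟨k - 2, by omega⟩
  have h1 := pow_sub_ge j y (2 * P) (by linarith) (by linarith)
  have h2 : (P : ℝ) ^ j ≤ y ^ j := pow_le_pow_left₀ (by linarith) hy j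
  have h3 : 2 * (P : ℝ) ^ (j + 1) ≤ (y + 2 * P) ^ (j + 1) - y ^ (j + 1) := by
    refine le_trans ?_ h1
    calc 2 * (P : ℝ) ^ (j + 1) = 2 * P * (P : ℝ) ^ j := by ring
      _ ≤ 2 * P * y ^ j := mul_le_mul_of_nonneg_left h2 (by linarith)
  show 4 * (P : ℝ) ^ (j + 1) ≤ ((j + 2 : ℕ) : ℝ) * ((y + 2 * P) ^ (j + 1) - y ^ (j + 1))
  have h4 : (0 : ℝ) ≤ (P : ℝ) ^ (j + 1) := by positivity
  calc 4 * (P : ℝ) ^ (j + 1) = 2 * (2 * (P : ℝ) ^ (j + 1)) := by ring
    _ ≤ 2 * ((y + 2 * P) ^ (j + 1) - y ^ (j + 1)) := by linarith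
    _ ≤ _ := mul_le_mul_of_nonneg_right hk0 (by linarith)

/-- change of variables -/
theorem inner_le (k P : ℕ) (hk : 2 ≤ k) (hP : 1 ≤ P) (B : Set ℝ) (hB : MeasurableSet B) (u : ℝ) :
    ENNReal.ofReal (4 * (P : ℝ) ^ (k - 1)) * ∫⁻ y in Set.Ioc (P : ℝ) (2 * P), ind B (u - gh k (2 * P) y) ≤
      volume B := by
  have hP0 : (1 : ℝ) ≤ P := by exact_mod_cast hP
  set φ : ℝ → ℝ := fun y => u - gh k (2 * P) y with hφ
  set φ' : ℝ → ℝ := fun y => -((k : ℝ) * ((y + 2 * P) ^ (k - 1) - y ^ (k - 1))) with hφ'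
  have hd : ∀ y, HasDerivAt φ (φ' y) y := fun y => by
    have := (gh_deriv k (2 * P) y).const_sub u
    exact this
  have hder : ∀ y ∈ Set.Ioc (P : ℝ) (2 * P), HasDerivWithinAt φ (φ' y) (Set.Ioc (P : ℝ) (2 * P)) y :=
    fun y _ => (hd y).hasDerivWithinAt
  have hanti : StrictAntiOn φ (Set.Icc (P : ℝ) (2 * P)) := by
    apply strictAntiOn_of_deriv_neg (convex_Icc _ _)
    · exact continuousOn_of_forall_continuousAt fun y _ => (hd y).continuousAt
    · intro y hy
      rw [interior_Icc] at hy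
      rw [(hd y).deriv, hφ']
      have := gh_deriv_ge k P hk hP y hy.1.le
      have h2 : (0 : ℝ) < 4 * (P : ℝ) ^ (k - 1) := by positivity
      simp only
      linarith
  have hinj : Set.InjOn φ (Set.Ioc (P : ℝ) (2 * P)) :=
    hanti.injOn.mono Set.Ioc_subset_Icc_self
  have h := lintegral_image_eq_lintegral_abs_deriv_mul measurableSet_Ioc hder hinj (ind B)
  have h1 : ∫⁻ x in φ '' Set.Ioc (P : ℝ) (2 * P), ind B x ≤ volume B :=
    (setLIntegral_le_lintegral _ _).trans (ind_int B hB).le
  rw [h] at h1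
  refine le_trans ?_ h1
  rw [← lintegral_const_mul]
  · apply setLIntegral_mono'
    · exact measurableSet_Ioc
    intro y hy
    apply mul_le_mul_left
    apply ENNReal.ofReal_le_ofReal
    rw [hφ']
    simp only
    rw [abs_neg]
    have h3 := gh_deriv_ge k P hk hP y hy.1.le
    exact h3.trans (le_abs_self _)
  · apply (ind_meas B hB).comp
    apply Continuous.measurable
    unfold gh
    fun_prop

theorem FB_int (k P : ℕ) (hk : 2 ≤ k) (hP : 1 ≤ P) (B : Set ℝ) (hB : MeasurableSet B) :
    ENNReal.ofReal (4 * (P : ℝ) ^ (k - 1)) * ∫⁻ y in Set.Ioc (P : ℝ) (2 * P), FB k P B y ≤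
      volume B * volume B := by
  have hmeas : Measurable (Function.uncurry fun (y u : ℝ) => ind B u * ind B (u - gh k (2 * P) y)) := by
    apply Measurable.mul
    · exact (ind_meas B hB).comp measurable_snd
    · apply (ind_meas B hB).comp
      apply Continuous.measurable
      unfold gh
      fun_prop
  have h1 : ∫⁻ y in Set.Ioc (P : ℝ) (2 * P), FB k P B y =
      ∫⁻ u, ∫⁻ y in Set.Ioc (P : ℝ) (2 * P), ind B u * ind B (u - gh k (2 * P) y) := by
    rw [← lintegral_lintegral_swap hmeas.aemeasurable]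
    apply lintegral_congr
    intro y
    exact FB_eq k P B y
  rw [h1, ← lintegral_const_mul]
  · calc ∫⁻ u, ENNReal.ofReal (4 * (P : ℝ) ^ (k - 1)) *
          ∫⁻ y in Set.Ioc (P : ℝ) (2 * P), ind B u * ind B (u - gh k (2 * P) y) ≤
          ∫⁻ u, ind B u * volume B := by
          apply lintegral_mono
          intro u
          simp only
          rw [lintegral_const_mul]
          · rw [← mul_assoc, mul_comm (ENNReal.ofReal (4 * (P : ℝ) ^ (k - 1))) (ind B u), mul_assoc]
            exact mul_le_mul_right (inner_le k P hk hP B hB u) _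
          · apply (ind_meas B hB).comp
            apply Continuous.measurable
            unfold gh
            fun_prop
      _ = volume B * volume B := by
          rw [lintegral_mul_const _ (ind_meas B hB), ind_int B hB]
  · exact (hmeas.comp measurable_swap).lintegral_prod_right'

/-- **The squaring lemma.** -/
theorem squaring (k P A : ℕ) (m : ℤ) (hk : 2 ≤ k) (hP : 1 ≤ P) (hA : (A : ℤ) + m = P) (B : Set ℝ)
    (hB : MeasurableSet B) (Bd : ℝ → Set ℝ)
    (h : ∀ t ∈ Set.Ioc (m : ℝ) (m + 1), ∀ N ∈ Bd t, ENNReal.ofReal ((P : ℝ) / 2) ≤ ∑ x ∈ range P,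
      ind B (N - ((A : ℝ) + x + t) ^ k) * ind B (N - (((A : ℝ) + x + t) + 2 * P) ^ k)) :
    ∫⁻ t in Set.Ioc (m : ℝ) (m + 1), volume (Bd t) ≤
      volume B * volume B / ENNReal.ofReal (2 * (P : ℝ) ^ k) := by
  have hP0 : (1 : ℝ) ≤ P := by exact_mod_cast hP
  have hAr : (A : ℝ) + m = P := by exact_mod_cast hA
  have hFBm : Measurable (FB k P B) := by
    have h1 : FB k P B = fun y => ∫⁻ u, ind B u * ind B (u - gh k (2 * P) y) := funext (FB_eq k P B)
    rw [h1]
    have hmeas : Measurable (Function.uncurry fun (y u : ℝ) => ind B u * ind B (u - gh k (2 * P) y)) := by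
      apply Measurable.mul
      · exact (ind_meas B hB).comp measurable_snd
      · apply (ind_meas B hB).comp
        apply Continuous.measurable
        unfold gh
        fun_prop
    exact hmeas.lintegral_prod_right'
  -- for one `t`
  have h1 : ∀ t ∈ Set.Ioc (m : ℝ) (m + 1),
      ENNReal.ofReal ((P : ℝ) / 2) * volume (Bd t) ≤ ∑ x ∈ range P, FB k P B ((A : ℝ) + x + t) := by
    intro t ht
    have hm : ∀ x : ℕ, Measurable fun N : ℝ => ind B (N - ((A : ℝ) + x + t) ^ k) *
        ind B (N - (((A : ℝ) + x + t) + 2 * P) ^ k) := by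
      intro x
      apply Measurable.mul
      · exact (ind_meas B hB).comp (measurable_id.sub_const _)
      · exact (ind_meas B hB).comp (measurable_id.sub_const _)
    have h2 : ∑ x ∈ range P, FB k P B ((A : ℝ) + x + t) = ∫⁻ N, ∑ x ∈ range P,
        ind B (N - ((A : ℝ) + x + t) ^ k) * ind B (N - (((A : ℝ) + x + t) + 2 * P) ^ k) := by
      rw [lintegral_finsetSum _ fun x _ => hm x]
      rfl
    rw [h2]
    refine le_trans ?_ (mul_meas_ge_le_lintegral₀ (Finset.measurable_fun_sum _ fun x _ => hm x).aemeasurable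
      (ENNReal.ofReal ((P : ℝ) / 2)))
    apply mul_le_mul_right
    exact measure_mono fun N hN => h t ht N hN
  have h2 : ENNReal.ofReal ((P : ℝ) / 2) * ∫⁻ t in Set.Ioc (m : ℝ) (m + 1), volume (Bd t) ≤
      ∫⁻ y in Set.Ioc (P : ℝ) (2 * P), FB k P B y := by
    calc ENNReal.ofReal ((P : ℝ) / 2) * ∫⁻ t in Set.Ioc (m : ℝ) (m + 1), volume (Bd t) ≤
          ∫⁻ t in Set.Ioc (m : ℝ) (m + 1), ENNReal.ofReal ((P : ℝ) / 2) * volume (Bd t) :=
          lintegral_const_mul_le _ _
      _ ≤ ∫⁻ t in Set.Ioc (m : ℝ) (m + 1), ∑ x ∈ range P, FB k P B ((A : ℝ) + x + t) :=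
          setLIntegral_mono' measurableSet_Ioc h1
      _ = ∑ x ∈ range P, ∫⁻ t in Set.Ioc (m : ℝ) (m + 1), FB k P B ((A : ℝ) + x + t) := by
          rw [lintegral_finsetSum]
          intro x _
          exact hFBm.comp (measurable_const_add _)
      _ = ∑ x ∈ range P, ∫⁻ y in Set.Ioc ((P : ℝ) + x) ((P : ℝ) + x + 1), FB k P B y := by
          apply sum_congr rfl
          intro x _
          have h3 := (measurePreserving_add_left (volume : Measure ℝ) ((A : ℝ) + x)).setLIntegral_comp_preimage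
            (s := Set.Ioc ((P : ℝ) + x) ((P : ℝ) + x + 1)) measurableSet_Ioc hFBm
          rw [← h3]
          have h4 : (fun t : ℝ => (A : ℝ) + x + t) ⁻¹' Set.Ioc ((P : ℝ) + x) ((P : ℝ) + x + 1) =
              Set.Ioc (m : ℝ) (m + 1) := by
            ext t
            simp only [Set.mem_preimage, Set.mem_Ioc]
            constructor
            · rintro ⟨h5, h6⟩; constructor <;> linarith
            · rintro ⟨h5, h6⟩; constructor <;> linarith
          rw [h4]
      _ = ∫⁻ y in ⋃ x ∈ range P, Set.Ioc ((P : ℝ) + x) ((P : ℝ) + x + 1), FB k P B y := by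
          rw [lintegral_biUnion_finset]
          · intro a _ b _ hab
            rw [Function.onFun, Set.disjoint_left]
            intro y hy hy'
            apply hab
            have h5 : (a : ℝ) < b + 1 := by linarith [hy.1, hy'.2]
            have h6 : (b : ℝ) < a + 1 := by linarith [hy'.1, hy.2]
            have h7 : a < b + 1 := by exact_mod_cast h5
            have h8 : b < a + 1 := by exact_mod_cast h6
            omega
          · intro x _
            exact measurableSet_Ioc
      _ ≤ _ := by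
          apply lintegral_mono_set
          intro y hy
          rw [Set.mem_iUnion₂] at hy
          obtain ⟨x, hx, hy1, hy2⟩ := hy
          rw [mem_range] at hx
          have h5 : (x : ℝ) + 1 ≤ P := by exact_mod_cast hx
          have h6 : (0 : ℝ) ≤ x := Nat.cast_nonneg x
          constructor <;> linarith
  have h3 : ENNReal.ofReal (2 * (P : ℝ) ^ k) * ∫⁻ t in Set.Ioc (m : ℝ) (m + 1), volume (Bd t) ≤
      volume B * volume B := by
    refine le_trans ?_ (FB_int k P hk hP B hB)
    have h4 : ENNReal.ofReal (2 * (P : ℝ) ^ k) = ENNReal.ofReal (4 * (P : ℝ) ^ (k - 1)) *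
        ENNReal.ofReal ((P : ℝ) / 2) := by
      rw [← ENNReal.ofReal_mul (by positivity)]
      congr 1
      have h5 : (P : ℝ) ^ k = (P : ℝ) ^ (k - 1) * P := by
        rw [← pow_succ]
        congr 1
        omega
      rw [h5]
      ring
    rw [h4, mul_assoc]
    exact mul_le_mul_right h2 _
  rw [ENNReal.le_div_iff_mul_le (Or.inl (by
    rw [ne_eq, ENNReal.ofReal_eq_zero, not_le]; positivity)) (Or.inl ENNReal.ofReal_ne_top), mul_comm]
  exact h3

end Pool.Agent.U518.WS
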