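import Mathlib
import Pool.Agent.U518.WS.N
import Pool.Agent.U518.WS.Q

/-! Waring's problem with shifts, part R: many solutions, measurability. -/

set_option autoImplicit false

open Finset MeasureTheory

namespace Pool.Agent.U518.WS

/-- at least `m` solutions within `δ` of `N` -/
def ManyS (s k : ℕ) (θ : Fin s → ℝ) (N δ m : ℝ) : Prop :=
  ∃ A : Finset (Fin s → ℕ),
    (∀ x ∈ A, (∀ i, 0 < (x i : ℝ) + θ i) ∧ |∑ i, ((x i : ℝ) + θ i) ^ k - N| < δ) ∧ m ≤ (A.card : ℝ)

/-- the numbers with few solutions -/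
def BadS (s k : ℕ) (τ lam c : ℝ) (θ : Fin s → ℝ) : Set ℝ :=
  {N | 0 < N ∧ ¬ ManyS s k θ N (lam * N ^ (-τ)) (c * N ^ ((s : ℝ) / k - 1 - τ))}

theorem meas_graph (s k : ℕ) (τ lam c : ℝ) :
    MeasurableSet {p : (Fin s → ℝ) × ℝ | p.2 ∈ BadS s k τ lam c p.1} := by
  rw [measurableSet_setOf]
  unfold BadS ManyS
  simp only [Set.mem_setOf_eq]
  apply Measurable.and
  · exact measurableSet_setOf.1 (measurableSet_lt measurable_const measurable_snd)
  apply Measurable.not
  apply Measurable.exists
  intro A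
  apply Measurable.and
  · apply Measurable.forall
    intro x
    apply Measurable.imp measurable_const
    apply Measurable.and
    · apply Measurable.forall
      intro i
      apply measurableSet_setOf.1
      apply measurableSet_lt measurable_const
      exact measurable_const.add ((measurable_pi_apply i).comp measurable_fst)
    · apply measurableSet_setOf.1
      apply measurableSet_lt
      · apply Continuous.measurable
        fun_prop
      · exact measurable_const.mul (measurable_snd.pow_const _)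
  · apply measurableSet_setOf.1
    apply measurableSet_le
    · exact measurable_const.mul (measurable_snd.pow_const _)
    · exact measurable_const

theorem meas_win (s k : ℕ) (τ lam c u v : ℝ) :
    Measurable fun θ : Fin s → ℝ => volume (BadS s k τ lam c θ ∩ Set.Ioc u v) := by
  have h : MeasurableSet ({p : (Fin s → ℝ) × ℝ | p.2 ∈ BadS s k τ lam c p.1} ∩ {p | p.2 ∈ Set.Ioc u v}) :=
    (meas_graph s k τ lam c).inter (measurable_snd measurableSet_Ioc)
  exact measurable_measure_prodMk_left h

theorem meas_bad (s k : ℕ) (τ lam c : ℝ) (θ : Fin s → ℝ) : MeasurableSet (BadS s k τ lam c θ) := by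
  have h := measurable_prodMk_left (x := θ) (meas_graph s k τ lam c)
  exact h

/-- the bound for the windows -/
def QP (s k : ℕ) (τ lam c a : ℝ) (θ : Fin s → ℝ) : Prop :=
  ∀ j : ℕ, ∃ n0 : ℕ, ∀ n : ℕ, n0 ≤ n → volume (BadS s k τ lam c θ ∩ Set.Ioc ((2 : ℝ) ^ n) (2 ^ (n + 1))) ≤
    ENNReal.ofReal (((2 : ℝ) ^ n) ^ (1 - a + 1 / ((j : ℝ) + 1)))

theorem meas_QP (s k : ℕ) (τ lam c a : ℝ) : MeasurableSet {θ : Fin s → ℝ | QP s k τ lam c a θ} := by
  rw [measurableSet_setOf]
  unfold QP
  apply Measurable.forall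
  intro j
  apply Measurable.exists
  intro n0
  apply Measurable.forall
  intro n
  apply Measurable.imp measurable_const
  apply measurableSet_setOf.1
  exact measurableSet_le (meas_win s k τ lam c _ _) measurable_const

/-- Fubini for almost all shifts -/
theorem ae_cons (s : ℕ) (Qp : (Fin (s + 1) → ℝ) → Prop) (hQ : MeasurableSet {θ | Qp θ})
    (h : ∀ᵐ θ' : Fin s → ℝ, ∀ᵐ t : ℝ, Qp (Fin.cons t θ' : Fin (s + 1) → ℝ)) :
    ∀ᵐ θ : Fin (s + 1) → ℝ, Qp θ := by
  set e := MeasurableEquiv.piFinSuccAbove (fun _ : Fin (s + 1) => ℝ) 0 with he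
  have hmp : MeasurePreserving e volume volume := volume_preserving_piFinSuccAbove (fun _ : Fin (s + 1) => ℝ) 0
  have hcons : ∀ z : ℝ × (Fin s → ℝ), e.symm z = (Fin.cons z.1 z.2 : Fin (s + 1) → ℝ) := by
    intro z
    rw [he]
    funext i
    refine Fin.cases ?_ (fun i => ?_) i
    · simp [MeasurableEquiv.piFinSuccAbove]
    · simp [MeasurableEquiv.piFinSuccAbove]
  have hms : MeasurableSet {z : ℝ × (Fin s → ℝ) | Qp (e.symm z)} := e.symm.measurable hQ
  have hms' : MeasurableSet {z : (Fin s → ℝ) × ℝ | Qp (e.symm (z.2, z.1))} := measurable_swap hms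
  have h1 : ∀ᵐ z : (Fin s → ℝ) × ℝ ∂((volume : Measure (Fin s → ℝ)).prod (volume : Measure ℝ)),
      Qp (e.symm (z.2, z.1)) := by
    rw [Measure.ae_prod_iff_ae_ae hms']
    filter_upwards [h] with θ' hθ'
    filter_upwards [hθ'] with t ht
    rw [hcons]
    exact ht
  have h2 : ∀ᵐ z : ℝ × (Fin s → ℝ) ∂((volume : Measure ℝ).prod (volume : Measure (Fin s → ℝ))),
      Qp (e.symm z) := by
    have h3 := (Measure.measurePreserving_swap (μ := (volume : Measure ℝ))
      (ν := (volume : Measure (Fin s → ℝ)))).quasiMeasurePreserving.ae h1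
    exact h3
  have h3 := hmp.quasiMeasurePreserving.ae h2
  filter_upwards [h3] with θ hθ
  rw [e.symm_apply_apply] at hθ
  exact hθ

theorem meas_cons (s : ℕ) (θ' : Fin s → ℝ) : Measurable fun t : ℝ => (Fin.cons t θ' : Fin (s + 1) → ℝ) := by
  rw [measurable_pi_iff]
  intro i
  refine Fin.cases ?_ (fun i => ?_) i
  · simp only [Fin.cons_zero]
    exact measurable_id
  · simp only [Fin.cons_succ]
    exact measurable_const

end Pool.Agent.U518.WS
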