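import Mathlib
import Pool.Agent.U518.WS.R

/-! Waring's problem with shifts, part S: one more shift, pointwise. -/

set_option autoImplicit false

open Finset MeasureTheory

namespace Pool.Agent.U518.WS

theorem ManyS.mono {s k : ℕ} {θ : Fin s → ℝ} {N δ δ' m m' : ℝ} (h : ManyS s k θ N δ m) (hδ : δ ≤ δ')
    (hm : m' ≤ m) : ManyS s k θ N δ' m' := by
  obtain ⟨A, h1, h2⟩ := h
  exact ⟨A, fun x hx => ⟨(h1 x hx).1, lt_of_lt_of_le (h1 x hx).2 hδ⟩, hm.trans h2⟩

/-- combining the solutions for many values of the new variable -/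
theorem combine (s k : ℕ) (θ' : Fin s → ℝ) (t N δ M : ℝ) (Y : Finset ℕ)
    (hY : ∀ z ∈ Y, 0 < (z : ℝ) + t ∧ ManyS s k θ' (N - ((z : ℝ) + t) ^ k) δ M) :
    ManyS (s + 1) k (Fin.cons t θ' : Fin (s + 1) → ℝ) N δ (Y.card * M) := by
  classical
  choose! F hF using fun z hz => (hY z hz).2
  refine ⟨Y.biUnion fun z => (F z).image fun x => (Fin.cons z x : Fin (s + 1) → ℕ), ?_, ?_⟩
  · intro x hx
    rw [mem_biUnion] at hx
    obtain ⟨z, hz, hx⟩ := hx
    rw [mem_image] at hx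
    obtain ⟨x', hx', rfl⟩ := hx
    obtain ⟨h1, h2⟩ := (hF z hz).1 x' hx'
    refine ⟨fun i => ?_, ?_⟩
    · refine Fin.cases ?_ (fun i => ?_) i
      · simpa using (hY z hz).1
      · simpa using h1 i
    · rw [Fin.sum_univ_succ]
      simp only [Fin.cons_zero, Fin.cons_succ]
      have h3 : ((z : ℝ) + t) ^ k + ∑ i, ((x' i : ℝ) + θ' i) ^ k - N =
          ∑ i, ((x' i : ℝ) + θ' i) ^ k - (N - ((z : ℝ) + t) ^ k) := by ring
      rw [h3]
      exact h2
  · rw [card_biUnion]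
    · push_cast
      rw [← nsmul_eq_mul]
      apply card_nsmul_le_sum
      intro z hz
      rw [card_image_of_injective]
      · exact (hF z hz).2
      · intro x x' h
        exact Fin.cons_right_injective (α := fun _ : Fin (s + 1) => ℕ) z h
    · intro z _ z' _ hzz'
      rw [Function.onFun, Finset.disjoint_left]
      intro x hx hx'
      rw [mem_image] at hx hx'
      obtain ⟨a, _, rfl⟩ := hx
      obtain ⟨b, _, hb⟩ := hx'
      apply hzz'
      have := congrFun hb 0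
      simpa using this.symm

/-- **The pointwise step**: a bad number for `s + 1` variables has many pairs of bad numbers for `s` variables. -/
theorem pointwise (s k : ℕ) (hk : 2 ≤ k) (τ lam c : ℝ) (hτ : 0 ≤ τ) (hlam : 0 < lam) (hc : 0 < c)
    (he : 0 ≤ (s : ℝ) / k - 1 - τ) (θ' : Fin s → ℝ) (t : ℝ) (m : ℤ) (ht : t ∈ Set.Ioc (m : ℝ) (m + 1))
    (P A : ℕ) (hP : 1 ≤ P) (hA : (A : ℤ) + m = P) (X : ℝ) (hX : 0 < X) (hPX : (4 * (P : ℝ)) ^ k ≤ X / 2)
    (hXP : X / 2 ≤ (8 * (P : ℝ)) ^ k) (N : ℝ) (hN1 : X < N) (hN2 : N ≤ 2 * X)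
    (hN : N ∈ BadS (s + 1) k τ lam (c / (32 * 2 ^ ((s : ℝ) / k - 1 - τ))) (Fin.cons t θ' : Fin (s + 1) → ℝ)) :
    ENNReal.ofReal ((P : ℝ) / 2) ≤ ∑ x ∈ range P,
      ind (BadS s k τ (lam * 2 ^ (-τ)) c θ' ∩ Set.Ioc (X / 2) (2 * X)) (N - ((A : ℝ) + x + t) ^ k) *
      ind (BadS s k τ (lam * 2 ^ (-τ)) c θ' ∩ Set.Ioc (X / 2) (2 * X)) (N - (((A : ℝ) + x + t) + 2 * P) ^ k) := by
  classical
  set e : ℝ := (s : ℝ) / k - 1 - τ with hedef
  set B : Set ℝ := BadS s k τ (lam * 2 ^ (-τ)) c θ' ∩ Set.Ioc (X / 2) (2 * X) with hB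
  have hk0 : (2 : ℝ) ≤ k := by exact_mod_cast hk
  have hkp : (0 : ℝ) < k := by linarith
  have hP0 : (1 : ℝ) ≤ P := by exact_mod_cast hP
  have hAr : (A : ℝ) + m = P := by exact_mod_cast hA
  have hNp : 0 < N := by linarith
  -- the good `x`
  set G : Finset ℕ := (range P).filter fun x => ¬ ((N - ((A : ℝ) + x + t) ^ k) ∈ B ∧
    (N - (((A : ℝ) + x + t) + 2 * P) ^ k) ∈ B) with hG
  by_contra hcon
  rw [not_le] at hcon
  have hsum : ∑ x ∈ range P, ind B (N - ((A : ℝ) + x + t) ^ k) *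
      ind B (N - (((A : ℝ) + x + t) + 2 * P) ^ k) = (((range P).filter fun x : ℕ =>
        ((N - ((A : ℝ) + x + t) ^ k) ∈ B ∧ (N - (((A : ℝ) + x + t) + 2 * P) ^ k) ∈ B)).card : ENNReal) := by
    rw [card_filter]
    push_cast
    apply sum_congr rfl
    intro x _
    unfold ind
    by_cases h1 : (N - ((A : ℝ) + x + t) ^ k) ∈ B
    · by_cases h2 : (N - (((A : ℝ) + x + t) + 2 * P) ^ k) ∈ B
      · simp [h1, h2]
      · simp [h1, h2]
    · simp [h1]
  rw [hsum] at hcon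
  have hcard : (((range P).filter fun x : ℕ =>
        ((N - ((A : ℝ) + x + t) ^ k) ∈ B ∧ (N - (((A : ℝ) + x + t) + 2 * P) ^ k) ∈ B)).card : ℝ) < (P : ℝ) / 2 := by
    rw [← ENNReal.ofReal_natCast, ENNReal.ofReal_lt_ofReal_iff (by linarith)] at hcon
    exact hcon
  have hGc : (P : ℝ) / 2 ≤ G.card := by
    have h1 : ((range P).filter fun x : ℕ =>
        ((N - ((A : ℝ) + x + t) ^ k) ∈ B ∧ (N - (((A : ℝ) + x + t) + 2 * P) ^ k) ∈ B)).card + G.card =
        (range P).card := card_filter_add_card_filter_not _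
    rw [card_range] at h1
    have h2 := congrArg (fun n : ℕ => (n : ℝ)) h1
    simp only [Nat.cast_add] at h2
    linarith
  set z : ℕ → ℕ := fun x => if (N - ((A : ℝ) + x + t) ^ k) ∈ B then A + x + 2 * P else A + x with hz
  have hzinj : Set.InjOn z G := by
    intro x hx y hy hxy
    rw [mem_coe, hG, mem_filter, mem_range] at hx hy
    simp only [hz] at hxy
    split_ifs at hxy <;> omega
  have hzB : ∀ x ∈ G, (N - ((z x : ℝ) + t) ^ k) ∉ B := by
    intro x hx
    rw [hG, mem_filter] at hx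
    simp only [hz]
    split_ifs with h1
    · intro h2
      apply hx.2
      refine ⟨h1, ?_⟩
      have h3 : (((A + x + 2 * P : ℕ) : ℝ) + t) = ((A : ℝ) + x + t) + 2 * P := by
        push_cast
        ring
      rw [h3] at h2
      exact h2
    · have h3 : (((A + x : ℕ) : ℝ) + t) = (A : ℝ) + x + t := by
        push_cast
        ring
      rw [h3]
      exact h1
  have hzr : ∀ x ∈ G, 0 < (z x : ℝ) + t ∧ (z x : ℝ) + t ≤ 4 * P := by
    intro x hx
    rw [hG, mem_filter, mem_range] at hx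
    have h1 : (x : ℝ) + 1 ≤ P := by exact_mod_cast hx.1
    have h2 : (0 : ℝ) ≤ x := Nat.cast_nonneg x
    simp only [hz]
    split_ifs with h1
    · push_cast
      constructor <;> linarith [ht.1, ht.2]
    · push_cast
      constructor <;> linarith [ht.1, ht.2]
  -- the number of solutions
  have hmany : ∀ u ∈ G.image z, 0 < (u : ℝ) + t ∧
      ManyS s k θ' (N - ((u : ℝ) + t) ^ k) (lam * N ^ (-τ)) (c * (N / 2) ^ e) := by
    intro u hu
    rw [mem_image] at hu
    obtain ⟨x, hx, rfl⟩ := hu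
    obtain ⟨h1, h2⟩ := hzr x hx
    refine ⟨h1, ?_⟩
    have h3 : ((z x : ℝ) + t) ^ k ≤ X / 2 := (pow_le_pow_left₀ h1.le h2 k).trans hPX
    have h4 : 0 < ((z x : ℝ) + t) ^ k := pow_pos h1 k
    set u : ℝ := N - ((z x : ℝ) + t) ^ k with hu
    have hu1 : N / 2 ≤ u := by rw [hu]; linarith
    have hu1' : X / 2 < u := by rw [hu]; linarith
    have hu2 : u ≤ 2 * X := by rw [hu]; linarith
    have hup : 0 < u := by linarith
    have h5 : u ∉ BadS s k τ (lam * 2 ^ (-τ)) c θ' := fun h => hzB x hx ⟨h, hu1', hu2⟩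
    have h6 : ManyS s k θ' u (lam * 2 ^ (-τ) * u ^ (-τ)) (c * u ^ e) := by
      by_contra h7
      exact h5 ⟨hup, h7⟩
    apply h6.mono
    · rw [mul_assoc, ← Real.mul_rpow (by norm_num) hup.le]
      apply mul_le_mul_of_nonneg_left _ hlam.le
      exact Real.rpow_le_rpow_of_nonpos hNp (by linarith) (by linarith)
    · apply mul_le_mul_of_nonneg_left _ hc.le
      exact Real.rpow_le_rpow (by linarith) hu1 he
  have hres := combine s k θ' t N (lam * N ^ (-τ)) (c * (N / 2) ^ e) (G.image z) hmany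
  rw [card_image_of_injOn hzinj] at hres
  apply hN.2
  refine hres.mono le_rfl ?_
  -- the numerical inequality
  have h1 : ((s + 1 : ℕ) : ℝ) / k - 1 - τ = e + 1 / k := by
    rw [hedef]
    push_cast
    ring
  rw [h1, Real.rpow_add hNp]
  have h2 : N ^ (1 / (k : ℝ)) ≤ 16 * P := by
    have h3 : N ≤ (16 * (P : ℝ)) ^ k := by
      have h4 : (16 * (P : ℝ)) ^ k = 2 ^ k * (8 * (P : ℝ)) ^ k := by
        rw [← mul_pow]
        congr 1
        ring
      have h5 : (4 : ℝ) ≤ 2 ^ k := by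
        calc (4 : ℝ) = 2 ^ 2 := by norm_num
          _ ≤ 2 ^ k := pow_le_pow_right₀ (by norm_num) hk
      rw [h4]
      have h6 : (0 : ℝ) ≤ (8 * (P : ℝ)) ^ k := by positivity
      nlinarith
    calc N ^ (1 / (k : ℝ)) ≤ ((16 * (P : ℝ)) ^ k) ^ (1 / (k : ℝ)) :=
          Real.rpow_le_rpow hNp.le h3 (by positivity)
      _ = 16 * P := by
          rw [← Real.rpow_natCast, ← Real.rpow_mul (by positivity), mul_one_div_cancel hkp.ne', Real.rpow_one]
  have h3 : (N / 2) ^ e = N ^ e / 2 ^ e := Real.div_rpow hNp.le (by norm_num) e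
  rw [h3]
  have h4 : 0 < N ^ e := Real.rpow_pos_of_pos hNp _
  have h5 : (0 : ℝ) < 2 ^ e := Real.rpow_pos_of_pos (by norm_num) _
  have h6 : c / (32 * 2 ^ e) * (N ^ e * N ^ (1 / (k : ℝ))) = (N ^ (1 / (k : ℝ)) / 32) * (c * (N ^ e / 2 ^ e)) := by
    field_simp
  rw [h6]
  apply mul_le_mul_of_nonneg_right _ (by positivity)
  linarith

end Pool.Agent.U518.WS
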