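import Mathlib
import Pool.Agent.U518.WS.S

/-! Waring's problem with shifts, part T: one more shift, almost surely. -/

set_option autoImplicit false

open Finset MeasureTheory

namespace Pool.Agent.U518.WS

theorem vol_B (s k : ℕ) (τ lam c b : ℝ) (θ' : Fin s → ℝ) (n0 : ℕ)
    (h : ∀ n, n0 ≤ n → volume (BadS s k τ lam c θ' ∩ Set.Ioc ((2 : ℝ) ^ n) (2 ^ (n + 1))) ≤
      ENNReal.ofReal (((2 : ℝ) ^ n) ^ b)) (n : ℕ) (hn : n0 + 1 ≤ n) :
    volume (BadS s k τ lam c θ' ∩ Set.Ioc ((2 : ℝ) ^ n / 2) (2 * 2 ^ n)) ≤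
      ENNReal.ofReal ((1 + 2 ^ (-b)) * ((2 : ℝ) ^ n) ^ b) := by
  obtain ⟨n, rfl⟩ : ∃ n', n = n' + 1 := ⟨n - 1, by omega⟩
  have h1 := h n (by omega)
  have h2 := h (n + 1) (by omega)
  have hsub : BadS s k τ lam c θ' ∩ Set.Ioc ((2 : ℝ) ^ (n + 1) / 2) (2 * 2 ^ (n + 1)) ⊆
      (BadS s k τ lam c θ' ∩ Set.Ioc ((2 : ℝ) ^ n) (2 ^ (n + 1))) ∪
      (BadS s k τ lam c θ' ∩ Set.Ioc ((2 : ℝ) ^ (n + 1)) (2 ^ (n + 1 + 1))) := by
    rintro N ⟨hN, hN1, hN2⟩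
    have e1 : (2 : ℝ) ^ (n + 1) / 2 = 2 ^ n := by rw [pow_succ]; ring
    have e2 : (2 : ℝ) * 2 ^ (n + 1) = 2 ^ (n + 1 + 1) := by ring
    rw [e1] at hN1
    rw [e2] at hN2
    by_cases h3 : N ≤ 2 ^ (n + 1)
    · exact Or.inl ⟨hN, hN1, h3⟩
    · exact Or.inr ⟨hN, not_le.1 h3, hN2⟩
  refine (measure_mono hsub).trans ((measure_union_le _ _).trans ((add_le_add h1 h2).trans ?_))
  rw [← ENNReal.ofReal_add (by positivity) (by positivity)]
  apply ENNReal.ofReal_le_ofReal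
  have h3 : ((2 : ℝ) ^ n) ^ b = 2 ^ (-b) * ((2 : ℝ) ^ (n + 1)) ^ b := by
    have h4 : ((2 : ℝ) ^ n) = 2⁻¹ * 2 ^ (n + 1) := by rw [pow_succ]; ring
    rw [h4, Real.mul_rpow (by norm_num) (by positivity), Real.inv_rpow (by norm_num),
      Real.rpow_neg (by norm_num)]
  rw [h3]
  linarith

/-- the expectation of the bad set in a window -/
theorem window_int (s k : ℕ) (hk : 2 ≤ k) (τ lam c : ℝ) (hτ : 0 ≤ τ) (hlam : 0 < lam) (hc : 0 < c)
    (he : 0 ≤ (s : ℝ) / k - 1 - τ) (b : ℝ) (θ' : Fin s → ℝ) (n0 : ℕ)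
    (h : ∀ n, n0 ≤ n → volume (BadS s k τ (lam * 2 ^ (-τ)) c θ' ∩ Set.Ioc ((2 : ℝ) ^ n) (2 ^ (n + 1))) ≤
      ENNReal.ofReal (((2 : ℝ) ^ n) ^ b)) (m : ℤ) :
    ∃ n1 : ℕ, ∀ n, n1 ≤ n → ∫⁻ t in Set.Ioc (m : ℝ) (m + 1),
      volume (BadS (s + 1) k τ lam (c / (32 * 2 ^ ((s : ℝ) / k - 1 - τ))) (Fin.cons t θ' : Fin (s + 1) → ℝ) ∩
        Set.Ioc ((2 : ℝ) ^ n) (2 ^ (n + 1))) ≤
      ENNReal.ofReal (((1 + 2 ^ (-b)) ^ 2 * 8 ^ k) * ((2 : ℝ) ^ n) ^ (2 * b - 1)) := by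
  have hk0 : (2 : ℝ) ≤ k := by exact_mod_cast hk
  have hkp : (0 : ℝ) < k := by linarith
  have htend : Filter.Tendsto (fun n : ℕ => ((2 : ℝ) ^ n / 2) ^ (1 / (k : ℝ)) / 4) Filter.atTop Filter.atTop := by
    apply Filter.Tendsto.atTop_div_const (by norm_num)
    apply (tendsto_rpow_atTop (by positivity : 0 < 1 / (k : ℝ))).comp
    apply Filter.Tendsto.atTop_div_const (by norm_num)
    exact tendsto_pow_atTop_atTop_of_one_lt (by norm_num)
  obtain ⟨n1, hn1⟩ := Filter.eventually_atTop.1 (htend.eventually_ge_atTop (max 1 ((m : ℝ) + 1)))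
  refine ⟨max n1 (n0 + 1), fun n hn => ?_⟩
  have hr := hn1 n ((le_max_left _ _).trans hn)
  set X : ℝ := (2 : ℝ) ^ n with hX
  have hXp : 0 < X := by positivity
  set r : ℝ := (X / 2) ^ (1 / (k : ℝ)) with hrdef
  have hr0 : 0 < r := by positivity
  have hrk : r ^ k = X / 2 := by
    rw [hrdef, ← Real.rpow_natCast, ← Real.rpow_mul (by positivity), one_div_mul_cancel hkp.ne', Real.rpow_one]
  set P : ℕ := ⌊r / 4⌋₊ with hP
  have hr1 : 1 ≤ r / 4 := (le_max_left _ _).trans hr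
  have hr2 : (m : ℝ) + 1 ≤ r / 4 := (le_max_right _ _).trans hr
  have hP1 : 1 ≤ P := by
    rw [hP]
    exact (Nat.one_le_floor_iff _).2 hr1
  have hP1r : (1 : ℝ) ≤ P := by exact_mod_cast hP1
  have hPle : (P : ℝ) ≤ r / 4 := Nat.floor_le (by positivity)
  have hPlt : r / 4 < P + 1 := Nat.lt_floor_add_one _
  have hPm : m ≤ (P : ℤ) := by
    have h1 : (m : ℝ) < P := by linarith
    have h2 : m < (P : ℤ) := by exact_mod_cast h1
    exact h2.le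
  have hA : (((P : ℤ) - m).toNat : ℤ) + m = P := by
    rw [Int.toNat_of_nonneg (by omega)]
    ring
  have hPX : (4 * (P : ℝ)) ^ k ≤ X / 2 := by
    rw [← hrk]
    exact pow_le_pow_left₀ (by positivity) (by linarith) k
  have hXP : X / 2 ≤ (8 * (P : ℝ)) ^ k := by
    rw [← hrk]
    exact pow_le_pow_left₀ hr0.le (by linarith) k
  set B : Set ℝ := BadS s k τ (lam * 2 ^ (-τ)) c θ' ∩ Set.Ioc (X / 2) (2 * X) with hB
  have hBm : MeasurableSet B := (meas_bad s k τ _ c θ').inter measurableSet_Ioc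
  have hBv : volume B ≤ ENNReal.ofReal ((1 + 2 ^ (-b)) * X ^ b) :=
    vol_B s k τ _ c b θ' n0 h n ((le_max_right _ _).trans hn)
  have hsq := squaring k P ((P : ℤ) - m).toNat m hk hP1 hA B hBm
    (fun t => BadS (s + 1) k τ lam (c / (32 * 2 ^ ((s : ℝ) / k - 1 - τ))) (Fin.cons t θ' : Fin (s + 1) → ℝ) ∩
        Set.Ioc ((2 : ℝ) ^ n) (2 ^ (n + 1))) (by
      rintro t ht N ⟨hN, hN1, hN2⟩
      have e1 : (2 : ℝ) ^ (n + 1) = 2 * X := by rw [hX, pow_succ]; ring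
      rw [e1] at hN2
      exact pointwise s k hk τ lam c hτ hlam hc he θ' t m ht P _ hP1 hA X hXp hPX hXP N hN1 hN2 hN)
  refine hsq.trans ?_
  have h2P : X / 8 ^ k ≤ 2 * (P : ℝ) ^ k := by
    rw [div_le_iff₀ (by positivity)]
    have : 2 * (P : ℝ) ^ k * 8 ^ k = 2 * (8 * (P : ℝ)) ^ k := by
      rw [mul_pow]
      ring
    rw [this]
    linarith
  calc volume B * volume B / ENNReal.ofReal (2 * (P : ℝ) ^ k) ≤
        ENNReal.ofReal ((1 + 2 ^ (-b)) * X ^ b) * ENNReal.ofReal ((1 + 2 ^ (-b)) * X ^ b) /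
          ENNReal.ofReal (X / 8 ^ k) :=
        ENNReal.div_le_div (mul_le_mul' hBv hBv) (ENNReal.ofReal_le_ofReal h2P)
    _ = ENNReal.ofReal (((1 + 2 ^ (-b)) * X ^ b) * ((1 + 2 ^ (-b)) * X ^ b) / (X / 8 ^ k)) := by
        rw [← ENNReal.ofReal_mul (by positivity), ← ENNReal.ofReal_div_of_pos (by positivity)]
    _ = _ := by
        congr 1
        have h1 : X ^ (2 * b - 1) = X ^ b * X ^ b / X := by
          rw [Real.rpow_sub hXp, Real.rpow_one, two_mul, Real.rpow_add hXp]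
        rw [h1]
        field_simp

/-- **One more random shift doubles the exponent.** -/
theorem step_ae (s k : ℕ) (hk : 2 ≤ k) (τ lam c a : ℝ) (hτ : 0 ≤ τ) (hlam : 0 < lam) (hc : 0 < c)
    (he : 0 ≤ (s : ℝ) / k - 1 - τ) (θ' : Fin s → ℝ) (hQ : QP s k τ (lam * 2 ^ (-τ)) c a θ') :
    ∀ᵐ t : ℝ, QP (s + 1) k τ lam (c / (32 * 2 ^ ((s : ℝ) / k - 1 - τ))) (2 * a)
      (Fin.cons t θ' : Fin (s + 1) → ℝ) := by
  set c' : ℝ := c / (32 * 2 ^ ((s : ℝ) / k - 1 - τ)) with hc'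
  set W : ℕ → ℝ → ENNReal := fun n t =>
    volume (BadS (s + 1) k τ lam c' (Fin.cons t θ' : Fin (s + 1) → ℝ) ∩ Set.Ioc ((2 : ℝ) ^ n) (2 ^ (n + 1))) with hW
  have hWm : ∀ n, Measurable (W n) := fun n => (meas_win (s + 1) k τ lam c' _ _).comp (meas_cons s θ')
  have hmain : ∀ (m : ℤ) (j : ℕ), ∀ᵐ t ∂(volume.restrict (Set.Ioc (m : ℝ) (m + 1))), ∀ᶠ ν : ℕ in Filter.atTop,
      W ν t ≤ ENNReal.ofReal (((2 : ℝ) ^ ν) ^ (1 - 2 * a + 1 / ((j : ℝ) + 1))) := by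
    intro m j
    have hj : (0 : ℝ) < (j : ℝ) + 1 := by positivity
    obtain ⟨n0, hn0⟩ := hQ (4 * j + 3)
    set b : ℝ := 1 - a + 1 / (((4 * j + 3 : ℕ) : ℝ) + 1) with hb
    obtain ⟨n1, hn1⟩ := window_int s k hk τ lam c hτ hlam hc he b θ' n0 hn0 m
    have h1 := bc (volume.restrict (Set.Ioc (m : ℝ) (m + 1)))
      (fun ν t => if n1 ≤ ν then W ν t else 0) (fun ν => by
        by_cases h : n1 ≤ ν
        · simp only [h, if_true]; exact hWm ν
        · simp only [h, if_false]; exact measurable_const)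
      ((1 + 2 ^ (-b)) ^ 2 * 8 ^ k) (2 * b - 1) (1 / (2 * ((j : ℝ) + 1))) (by positivity) (by positivity) (by
        intro ν
        by_cases h : n1 ≤ ν
        · simp only [h, if_true]
          have h2 := hn1 ν h
          push_cast
          exact h2
        · simp only [h, if_false, lintegral_zero]
          exact zero_le')
    filter_upwards [h1] with t ht
    filter_upwards [ht, Filter.eventually_ge_atTop n1] with ν hν hν1
    simp only [hν1, if_true] at hν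
    refine hν.trans (ENNReal.ofReal_le_ofReal (le_of_eq ?_))
    push_cast
    congr 1
    rw [hb]
    push_cast
    field_simp
    ring
  have h1 : ∀ (m : ℤ) (j : ℕ), ∀ᵐ t : ℝ, t ∈ Set.Ioc (m : ℝ) (m + 1) → ∀ᶠ ν : ℕ in Filter.atTop,
      W ν t ≤ ENNReal.ofReal (((2 : ℝ) ^ ν) ^ (1 - 2 * a + 1 / ((j : ℝ) + 1))) := fun m j =>
    (ae_restrict_iff' measurableSet_Ioc).1 (hmain m j)
  simp_rw [← ae_all_iff] at h1
  filter_upwards [h1] with t ht j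
  have h2 := ht (⌈t⌉ - 1) j (by
    have h2 := Int.le_ceil t
    have h3 := Int.ceil_lt_add_one t
    push_cast
    constructor <;> linarith)
  exact Filter.eventually_atTop.1 h2

end Pool.Agent.U518.WS
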