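import Mathlib
import Pool.Agent.U518.WS.T

/-! Waring's problem with shifts, part U: all large numbers with few variables. -/

set_option autoImplicit false

open Finset MeasureTheory

namespace Pool.Agent.U518.WS

theorem base_QP (k : ℕ) (hk : 2 ≤ k) (τ lam : ℝ) (hτ : 0 ≤ τ) (hlam : 0 < lam)
    (hlam1 : lam ≤ 1) :
    ∀ᵐ θ : Fin (k + 1) → ℝ, QP (k + 1) k τ lam (cfin k τ * lam) (1 / (k : ℝ) - τ) θ := by
  have hk0 : (2 : ℝ) ≤ k := by exact_mod_cast hk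
  have hkp : (0 : ℝ) < k := by linarith
  filter_upwards [main2 k hk τ lam hτ hlam hlam1] with θ hθ j
  have hj : (0 : ℝ) < (j : ℝ) + 1 := by positivity
  set ε : ℝ := 1 / (2 * ((j : ℝ) + 1)) with hε
  have hεp : 0 < ε := by positivity
  have hev := hθ ε hεp
  have htend : Filter.Tendsto (fun n : ℕ => (2 : ℝ) ^ (n + 1)) Filter.atTop Filter.atTop :=
    (Filter.tendsto_add_atTop_iff_nat 1).2 (tendsto_pow_atTop_atTop_of_one_lt (by norm_num : (1 : ℝ) < 2))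
  have htend' : Filter.Tendsto (fun n : ℕ => ((2 : ℝ) ^ n) ^ ε) Filter.atTop Filter.atTop :=
    (tendsto_rpow_atTop hεp).comp (tendsto_pow_atTop_atTop_of_one_lt (by norm_num : (1 : ℝ) < 2))
  obtain ⟨n0, hn0⟩ := Filter.eventually_atTop.1 ((htend.eventually hev).and
    (htend'.eventually_ge_atTop ((2 : ℝ) ^ (1 - 1 / (k : ℝ) + τ + ε))))
  refine ⟨n0, fun n hn => ?_⟩
  obtain ⟨h1, h2⟩ := hn0 n hn
  refine (measure_mono ?_).trans (h1.trans (ENNReal.ofReal_le_ofReal ?_))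
  · rintro N ⟨⟨hN0, hN⟩, hN1, hN2⟩
    refine ⟨hN0, hN2, fun h => hN ?_⟩
    obtain ⟨A, hA1, hA2⟩ := h
    refine ⟨A, hA1, le_trans (le_of_eq ?_) hA2⟩
    have h3 : ((k + 1 : ℕ) : ℝ) / k - 1 - τ = -τ + 1 / k := by
      push_cast
      field_simp
      ring
    rw [h3, Real.rpow_add hN0]
    ring
  · have h3 : (0 : ℝ) < (2 : ℝ) ^ n := by positivity
    rw [pow_succ, Real.mul_rpow h3.le (by norm_num)]
    have h4 : 1 - (1 / (k : ℝ) - τ) + 1 / ((j : ℝ) + 1) = (1 - 1 / (k : ℝ) + τ + ε) + ε := by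
      rw [hε]
      field_simp
      ring
    rw [h4, Real.rpow_add h3 (1 - 1 / (k : ℝ) + τ + ε) ε]
    exact mul_le_mul_of_nonneg_left h2 (by positivity)

/-- `j` more shifts -/
theorem many_ae (k : ℕ) (hk : 2 ≤ k) (τ : ℝ) (hτ : 0 ≤ τ) (hτ1 : τ < 1 / (k : ℝ)) (j : ℕ) :
    ∀ lam : ℝ, 0 < lam → lam ≤ 1 → ∃ c : ℝ, 0 < c ∧
      ∀ᵐ θ : Fin (k + 1 + j) → ℝ, QP (k + 1 + j) k τ lam c (2 ^ j * (1 / (k : ℝ) - τ)) θ := by
  have hk0 : (2 : ℝ) ≤ k := by exact_mod_cast hk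
  have hkp : (0 : ℝ) < k := by linarith
  induction j with
  | zero =>
    intro lam hlam hlam1
    refine ⟨cfin k τ * lam, mul_pos (cfin_pos k (by omega) τ) hlam, ?_⟩
    rw [pow_zero, one_mul]
    exact base_QP k hk τ lam hτ hlam hlam1
  | succ j ih =>
    intro lam hlam hlam1
    have h2 : (0 : ℝ) < 2 ^ (-τ) := Real.rpow_pos_of_pos (by norm_num) _
    have h2' : (2 : ℝ) ^ (-τ) ≤ 1 := Real.rpow_le_one_of_one_le_of_nonpos (by norm_num) (by linarith)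
    obtain ⟨c, hc, h⟩ := ih (lam * 2 ^ (-τ)) (by positivity) (by nlinarith)
    refine ⟨c / (32 * 2 ^ (((k + 1 + j : ℕ) : ℝ) / k - 1 - τ)), by positivity, ?_⟩
    have he : 0 ≤ ((k + 1 + j : ℕ) : ℝ) / k - 1 - τ := by
      have h3 : 1 + 1 / (k : ℝ) ≤ ((k + 1 + j : ℕ) : ℝ) / k := by
        rw [le_div_iff₀ hkp, add_mul, one_div_mul_cancel hkp.ne']
        push_cast
        have : (0 : ℝ) ≤ j := Nat.cast_nonneg j
        linarith
      linarith
    have h3 : (2 : ℝ) ^ (j + 1) * (1 / (k : ℝ) - τ) = 2 * (2 ^ j * (1 / (k : ℝ) - τ)) := by ring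
    rw [h3]
    apply ae_cons (k + 1 + j)
    · exact meas_QP _ _ _ _ _ _
    · filter_upwards [h] with θ' hθ'
      exact step_ae (k + 1 + j) k hk τ lam c _ hτ hlam hc he θ' hθ'

/-- **From small exceptional sets to all large numbers.** -/
theorem all_large (s k : ℕ) (τ lam c a : ℝ) (hτ : 0 ≤ τ) (hlam1 : lam ≤ 1 / 2) (hc : 0 < c)
    (hlam : 0 < lam) (he : 0 ≤ (s : ℝ) / k - 1 - τ) (ha : 1 + τ < a) (θ : Fin s → ℝ) (hQ : QP s k τ lam c a θ) :
    ∀ᶠ N : ℝ in Filter.atTop, ManyS s k θ N (N ^ (-τ)) (c * N ^ ((s : ℝ) / k - 1 - τ)) := by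
  obtain ⟨j, hj⟩ := exists_nat_one_div_lt (by linarith : 0 < a - 1 - τ)
  obtain ⟨n0, hn0⟩ := hQ j
  set b : ℝ := 1 - a + 1 / ((j : ℝ) + 1) with hb
  have hbτ : 0 < -b - τ := by rw [hb]; linarith
  have htend : Filter.Tendsto (fun n : ℕ => ((2 : ℝ) ^ n) ^ (-b - τ)) Filter.atTop Filter.atTop :=
    (tendsto_rpow_atTop hbτ).comp (tendsto_pow_atTop_atTop_of_one_lt (by norm_num : (1 : ℝ) < 2))
  obtain ⟨n1, hn1⟩ := Filter.eventually_atTop.1 (htend.eventually_gt_atTop (4 * 2 ^ τ))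
  refine Filter.eventually_atTop.2 ⟨2 ^ (max n0 n1) + 1, fun N hN => ?_⟩
  have hpow1 : (1 : ℝ) ≤ 2 ^ (max n0 n1) := one_le_pow₀ (by norm_num)
  have hN1 : 1 < N := by linarith
  have hNp : 0 < N := by linarith
  -- the window
  obtain ⟨n, hna, hnb⟩ := exists_nat_pow_near hN1.le (by norm_num : (1 : ℝ) < 2)
  have hnn : max n0 n1 ≤ n := by
    have h1 : (2 : ℝ) ^ (max n0 n1) < 2 ^ (n + 1) := by linarith
    have h2 : max n0 n1 < n + 1 := (pow_lt_pow_iff_right₀ (by norm_num : (1 : ℝ) < 2)).1 h1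
    omega
  by_contra hcon
  set w : ℝ := N ^ (-τ) / 2 with hw
  have hNτ : 0 < N ^ (-τ) := Real.rpow_pos_of_pos hNp _
  have hwp : 0 < w := by positivity
  have hNτ1 : N ^ (-τ) ≤ 1 := Real.rpow_le_one_of_one_le_of_nonpos hN1.le (by linarith)
  have h2n : (1 : ℝ) ≤ 2 ^ n := one_le_pow₀ (by norm_num)
  have hsub : Set.Ioo N (N + w) ⊆ (BadS s k τ lam c θ ∩ Set.Ioc ((2 : ℝ) ^ n) (2 ^ (n + 1))) ∪
      (BadS s k τ lam c θ ∩ Set.Ioc ((2 : ℝ) ^ (n + 1)) (2 ^ (n + 1 + 1))) := by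
    rintro u ⟨hu1, hu2⟩
    have hup : 0 < u := by linarith
    have hbad : u ∈ BadS s k τ lam c θ := by
      refine ⟨hup, fun h => hcon ?_⟩
      obtain ⟨A, hA1, hA2⟩ := h
      refine ⟨A, fun x hx => ⟨(hA1 x hx).1, ?_⟩, le_trans ?_ hA2⟩
      · have h1 := (hA1 x hx).2
        have h2 : u ^ (-τ) ≤ N ^ (-τ) := Real.rpow_le_rpow_of_nonpos hNp hu1.le (by linarith)
        have h3 : lam * u ^ (-τ) ≤ 1 / 2 * N ^ (-τ) :=
          mul_le_mul hlam1 h2 (Real.rpow_pos_of_pos hup _).le (by norm_num)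
        have h4 : |∑ i, ((x i : ℝ) + θ i) ^ k - N| ≤ |∑ i, ((x i : ℝ) + θ i) ^ k - u| + |u - N| := abs_sub_le _ _ _
        have h5 : |u - N| < w := by
          rw [abs_of_pos (by linarith)]
          linarith
        rw [hw] at h5
        linarith
      · apply mul_le_mul_of_nonneg_left _ hc.le
        exact Real.rpow_le_rpow hNp.le hu1.le he
    have h3 : u ≤ 2 ^ (n + 1 + 1) := by
      have : (2 : ℝ) ^ (n + 1 + 1) = 2 ^ (n + 1) + 2 ^ (n + 1) := by ring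
      have h4 : (2 : ℝ) ^ (n + 1) = 2 * 2 ^ n := by ring
      linarith
    by_cases h4 : u ≤ 2 ^ (n + 1)
    · exact Or.inl ⟨hbad, by linarith, h4⟩
    · exact Or.inr ⟨hbad, not_le.1 h4, h3⟩
  have hvol := (measure_mono hsub).trans ((measure_union_le _ _).trans
    (add_le_add (hn0 n ((le_max_left _ _).trans hnn)) (hn0 (n + 1) (((le_max_left _ _).trans hnn).trans (Nat.le_succ n)))))
  rw [Real.volume_Ioo, ← ENNReal.ofReal_add (by positivity) (by positivity),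
    ENNReal.ofReal_le_ofReal_iff (by positivity)] at hvol
  have hbneg : b ≤ 0 := by linarith
  have h2np : (0 : ℝ) < 2 ^ n := by positivity
  have h5 : ((2 : ℝ) ^ (n + 1)) ^ b ≤ ((2 : ℝ) ^ n) ^ b :=
    Real.rpow_le_rpow_of_nonpos h2np (pow_le_pow_right₀ (by norm_num) (Nat.le_succ n)) hbneg
  have h6 : w ≤ 2 * ((2 : ℝ) ^ n) ^ b := by linarith
  have h7 : (2 : ℝ) ^ (-τ) * ((2 : ℝ) ^ n) ^ (-τ) ≤ N ^ (-τ) := by
    rw [← Real.mul_rpow (by norm_num) h2np.le]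
    apply Real.rpow_le_rpow_of_nonpos hNp _ (by linarith)
    have : (2 : ℝ) ^ (n + 1) = 2 * 2 ^ n := by ring
    linarith
  have h8 := hn1 n ((le_max_right _ _).trans hnn)
  -- contradiction
  have h9 : (2 : ℝ) ^ (-τ) * ((2 : ℝ) ^ n) ^ (-τ) ≤ 4 * ((2 : ℝ) ^ n) ^ b := by
    rw [hw] at h6
    linarith
  have h10 : ((2 : ℝ) ^ n) ^ (-b - τ) ≤ 4 * 2 ^ τ := by
    have e1 : ((2 : ℝ) ^ n) ^ (-b - τ) = ((2 : ℝ) ^ n) ^ (-τ) * ((2 : ℝ) ^ n) ^ (-b) := by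
      rw [← Real.rpow_add h2np]
      congr 1
      ring
    have e2 : ((2 : ℝ) ^ n) ^ b * ((2 : ℝ) ^ n) ^ (-b) = 1 := by
      rw [← Real.rpow_add h2np]
      simp
    have e3 : (2 : ℝ) ^ τ * 2 ^ (-τ) = 1 := by
      rw [← Real.rpow_add (by norm_num)]
      simp
    have hx : 0 < ((2 : ℝ) ^ n) ^ (-b) := Real.rpow_pos_of_pos h2np _
    have hy : (0 : ℝ) < 2 ^ τ := Real.rpow_pos_of_pos (by norm_num) _
    calc ((2 : ℝ) ^ n) ^ (-b - τ) = ((2 : ℝ) ^ τ * 2 ^ (-τ)) * (((2 : ℝ) ^ n) ^ (-τ) * ((2 : ℝ) ^ n) ^ (-b)) := by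
          rw [e3, e1, one_mul]
      _ = (2 ^ τ * ((2 : ℝ) ^ n) ^ (-b)) * ((2 : ℝ) ^ (-τ) * ((2 : ℝ) ^ n) ^ (-τ)) := by ring
      _ ≤ (2 ^ τ * ((2 : ℝ) ^ n) ^ (-b)) * (4 * ((2 : ℝ) ^ n) ^ b) :=
          mul_le_mul_of_nonneg_left h9 (by positivity)
      _ = 4 * 2 ^ τ * (((2 : ℝ) ^ n) ^ b * ((2 : ℝ) ^ n) ^ (-b)) := by ring
      _ = 4 * 2 ^ τ := by rw [e2, mul_one]
  linarith

/-- from the smallest windows to all windows -/
theorem all_delta (s k : ℕ) (τ c : ℝ) (hτ : 0 ≤ τ) (hc : 0 < c) (he : 0 ≤ (s : ℝ) / k - 1 - τ) (θ : Fin s → ℝ)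
    (h : ∀ᶠ N : ℝ in Filter.atTop, ManyS s k θ N (N ^ (-τ)) (c * N ^ ((s : ℝ) / k - 1 - τ))) :
    ∀ᶠ N : ℝ in Filter.atTop, ∀ δ : ℝ, N ^ (-τ) ≤ δ →
      ManyS s k θ N δ (c / 3 * δ * N ^ ((s : ℝ) / k - 1)) := by
  classical
  obtain ⟨N0, hN0⟩ := Filter.eventually_atTop.1 h
  refine Filter.eventually_atTop.2 ⟨max N0 1, fun N hN δ hδ => ?_⟩
  have hN1 : 1 ≤ N := (le_max_right _ _).trans hN
  have hNp : 0 < N := by linarith
  have hd : 0 < N ^ (-τ) := Real.rpow_pos_of_pos hNp _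
  set d : ℝ := N ^ (-τ) with hddef
  set M : ℕ := ⌊(δ / d + 1) / 2⌋₊ with hM
  have hx1 : 1 ≤ δ / d := (one_le_div hd).2 hδ
  have hM1 : 1 ≤ M := by
    rw [hM]
    apply (Nat.one_le_floor_iff _).2
    linarith
  have hMle : (M : ℝ) ≤ (δ / d + 1) / 2 := Nat.floor_le (by linarith)
  have hMlt : (δ / d + 1) / 2 < M + 1 := Nat.lt_floor_add_one _
  have hM3 : δ / d / 3 ≤ M := by
    have h1 : (1 : ℝ) ≤ M := by exact_mod_cast hM1
    linarith
  have hcen : ∀ i : ℕ, ManyS s k θ (N + 2 * i * d) d (c * N ^ ((s : ℝ) / k - 1 - τ)) := by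
    intro i
    have h1 : N ≤ N + 2 * i * d := by
      have : (0 : ℝ) ≤ 2 * i * d := by positivity
      linarith
    apply (hN0 (N + 2 * i * d) (((le_max_left _ _).trans hN).trans h1)).mono
    · exact Real.rpow_le_rpow_of_nonpos hNp h1 (by linarith)
    · apply mul_le_mul_of_nonneg_left _ hc.le
      exact Real.rpow_le_rpow hNp.le h1 he
  choose F hF1 hF2 using hcen
  refine ⟨(range M).biUnion F, ?_, ?_⟩
  · intro x hx
    rw [mem_biUnion] at hx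
    obtain ⟨i, hi, hx⟩ := hx
    rw [mem_range] at hi
    obtain ⟨h1, h2⟩ := hF1 i x hx
    refine ⟨h1, ?_⟩
    have h3 : (i : ℝ) + 1 ≤ M := by exact_mod_cast hi
    have h4 : (2 * (i : ℝ) + 1) * d ≤ δ := by
      have h5 : 2 * (i : ℝ) + 1 ≤ δ / d := by linarith
      have := mul_le_mul_of_nonneg_right h5 hd.le
      rwa [div_mul_cancel₀ _ hd.ne'] at this
    have h5 : |∑ i, ((x i : ℝ) + θ i) ^ k - N| ≤ |∑ i, ((x i : ℝ) + θ i) ^ k - (N + 2 * i * d)| +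
        |(N + 2 * i * d) - N| := abs_sub_le _ _ _
    have h6 : |(N + 2 * i * d) - N| = 2 * i * d := by
      rw [add_sub_cancel_left, abs_of_nonneg (by positivity)]
    rw [h6] at h5
    linarith
  · rw [card_biUnion]
    · push_cast
      have h1 : ∑ i ∈ range M, (c * N ^ ((s : ℝ) / k - 1 - τ)) ≤ ∑ i ∈ range M, ((F i).card : ℝ) :=
        sum_le_sum fun i _ => hF2 i
      refine le_trans ?_ h1
      rw [sum_const, card_range, nsmul_eq_mul]
      have h2 : N ^ ((s : ℝ) / k - 1 - τ) = N ^ ((s : ℝ) / k - 1) * d := by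
        rw [hddef, ← Real.rpow_add hNp]
        congr 1
      rw [h2]
      have h3 : 0 < N ^ ((s : ℝ) / k - 1) := Real.rpow_pos_of_pos hNp _
      calc c / 3 * δ * N ^ ((s : ℝ) / k - 1) = (δ / d / 3) * (c * (N ^ ((s : ℝ) / k - 1) * d)) := by
            field_simp
        _ ≤ _ := mul_le_mul_of_nonneg_right hM3 (by positivity)
    · intro i _ i' _ hii'
      rw [Function.onFun, Finset.disjoint_left]
      intro x hx hx'
      have h1 := abs_lt.1 (hF1 i x hx).2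
      have h2 := abs_lt.1 (hF1 i' x hx').2
      apply hii'
      have h3 : (2 * (i : ℝ) - 2 * i') * d < 2 * d := by nlinarith [h1.1, h1.2, h2.1, h2.2]
      have h4 : (2 * (i' : ℝ) - 2 * i) * d < 2 * d := by nlinarith [h1.1, h1.2, h2.1, h2.2]
      have h5 : (i : ℝ) < i' + 1 := by
        have := lt_of_mul_lt_mul_right h3 hd.le
        linarith
      have h6 : (i' : ℝ) < i + 1 := by
        have := lt_of_mul_lt_mul_right h4 hd.le
        linarith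
      have h7 : i < i' + 1 := by exact_mod_cast h5
      have h8 : i' < i + 1 := by exact_mod_cast h6
      omega

end Pool.Agent.U518.WS
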