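import Mathlib
import Pool.Agent.U518.WS.U

/-! Waring's problem with shifts, part V: all large numbers with `k + [log₂ k] + 2` variables. -/

set_option autoImplicit false

open Finset MeasureTheory

namespace Pool.Agent.U518.WS

theorem few_main (k j : ℕ) (hk : 2 ≤ k) (τ : ℝ) (hτ0 : 0 ≤ τ)
    (hτ : τ < ((2 : ℝ) ^ j - k) / (k * (2 ^ j + 1))) :
    ∃ c : ℝ, 0 < c ∧ ∀ᵐ θ : Fin (k + 1 + j) → ℝ, ∀ᶠ N : ℝ in Filter.atTop, ∀ δ : ℝ, N ^ (-τ) ≤ δ →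
      ManyS (k + 1 + j) k θ N δ (c * δ * N ^ (((k + 1 + j : ℕ) : ℝ) / k - 1)) := by
  have hk0 : (2 : ℝ) ≤ k := by exact_mod_cast hk
  have hkp : (0 : ℝ) < k := by linarith
  have h2j : (1 : ℝ) ≤ 2 ^ j := one_le_pow₀ (by norm_num)
  have hτ2 : τ * (k * (2 ^ j + 1)) < 2 ^ j - k := (lt_div_iff₀ (by positivity)).1 hτ
  have hτ1 : τ < 1 / (k : ℝ) := by
    rw [lt_div_iff₀ hkp]
    nlinarith
  have ha : 1 + τ < 2 ^ j * (1 / (k : ℝ) - τ) := by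
    have h1 : (2 : ℝ) ^ j * (1 / (k : ℝ) - τ) * k = 2 ^ j * (1 - τ * k) := by
      field_simp
    have h2 : (1 + τ) * k < 2 ^ j * (1 / (k : ℝ) - τ) * k := by
      rw [h1]
      nlinarith
    exact lt_of_mul_lt_mul_right h2 hkp.le
  have he : 0 ≤ ((k + 1 + j : ℕ) : ℝ) / k - 1 - τ := by
    have h3 : 1 + 1 / (k : ℝ) ≤ ((k + 1 + j : ℕ) : ℝ) / k := by
      rw [le_div_iff₀ hkp, add_mul, one_div_mul_cancel hkp.ne']
      push_cast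
      have : (0 : ℝ) ≤ j := Nat.cast_nonneg j
      linarith
    linarith
  obtain ⟨c, hc, h⟩ := many_ae k hk τ hτ0 hτ1 j (1 / 2) (by norm_num) (by norm_num)
  refine ⟨c / 3, by positivity, ?_⟩
  filter_upwards [h] with θ hθ
  exact all_delta _ k τ c hτ0 hc he θ (all_large _ k τ (1 / 2) c _ hτ0 le_rfl hc (by norm_num) he ha θ hθ)

/-- the integer parts -/
theorem few_floor (k j : ℕ) (hk : 2 ≤ k) (hj : k < 2 ^ j) :
    ∃ c : ℝ, 0 < c ∧ ∀ᵐ θ : Fin (k + 1 + j) → ℝ, ∀ᶠ n : ℕ in Filter.atTop, ∃ A : Finset (Fin (k + 1 + j) → ℕ),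
      (∀ x ∈ A, (∀ i, 0 < (x i : ℝ) + θ i) ∧ ⌊∑ i, ((x i : ℝ) + θ i) ^ k⌋ = (n : ℤ)) ∧
      c * (n : ℝ) ^ (((k + 1 + j : ℕ) : ℝ) / k - 1) ≤ (A.card : ℝ) := by
  have hk0 : (2 : ℝ) ≤ k := by exact_mod_cast hk
  have hkp : (0 : ℝ) < k := by linarith
  have hj' : (k : ℝ) < 2 ^ j := by exact_mod_cast hj
  set τ : ℝ := ((2 : ℝ) ^ j - k) / (k * (2 ^ j + 1)) / 2 with hτdef
  have h0 : 0 < ((2 : ℝ) ^ j - k) / (k * (2 ^ j + 1)) := by
    apply div_pos (by linarith) (by positivity)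
  have he : 0 ≤ ((k + 1 + j : ℕ) : ℝ) / k - 1 := by
    have h3 : 1 ≤ ((k + 1 + j : ℕ) : ℝ) / k := by
      rw [le_div_iff₀ hkp]
      push_cast
      have : (0 : ℝ) ≤ j := Nat.cast_nonneg j
      linarith
    linarith
  obtain ⟨c, hc, h⟩ := few_main k j hk τ (by linarith) (by linarith)
  refine ⟨c / 2, by positivity, ?_⟩
  filter_upwards [h] with θ hθ
  have h1 : Filter.Tendsto (fun n : ℕ => (n : ℝ) + 1 / 2) Filter.atTop Filter.atTop :=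
    Filter.tendsto_atTop_add_const_right _ _ tendsto_natCast_atTop_atTop
  have h2 := h1.eventually hθ
  have hτp : 0 < τ := by rw [hτdef]; linarith
  have h3 : ∀ᶠ n : ℕ in Filter.atTop, ((n : ℝ) + 1 / 2) ^ (-τ) ≤ 1 / 2 :=
    ((tendsto_rpow_neg_atTop hτp).comp h1).eventually_le_const (by norm_num)
  filter_upwards [h2, h3] with n hn hn3
  obtain ⟨A, hA1, hA2⟩ := hn (1 / 2) hn3
  refine ⟨A, fun x hx => ⟨(hA1 x hx).1, ?_⟩, le_trans ?_ hA2⟩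
  · have h4 := abs_lt.1 (hA1 x hx).2
    rw [Int.floor_eq_iff]
    push_cast
    constructor <;> linarith [h4.1, h4.2]
  · have h5 : (n : ℝ) ^ (((k + 1 + j : ℕ) : ℝ) / k - 1) ≤ ((n : ℝ) + 1 / 2) ^ (((k + 1 + j : ℕ) : ℝ) / k - 1) :=
      Real.rpow_le_rpow (Nat.cast_nonneg n) (by linarith) he
    calc c / 2 * (n : ℝ) ^ (((k + 1 + j : ℕ) : ℝ) / k - 1) ≤
        c / 2 * ((n : ℝ) + 1 / 2) ^ (((k + 1 + j : ℕ) : ℝ) / k - 1) := mul_le_mul_of_nonneg_left h5 (by positivity)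
      _ = _ := by ring

end Pool.Agent.U518.WS
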